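import Pool.Agent.Lib.MP_55c1e7_ag.D.C3
import Pool.Agent.Lib.MP_55c1e7_ag.D0.CubExp

set_option autoImplicit false

namespace Pool.Agent.Lib.MP_55c1e7_ag.D

open IsLocalRing MP55c1e7.D0

variable {O K : Type} [CommRing O] [IsDomain O] [IsDiscreteValuationRing O] [Field K]
  [Algebra O K] (C : Cub O K)

/-- The elements of `R` given by the coordinates. -/
noncomputable def rx (i : Fin 3) : C.R := algebraMap C.B C.R (bx C.x C.w i)

noncomputable def rw' (i : Fin 3) : C.R := algebraMap C.B C.R (bw C.x C.w i)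

theorem cub_gen (b : C.B) : algebraMap C.B C.R b ∈
    Algebra.adjoin O ({rx C 0, rx C 1, rx C 2, rw' C 0, rw' C 1, rw' C 2} : Set C.R) := by
  obtain ⟨b, hb⟩ := b
  induction hb using Algebra.adjoin_induction with
  | mem y hy =>
    obtain ⟨i, rfl⟩ := hy
    cases i with
    | inl i =>
      have h1 : algebraMap C.B C.R ⟨Sum.elim C.x C.w (Sum.inl i),
          Algebra.subset_adjoin ⟨_, rfl⟩⟩ = rx C i := rfl
      rw [h1]
      apply Algebra.subset_adjoin
      fin_cases i <;> simp
    | inr i =>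
      have h1 : algebraMap C.B C.R ⟨Sum.elim C.x C.w (Sum.inr i),
          Algebra.subset_adjoin ⟨_, rfl⟩⟩ = rw' C i := rfl
      rw [h1]
      apply Algebra.subset_adjoin
      fin_cases i <;> simp
  | algebraMap r => exact Subalgebra.algebraMap_mem _ r
  | add y z hy hz h1 h2 => exact Subalgebra.add_mem _ h1 h2
  | mul y z hy hz h1 h2 => exact Subalgebra.mul_mem _ h1 h2

theorem cub_max : maximalIdeal C.R =
    Ideal.span {algebraMap O C.R C.t, rx C 0, rx C 1, rx C 2} := by
  rw [← C.span_par]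
  congr 1
  ext r
  constructor
  · rintro ⟨j, rfl⟩
    cases j with
    | none => exact Or.inl rfl
    | some i =>
      right
      fin_cases i
      · exact Or.inl rfl
      · exact Or.inr (Or.inl rfl)
      · exact Or.inr (Or.inr rfl)
  · rintro (rfl | rfl | rfl | rfl)
    · exact ⟨none, rfl⟩
    · exact ⟨some 0, rfl⟩
    · exact ⟨some 1, rfl⟩
    · exact ⟨some 2, rfl⟩

/-- The local ring of `E ^ 3` satisfies the hypotheses of box D. -/
theorem cub_rData : RData (R := C.R) C.t (rx C 0) (rx C 1) (rx C 2) (rw' C 0) (rw' C 1)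
    (rw' C 2) where
  ht := C.ht
  two := C.h2
  max := cub_max C
  dim := C.ringKrullDim_R
  hw1 := by
    rw [rw', rx, ← map_pow, bw_sq C.x C.w 0 (C.rel 0), map_add, map_pow, map_one]
  hw2 := by
    rw [rw', rx, ← map_pow, bw_sq C.x C.w 1 (C.rel 1), map_add, map_pow, map_one]
  hw3 := by
    rw [rw', rx, ← map_pow, bw_sq C.x C.w 2 (C.rel 2), map_add, map_pow, map_one]
  gen := by
    intro r
    obtain ⟨⟨b, s⟩, h⟩ := IsLocalization.surj C.P.primeCompl r
    exact ⟨algebraMap C.B C.R b, algebraMap C.B C.R s, cub_gen C b, cub_gen C s,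
      IsLocalization.map_units _ s, h⟩

/-- Box D for the function field of `E ^ 3`: the list of `Y` has no smooth projective model. -/
theorem cub_no_model {k : Type} [Field k] [Algebra O k] [IsFractionRing O k] [Algebra k K]
    [IsScalarTower O k K] (hfr : IsFractionRing C.B K) {N : ℕ} (s : Fin N → K)
    (hs : ∃ i, s i ≠ 0)
    (hsm : ∀ i, s i ≠ 0 → Algebra.Smooth O
      (Algebra.adjoin O (Set.range fun j => s j / s i)))
    (hLR : ∀ B : Subring K, IsLR k s B ↔
      IsLR k (hY (C.x 0 - algebraMap O K C.t) (C.x 0) (C.x 1) (C.x 2) (C.w 0) (C.w 1)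
        (C.w 2)) B) : False := by
  have h1 : IsFractionRing C.R K := inferInstance
  have h2 : IsDomain C.R := inferInstance
  refine dAlg (K := K) (k := k) (R := C.R) (cub_rData C) s hs hsm ?_
  intro B
  rw [hLR B]
  have h3 : hYR K (algebraMap O C.R C.t) (rx C 0) (rx C 1) (rx C 2) (rw' C 0) (rw' C 1)
      (rw' C 2) = hY (C.x 0 - algebraMap O K C.t) (C.x 0) (C.x 1) (C.x 2) (C.w 0) (C.w 1)
        (C.w 2) := by
    rfl
  rw [h3]

end Pool.Agent.Lib.MP_55c1e7_ag.D
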