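import Mathlib

/-!
# MP_55c1e7_ag, box D (bad reduction): basic notions inside a field `K`

Local rings are subrings of one field `K`; base rings `S` are types with an algebra structure on `K`.
-/

set_option autoImplicit false

namespace Pool.Agent.Lib.MP_55c1e7_ag.D

open Polynomial

variable {K : Type} [Field K]

/-- `u` is a unit of the subring `B`. -/
def Un (B : Subring K) (u : K) : Prop := u ≠ 0 ∧ u ∈ B ∧ u⁻¹ ∈ B

/-- `a` is a non-unit of the subring `B`. -/
def NU (B : Subring K) (a : K) : Prop := a ∈ B ∧ (a ≠ 0 → a⁻¹ ∉ B)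

/-- `B` is a local ring. -/
def Loc (B : Subring K) : Prop := ∀ a b : K, NU B a → NU B b → NU B (a + b)

/-- `B` is a discrete valuation ring of the field `K`. -/
def DVR (B : Subring K) : Prop :=
  ∃ p : K, p ≠ 0 ∧ NU B p ∧ ∀ q : K, q ≠ 0 → ∃ n : ℤ, Un B (q / p ^ n)

/-- `B` is a localization of (the image of) `S`. -/
def IsLoc (S : Type) [CommRing S] [Algebra S K] (B : Subring K) : Prop :=
  (∀ s : S, algebraMap S K s ∈ B) ∧
    ∀ b ∈ B, ∃ a s : S, Un B (algebraMap S K s) ∧ b * algebraMap S K s = algebraMap S K a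

/-- The local rings, inside `K`, of the projective model `Proj R[h_i T]` over `R`. -/
def IsLR (R : Type) [CommRing R] [Algebra R K] {ι : Type} (h : ι → K) (B : Subring K) : Prop :=
  Loc B ∧ ∃ i : ι, h i ≠ 0 ∧ (∀ j, h j / h i ∈ B) ∧
    IsLoc (Algebra.adjoin R (Set.range fun j => h j / h i)) B

/-- `locAt S V`: fractions of elements of `S` whose denominators are invertible in `V`. -/
def locAt (S : Type) [CommRing S] [Algebra S K] (V : Subring K) : Subring K where
  carrier := {q | ∃ a s : S, algebraMap S K s ≠ 0 ∧ (algebraMap S K s)⁻¹ ∈ V ∧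
    q * algebraMap S K s = algebraMap S K a}
  mul_mem' := by
    rintro p q ⟨a, s, h1, h2, h3⟩ ⟨b, r, g1, g2, g3⟩
    refine ⟨a * b, s * r, ?_, ?_, ?_⟩
    · rw [map_mul]; exact mul_ne_zero h1 g1
    · rw [map_mul, mul_inv]; exact V.mul_mem h2 g2
    · rw [map_mul, map_mul, ← h3, ← g3]; ring
  one_mem' := ⟨1, 1, by simp, by simp [V.one_mem], by simp⟩
  add_mem' := by
    rintro p q ⟨a, s, h1, h2, h3⟩ ⟨b, r, g1, g2, g3⟩
    refine ⟨a * r + b * s, s * r, ?_, ?_, ?_⟩
    · rw [map_mul]; exact mul_ne_zero h1 g1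
    · rw [map_mul, mul_inv]; exact V.mul_mem h2 g2
    · rw [map_mul, map_add, map_mul, map_mul, ← h3, ← g3]; ring
  zero_mem' := ⟨0, 1, by simp, by simp [V.one_mem], by simp⟩
  neg_mem' := by
    rintro p ⟨a, s, h1, h2, h3⟩
    exact ⟨-a, s, h1, h2, by rw [map_neg, ← h3]; ring⟩

/-- `IsEE q c B`: `B` is the ring of fractions `f(c)/g(c)` with `f, g ∈ R[X]`, `g ∉ q[X]`. For `c = a/b`, `a, b ∈ q`, this is
the localization of `R[a/b]` at the prime ideal `q R[a/b]`. -/
def IsEE {R : Type} [CommRing R] [Algebra R K] (q : Ideal R) (c : K) (B : Subring K) : Prop :=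
  ∀ u : K, u ∈ B ↔ ∃ f g : R[X], (∃ i, g.coeff i ∉ q) ∧ u * aeval c g = aeval c f

/-- The valuation ring of the exceptional divisor over the prime `(a, b)`. -/
def IsE {R : Type} [CommRing R] [Algebra R K] (a b : R) (B : Subring K) : Prop :=
  IsEE (Ideal.span {a, b}) (algebraMap R K a / algebraMap R K b) B

end Pool.Agent.Lib.MP_55c1e7_ag.D
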