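import Pool.Agent.Lib.MP_55c1e7_ag.D.Basic
import Pool.Agent.Lib.MP_55c1e7_ag.Reg3
import Pool.Agent.Lib.MP_55c1e7_ag.D0.RegD
import Pool.Agent.Lib.MP_55c1e7_ag.D0.Ext

/-!
# MP_55c1e7_ag, box D: the inputs from D0 (regularity, factoriality, uniformizer, extension)
-/

set_option autoImplicit false

namespace Pool.Agent.Lib.MP_55c1e7_ag.D

variable {K : Type} [Field K]

namespace ConnS

theorem isUnit_iff {B : Subring K} (b : B) : IsUnit b ↔ ¬ NU B (b : K) := by
  constructor
  · rintro ⟨u, hu⟩ ⟨_, h2⟩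
    have h3 : (b : K) * ((u⁻¹ : Bˣ) : B) = 1 := by
      have : (u : B) * ((u⁻¹ : Bˣ) : B) = 1 := Units.mul_inv u
      rw [hu] at this
      exact_mod_cast congrArg (fun z : B => (z : K)) this
    have h4 : (b : K) ≠ 0 := left_ne_zero_of_mul (by rw [h3]; exact one_ne_zero)
    apply h2 h4
    rw [inv_eq_of_mul_eq_one_right h3]
    exact (((u⁻¹ : Bˣ) : B)).2
  · intro h
    have h1 : (b : K) ≠ 0 ∧ (b : K)⁻¹ ∈ B := by
      by_contra h2
      apply h
      refine ⟨b.2, fun h3 h4 => h2 ⟨h3, h4⟩⟩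
    exact IsUnit.of_mul_eq_one ⟨(b : K)⁻¹, h1.2⟩ (Subtype.ext (mul_inv_cancel₀ h1.1))

theorem mem_nonunits {B : Subring K} (b : B) : b ∈ nonunits B ↔ NU B (b : K) := by
  rw [mem_nonunits_iff, isUnit_iff, not_not]

theorem isLocalRing_of_loc {B : Subring K} (hB : Loc B) : IsLocalRing B :=
  IsLocalRing.of_nonunits_add fun a b ha hb => by
    rw [mem_nonunits] at ha hb ⊢
    exact hB a b ha hb

theorem exists_equiv {S : Type} [CommRing S] [Algebra S K] [FaithfulSMul S K]
    {B : Subring K} (hloc : IsLoc S B) (hB : Loc B) :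
    ∃ (q : Ideal S) (_ : q.IsPrime) (e : Localization.AtPrime q ≃+* B),
      (∀ s : S, ((e (algebraMap S _ s) : B) : K) = algebraMap S K s) ∧
      ∀ s : S, s ∈ q ↔ NU B (algebraMap S K s) := by
  have hlr : IsLocalRing B := isLocalRing_of_loc hB
  let φ : S →+* B := (algebraMap S K).codRestrict B hloc.1
  let : Algebra S B := φ.toAlgebra
  have hφ : ∀ s : S, ((algebraMap S B s : B) : K) = algebraMap S K s := fun _ => rfl
  let q : Ideal S := (IsLocalRing.maximalIdeal B).comap (algebraMap S B)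
  have hq : ∀ s : S, s ∈ q ↔ NU B (algebraMap S K s) := by
    intro s
    rw [Ideal.mem_comap, IsLocalRing.mem_maximalIdeal, mem_nonunits, hφ]
  have hqp : q.IsPrime := Ideal.IsPrime.comap _
  have hl : IsLocalization q.primeCompl B := by
    refine ⟨?_, ?_, ?_⟩
    · rintro ⟨s, hs⟩
      rw [isUnit_iff]
      intro h
      exact hs ((hq s).mpr h)
    · intro z
      obtain ⟨a, s, hs, has⟩ := hloc.2 z z.2
      refine ⟨(a, ⟨s, ?_⟩), Subtype.ext has⟩
      intro h
      exact ((hq s).mp h).2 hs.1 hs.2.2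
    · intro x y hxy
      refine ⟨1, ?_⟩
      have h1 : algebraMap S K x = algebraMap S K y := congrArg (fun z : B => (z : K)) hxy
      rw [FaithfulSMul.algebraMap_injective S K h1]
  refine ⟨q, hqp, (IsLocalization.algEquiv q.primeCompl (Localization.AtPrime q) B).toRingEquiv,
    ?_, hq⟩
  intro s
  have h1 := (IsLocalization.algEquiv q.primeCompl (Localization.AtPrime q) B).commutes s
  rw [← hφ s, ← h1]
  rfl

/-- the chart of a local ring of the model -/
theorem exists_chart {O : Type} [CommRing O] [Algebra O K] {ι : Type} {h : ι → K}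
    (hsm : ∀ i, h i ≠ 0 →
      Algebra.Smooth O (Algebra.adjoin O (Set.range fun j => h j / h i)))
    {B : Subring K} (hB : IsLR O h B) :
    ∃ (S : Subalgebra O K) (_ : Algebra.Smooth O S) (q : Ideal S) (_ : q.IsPrime)
      (e : Localization.AtPrime q ≃+* B),
      (∀ s : S, ((e (algebraMap S _ s) : B) : K) = (s : K)) ∧ ∀ s : S, s ∈ q ↔ NU B (s : K) := by
  obtain ⟨hloc, i, hi, -, hS⟩ := hB
  obtain ⟨q, hq, e, h1, h2⟩ := exists_equiv hS hloc
  exact ⟨_, hsm i hi, q, hq, e, h1, h2⟩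

end ConnS

/-- Input from D0 (helper46, helper9): the local rings of a model all of whose charts are smooth over `O` are regular and factorial. -/
theorem isLR_regular {O : Type} [CommRing O] [IsDomain O] [IsDiscreteValuationRing O]
    [Algebra O K] [FaithfulSMul O K] {ι : Type} {h : ι → K}
    (hsm : ∀ i, h i ≠ 0 →
      Algebra.Smooth O (Algebra.adjoin O (Set.range fun j => h j / h i)))
    {B : Subring K} (hB : IsLR O h B) :
    IsLocalRing B ∧ IsRegularRing B ∧ UniqueFactorizationMonoid B := by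
  have hlr : IsLocalRing B := ConnS.isLocalRing_of_loc hB.1
  obtain ⟨S, hS, q, hq, e, -, -⟩ := ConnS.exists_chart hsm hB
  have h1 : IsRegularRing (Localization.AtPrime q) :=
    MP55c1e7.D0.smooth_localization_isRegularRing O q
  have h2 : IsRegularRing B := IsRegularRing.of_ringEquiv e
  exact ⟨hlr, h2, (MP55c1e7.Reg.ufd B).2⟩

theorem ConnS.uniformizer_notMem {O : Type} [CommRing O] [IsDomain O]
    [IsDiscreteValuationRing O]
    [Algebra O K] {t : O} (ht : Irreducible t) {ι : Type} {h : ι → K}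
    (hsm : ∀ i, h i ≠ 0 →
      Algebra.Smooth O (Algebra.adjoin O (Set.range fun j => h j / h i)))
    {B : Subring K} (hB : IsLR O h B) (hlr : IsLocalRing B) (htB : NU B (algebraMap O K t)) :
    (⟨algebraMap O K t, htB.1⟩ : B) ∉ IsLocalRing.maximalIdeal B ^ 2 := by
  obtain ⟨S, hS, q, hq, e, h1, h2⟩ := ConnS.exists_chart hsm hB
  have htq : algebraMap O S t ∈ q := (h2 _).mpr htB
  have h3 := (MP55c1e7.D0.uniformizer_notMem_sq O q t ht htq).2
  intro h4
  apply h3
  have h5 : e (algebraMap O (Localization.AtPrime q) t) = ⟨algebraMap O K t, htB.1⟩ := by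
    apply Subtype.ext
    rw [IsScalarTower.algebraMap_apply O S (Localization.AtPrime q), h1]
    rfl
  have h6 : (IsLocalRing.maximalIdeal (Localization.AtPrime q)).map (e : _ →+* B) =
      IsLocalRing.maximalIdeal B := IsLocalRing.map_ringEquiv_maximalIdeal e
  rw [← h6, ← Ideal.map_pow, ← h5] at h4
  have h7 := (Ideal.mem_map_of_equiv e _).mp h4
  obtain ⟨z, hz, hze⟩ := h7
  rwa [← e.injective hze]

/-- Input from D0: the uniformizer is not in the square of the maximal ideal. -/
theorem isLR_uniformizer {O : Type} [CommRing O] [IsDomain O] [IsDiscreteValuationRing O]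
    [Algebra O K] [FaithfulSMul O K] {t : O} (ht : Irreducible t) {ι : Type} {h : ι → K}
    (hsm : ∀ i, h i ≠ 0 →
      Algebra.Smooth O (Algebra.adjoin O (Set.range fun j => h j / h i)))
    {B : Subring K} (hB : IsLR O h B) (htB : NU B (algebraMap O K t)) :
    (∀ a b c d : K, NU B a → NU B b → NU B c → NU B d →
      algebraMap O K t ≠ a * b - c * d) ∧
    (∀ a b : K, a ∈ B → b ∈ B → a * b / algebraMap O K t ∈ B →
      a / algebraMap O K t ∈ B ∨ b / algebraMap O K t ∈ B) := by
  obtain ⟨hlr, hreg, hufd⟩ := isLR_regular hsm hB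
  have h0 := ConnS.uniformizer_notMem ht hsm hB hlr htB
  have ht0 : algebraMap O K t ≠ 0 := by
    intro h
    apply h0
    have : (⟨algebraMap O K t, htB.1⟩ : B) = 0 := Subtype.ext h
    rw [this]
    exact zero_mem _
  constructor
  · intro a b c d ha hb hc hd heq
    apply h0
    have hm : ∀ (u : K) (hu : NU B u), (⟨u, hu.1⟩ : B) ∈ IsLocalRing.maximalIdeal B := by
      intro u hu
      rw [IsLocalRing.mem_maximalIdeal, ConnS.mem_nonunits]
      exact hu
    have h1 : (⟨algebraMap O K t, htB.1⟩ : B) =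
        ⟨a, ha.1⟩ * ⟨b, hb.1⟩ - ⟨c, hc.1⟩ * ⟨d, hd.1⟩ := Subtype.ext heq
    rw [h1, pow_two]
    exact sub_mem (Ideal.mul_mem_mul (hm a ha) (hm b hb)) (Ideal.mul_mem_mul (hm c hc) (hm d hd))
  · have hreg' : IsRegularLocalRing B := IsRegularLocalRing.of_isRegularRing_of_isLocalRing B
    have hm : (⟨algebraMap O K t, htB.1⟩ : B) ∈ IsLocalRing.maximalIdeal B := by
      rw [IsLocalRing.mem_maximalIdeal, ConnS.mem_nonunits]
      exact htB
    have hp := MP55c1e7.D0.prime_of_notMem_sq hm h0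
    intro a b ha hb hab
    have hdvd : (⟨algebraMap O K t, htB.1⟩ : B) ∣ ⟨a, ha⟩ * ⟨b, hb⟩ :=
      ⟨⟨_, hab⟩, Subtype.ext (by
        change a * b = algebraMap O K t * (a * b / algebraMap O K t)
        rw [mul_div_cancel₀ _ ht0])⟩
    rcases hp.2.2 _ _ hdvd with ⟨c, hc⟩ | ⟨c, hc⟩
    · left
      have h1 : a = algebraMap O K t * c := congrArg (fun z : B => (z : K)) hc
      rw [h1, mul_div_cancel_left₀ _ ht0]
      exact c.2
    · right
      have h1 : b = algebraMap O K t * c := congrArg (fun z : B => (z : K)) hc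
      rw [h1, mul_div_cancel_left₀ _ ht0]
      exact c.2

/-- Input from D-ext (helper6, helper9). -/
theorem ext_mem {O : Type} [CommRing O] [IsDomain O] [IsDiscreteValuationRing O]
    [Algebra O K] [FaithfulSMul O K] (h2 : IsUnit (2 : O)) {ι : Type} {h : ι → K}
    (hsm : ∀ i, h i ≠ 0 →
      Algebra.Smooth O (Algebra.adjoin O (Set.range fun j => h j / h i)))
    {B : Subring K} (hB : IsLR O h B) (hfrac : ∀ q : K, ∃ a b : K, a ∈ B ∧ b ∈ B ∧ b ≠ 0 ∧
      q = a / b) (x w : K) (hxw : w ^ 2 = x ^ 4 + 1) : x ∈ B ∨ x⁻¹ ∈ B := by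
  obtain ⟨hlr, hreg, hufd⟩ := isLR_regular hsm hB
  obtain ⟨i, hi, hij, hloc⟩ := hB.2
  have h2B : IsUnit (2 : B) := by
    have h3 : IsUnit (algebraMap O (Algebra.adjoin O (Set.range fun j => h j / h i)) 2) :=
      h2.map _
    have h4 := h3.map ((algebraMap (Algebra.adjoin O (Set.range fun j => h j / h i)) K).codRestrict
      B hloc.1)
    have h5 : ((algebraMap (Algebra.adjoin O (Set.range fun j => h j / h i)) K).codRestrict
      B hloc.1) (algebraMap O (Algebra.adjoin O (Set.range fun j => h j / h i)) 2) = 2 := by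
      rw [map_ofNat, map_ofNat]
    rwa [h5] at h4
  have hfr : IsFractionRing B K := IsFractionRing.of_field B K (by
    intro z
    obtain ⟨a, b, ha, hb, hb0, hz⟩ := hfrac z
    exact ⟨⟨a, ha⟩, ⟨b, hb⟩, hz⟩)
  rcases MP55c1e7.ext_point B h2B K x w hxw with ⟨a, ha⟩ | ⟨a, ha⟩
  · left; rw [← ha]; exact a.2
  · right; rw [← ha]; exact a.2

end Pool.Agent.Lib.MP_55c1e7_ag.D
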