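import Pool.Agent.Lib.MP_55c1e7_ag.D.G1

set_option autoImplicit false

namespace Pool.Agent.Lib.MP_55c1e7_ag.D

open Polynomial

variable {K : Type} [Field K]

/-- fractions whose denominator is not divisible by the prime `p` -/
def U1_D (K : Type) [Field K] {B : Type} [CommRing B] [Algebra B K] {p : B} (hp : Prime p) :
    Subring K where
  carrier := {q | ∃ a s : B, ¬ p ∣ s ∧ q * algebraMap B K s = algebraMap B K a}
  mul_mem' := by
    rintro q r ⟨a, s, h1, h2⟩ ⟨b, t, g1, g2⟩
    refine ⟨a * b, s * t, fun h => (hp.dvd_or_dvd h).elim h1 g1, ?_⟩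
    rw [map_mul, map_mul, ← h2, ← g2]; ring
  one_mem' := ⟨1, 1, fun h => hp.not_isUnit (isUnit_of_dvd_one h), by simp⟩
  add_mem' := by
    rintro q r ⟨a, s, h1, h2⟩ ⟨b, t, g1, g2⟩
    refine ⟨a * t + b * s, s * t, fun h => (hp.dvd_or_dvd h).elim h1 g1, ?_⟩
    rw [map_mul, map_add, map_mul, map_mul, ← h2, ← g2]; ring
  zero_mem' := ⟨0, 1, fun h => hp.not_isUnit (isUnit_of_dvd_one h), by simp⟩
  neg_mem' := by
    rintro q ⟨a, s, h1, h2⟩
    exact ⟨-a, s, h1, by rw [map_neg, ← h2]; ring⟩

theorem U1_mem {B : Type} [CommRing B] [Algebra B K] {p : B} (hp : Prime p) (q : K) :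
    q ∈ U1_D K hp ↔ ∃ a s : B, ¬ p ∣ s ∧ q * algebraMap B K s = algebraMap B K a := Iff.rfl

theorem U1_alg {B : Type} [CommRing B] [Algebra B K] {p : B} (hp : Prime p) (b : B) :
    algebraMap B K b ∈ U1_D K hp :=
  ⟨b, 1, fun h => hp.not_isUnit (isUnit_of_dvd_one h), by simp⟩

theorem U1_un {B : Type} [CommRing B] [IsDomain B] [Algebra B K] [IsFractionRing B K] {p : B}
    (hp : Prime p) {b : B} (hb : ¬ p ∣ b) : Un (U1_D K hp) (algebraMap B K b) := by
  have hb0 : b ≠ 0 := by
    rintro rfl
    exact hb (dvd_zero p)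
  have hne : algebraMap B K b ≠ 0 :=
    (map_ne_zero_iff _ (IsFractionRing.injective B K)).2 hb0
  refine ⟨hne, U1_alg hp b, 1, b, hb, ?_⟩
  rw [inv_mul_cancel₀ hne, map_one]

/-- ROW U1. The DVR of a prime element of a unique factorization domain `B` with fraction field `K`. -/
theorem exists_dvr_of_prime {B : Type} [CommRing B] [IsDomain B] [UniqueFactorizationMonoid B]
    [Algebra B K] [IsFractionRing B K] {p : B} (hp : Prime p) :
    ∃ D : Subring K, DVR D ∧ IsLoc B D ∧ NU D (algebraMap B K p) ∧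
      (∀ b : B, ¬ p ∣ b → Un D (algebraMap B K b)) := by
  have hinj : Function.Injective (algebraMap B K) := IsFractionRing.injective B K
  have hpne : algebraMap B K p ≠ 0 := (map_ne_zero_iff _ hinj).2 hp.ne_zero
  have hNU : NU (U1_D K hp) (algebraMap B K p) := by
    refine ⟨U1_alg hp p, fun _ => ?_⟩
    rintro ⟨a, s, hs, h⟩
    apply hs
    refine ⟨a, hinj ?_⟩
    rw [map_mul, ← h, ← mul_assoc, mul_inv_cancel₀ hpne, one_mul]
  refine ⟨U1_D K hp, ⟨algebraMap B K p, hpne, hNU, ?_⟩, ⟨U1_alg hp, ?_⟩, hNU,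
    fun b hb => U1_un hp hb⟩
  · intro q hq
    obtain ⟨a, b, hb, hab⟩ := IsFractionRing.div_surjective (A := B) q
    have hb0 : b ≠ 0 := nonZeroDivisors.ne_zero hb
    have ha0 : a ≠ 0 := by
      rintro rfl
      apply hq
      rw [← hab, map_zero, zero_div]
    obtain ⟨m, a', ha', rfl⟩ := WfDvdMonoid.max_power_factor ha0 hp.irreducible
    obtain ⟨n, b', hb', rfl⟩ := WfDvdMonoid.max_power_factor hb0 hp.irreducible
    refine ⟨(m : ℤ) - n, ?_⟩
    have h1 : q / algebraMap B K p ^ ((m : ℤ) - n) =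
        algebraMap B K a' / algebraMap B K b' := by
      have hb'ne : algebraMap B K b' ≠ 0 := (U1_un hp hb').1
      rw [← hab, map_mul, map_mul, map_pow, map_pow, zpow_sub₀ hpne, zpow_natCast, zpow_natCast]
      field_simp
    rw [h1]
    exact (U1_un hp ha').div (U1_un hp hb')
  · rintro q ⟨a, s, hs, h⟩
    exact ⟨a, s, U1_un hp hs, h⟩


/-- ROW U2. Divisibility in a UFD can be tested at the primes dividing the denominator. -/
theorem dvd_of_forall_prime {B : Type} [CommRing B] [IsDomain B] [UniqueFactorizationMonoid B]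
    {M g : B} (hg : g ≠ 0)
    (h : ∀ p : B, Prime p → p ∣ g → ∃ a b : B, ¬ p ∣ b ∧ M * b = g * a) : g ∣ M := by
  induction g using UniqueFactorizationMonoid.induction_on_prime generalizing M with
  | h₁ => exact absurd rfl hg
  | h₂ x hx => exact hx.dvd
  | h₃ g p hg0 hp ih =>
    obtain ⟨a, b, hb, hab⟩ := h p hp (dvd_mul_right p g)
    have hpM : p ∣ M := by
      have h1 : p ∣ M * b := by
        rw [hab, mul_assoc]
        exact dvd_mul_right _ _
      exact (hp.dvd_or_dvd h1).resolve_right hb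
    obtain ⟨M', rfl⟩ := hpM
    refine mul_dvd_mul_left p (ih hg0 fun q hq hqg => ?_)
    obtain ⟨a', b', hb', hab'⟩ := h q hq (hqg.trans (dvd_mul_left g p))
    refine ⟨a', b', hb', mul_left_cancel₀ hp.ne_zero ?_⟩
    rw [← mul_assoc, hab', mul_assoc]

/-- ROW U3. Common denominators and gcd: a finite family in the fraction field `K` of a UFD is `c` times a coprime family. -/
theorem exists_coprime_family {R : Type} [CommRing R] [IsDomain R] [UniqueFactorizationMonoid R]
    [Algebra R K] [IsFractionRing R K] {N : ℕ} (s : Fin N → K) (hs : ∃ i, s i ≠ 0) :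
    ∃ (c : K) (H : Fin N → R), c ≠ 0 ∧ (∀ j, s j = c * algebraMap R K (H j)) ∧
      ∀ p : R, Prime p → ∃ j, ¬ p ∣ H j := by
  classical
  let _ : StrongNormalizationMonoid R := UniqueFactorizationMonoid.strongNormalizationMonoid
  let _ : NormalizedGCDMonoid R := UniqueFactorizationMonoid.toNormalizedGCDMonoid R
  obtain ⟨i0, hi0⟩ := hs
  obtain ⟨b, hb⟩ := IsLocalization.exist_integer_multiples_of_finite (nonZeroDivisors R) s
  choose t ht using hb
  have hinj : Function.Injective (algebraMap R K) := IsFractionRing.injective R K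
  have hb0 : (b : R) ≠ 0 := nonZeroDivisors.ne_zero b.2
  have hbK : algebraMap R K (b : R) ≠ 0 := by
    rwa [Ne, map_eq_zero_iff _ hinj]
  have hne : (Finset.univ : Finset (Fin N)).Nonempty := ⟨i0, Finset.mem_univ _⟩
  obtain ⟨H, hH, hH1⟩ := Finset.extract_gcd t hne
  set d := Finset.univ.gcd t with hd
  have hs' : ∀ j, s j = algebraMap R K d / algebraMap R K (b : R) * algebraMap R K (H j) := by
    intro j
    have h1 := ht j
    rw [hH j (Finset.mem_univ _), map_mul, Algebra.smul_def] at h1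
    rw [div_mul_eq_mul_div, eq_div_iff hbK, h1, mul_comm]
  refine ⟨algebraMap R K d / algebraMap R K (b : R), H, ?_, hs', ?_⟩
  · intro h0
    apply hi0
    rw [hs' i0, h0, zero_mul]
  · intro p hp
    by_contra hcon
    push Not at hcon
    have : p ∣ Finset.univ.gcd H := Finset.dvd_gcd fun j _ => hcon j
    rw [hH1] at this
    exact hp.not_isUnit (isUnit_of_dvd_one this)



private theorem U4_exists_prime {R : Type} [CommRing R] [IsDomain R]
    [UniqueFactorizationMonoid R] [Algebra R K] {D : Subring K}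
    (hR : ∀ s : R, algebraMap R K s ∈ D) (a : R) :
    a ≠ 0 → NU D (algebraMap R K a) → ∃ p : R, Prime p ∧ NU D (algebraMap R K p) := by
  induction a using UniqueFactorizationMonoid.induction_on_prime with
  | h₁ => intro h _; exact absurd rfl h
  | h₂ x hx =>
    intro _ hN
    exfalso
    obtain ⟨y, hy⟩ := hx.exists_right_inv
    have h1 : algebraMap R K x * algebraMap R K y = 1 := by rw [← map_mul, hy, map_one]
    have h2 : algebraMap R K x ≠ 0 := left_ne_zero_of_mul_eq_one h1
    apply hN.2 h2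
    rw [inv_eq_of_mul_eq_one_right h1]
    exact hR y
  | h₃ a p ha hp ih =>
    intro _ hN
    rcases (mem_iff_un_or_nu D (algebraMap R K p)).1 (hR p) with h1 | h1
    · rcases (mem_iff_un_or_nu D (algebraMap R K a)).1 (hR a) with h2 | h2
      · exfalso
        rw [map_mul] at hN
        exact not_un_of_nu hN (h1.mul h2)
      · exact ih ha h2
    · exact ⟨p, hp, h1⟩

/-- ROW U4. (the gcd argument) `D` a DVR which is a localization of the UFD `R`; a family in `R` without common prime divisor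
contains a unit of `D`. (Let `π` be a uniformizer, `π = a/s`, `a` has a prime factor `p` in `R` which is a non-unit of `D` (a product of
units is a unit); by `lemmaG` all non-units of `D` in `R` are multiples of `p`.) -/
theorem exists_unit_of_coprime {R : Type} [CommRing R] [IsDomain R]
    [UniqueFactorizationMonoid R] [Algebra R K] [FaithfulSMul R K] {N : ℕ} (H : Fin N → R)
    (hH : ∀ p : R, Prime p → ∃ j, ¬ p ∣ H j) (hN : ∃ j, H j ≠ 0) {D : Subring K} (hD : DVR D)
    (hloc : IsLoc R D) : ∃ j, Un D (algebraMap R K (H j)) := by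
  have hD' := hD
  obtain ⟨π, hπ0, hπ, -⟩ := hD
  obtain ⟨a, s, hs, has⟩ := hloc.2 π hπ.1
  have haN : NU D (algebraMap R K a) := by
    rw [← has]; exact hπ.mul hs.2.1
  have ha0 : a ≠ 0 := by
    rintro rfl
    rw [map_zero] at has
    exact (mul_ne_zero hπ0 hs.1) has
  obtain ⟨p, hp, hpN⟩ := U4_exists_prime hloc.1 a ha0 haN
  obtain ⟨j, hj⟩ := hH p hp
  refine ⟨j, ?_⟩
  rcases (mem_iff_un_or_nu D (algebraMap R K (H j))).1 (hloc.1 _) with h | h
  · exact h
  · exact absurd (((lemmaG hp hD' hloc hpN).1 (H j)).1 h) hj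


end Pool.Agent.Lib.MP_55c1e7_ag.D
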