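import Pool.Agent.Lib.MP_55c1e7_ag.D.G1

set_option autoImplicit false

namespace Pool.Agent.Lib.MP_55c1e7_ag.D

open Polynomial

variable {K : Type} [Field K]

section V1_aux

variable {R R' K' : Type} [CommRing R] [IsDomain R]
    [Algebra R K] [IsFractionRing R K] [CommRing R'] [IsDomain R'] [Field K'] [Algebra R' K']
    [IsFractionRing R' K'] {p : R} (φ : R →+* R')

private theorem V1_ne (hker : ∀ r, φ r = 0 ↔ p ∣ r) {b : R} (hb : ¬ p ∣ b) :
    algebraMap R' K' (φ b) ≠ 0 := by
  intro h
  exact hb ((hker b).mp ((map_eq_zero_iff _ (IsFractionRing.injective R' K')).mp h))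

private theorem V1_ne' {b : R} (hb : ¬ p ∣ b) : algebraMap R K b ≠ 0 := by
  intro h
  apply hb
  rw [(map_eq_zero_iff _ (IsFractionRing.injective R K)).mp h]
  exact dvd_zero p

private theorem V1_eq (hker : ∀ r, φ r = 0 ↔ p ∣ r) {a b a' b' : R} (hb : ¬ p ∣ b)
    (hb' : ¬ p ∣ b')
    (h : algebraMap R K a / algebraMap R K b = algebraMap R K a' / algebraMap R K b') :
    algebraMap R' K' (φ a) / algebraMap R' K' (φ b) =
      algebraMap R' K' (φ a') / algebraMap R' K' (φ b') := by
  rw [div_eq_div_iff (V1_ne' (K := K) hb) (V1_ne' (K := K) hb'), ← map_mul, ← map_mul] at h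
  have h1 := IsFractionRing.injective R K h
  rw [div_eq_div_iff (V1_ne φ hker hb) (V1_ne φ hker hb'), ← map_mul, ← map_mul, ← map_mul,
    ← map_mul, h1]

end V1_aux

/-- ROW V1 (composition with a prime divisor). `R` a noetherian domain with fraction field `K`, `p ∈ R` prime, `φ : R → R'` surjective with
kernel `(p)`, `W` a valuation ring of `K' = Frac R'`. Then `V = {a/b : p ∤ b, φ a / φ b ∈ W}` is a valuation ring of `K`.
(Every `q ≠ 0` of `K` is `p^n a/b` with `n ∈ ℤ`, `p ∤ a, b`: `Ideal.iInf_pow_eq_bot_of_isDomain` or `WfDvdMonoid`/`multiplicity` finite.) -/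
theorem exists_composite {R R' K' : Type} [CommRing R] [IsDomain R] [IsNoetherianRing R]
    [Algebra R K] [IsFractionRing R K] [CommRing R'] [IsDomain R'] [Field K'] [Algebra R' K']
    [IsFractionRing R' K'] {p : R} (hp : Prime p) (φ : R →+* R')
    (hφ : Function.Surjective φ) (hker : ∀ r, φ r = 0 ↔ p ∣ r) (W : ValuationSubring K') :
    ∃ V : ValuationSubring K,
      ∀ a b : R, ¬ p ∣ b → ((algebraMap R K a / algebraMap R K b ∈ V.toSubring ↔
          algebraMap R' K' (φ a) / algebraMap R' K' (φ b) ∈ W.toSubring) ∧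
        (NU V.toSubring (algebraMap R K a / algebraMap R K b) ↔
          NU W.toSubring (algebraMap R' K' (φ a) / algebraMap R' K' (φ b)))) := by
  have hmul : ∀ {b b' : R}, ¬ p ∣ b → ¬ p ∣ b' → ¬ p ∣ b * b' := by
    intro b b' h1 h2 h3
    exact (hp.dvd_or_dvd h3).elim h1 h2
  have hone : ¬ p ∣ (1 : R) := fun h => hp.not_unit (isUnit_of_dvd_one h)
  have hpq : φ p = 0 := (hker p).mpr dvd_rfl
  let V0 : Subring K :=
    { carrier := {q | ∃ a b : R, ¬ p ∣ b ∧ q = algebraMap R K a / algebraMap R K b ∧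
        algebraMap R' K' (φ a) / algebraMap R' K' (φ b) ∈ W.toSubring}
      mul_mem' := by
        rintro _ _ ⟨a, b, hb, rfl, h1⟩ ⟨a', b', hb', rfl, h1'⟩
        refine ⟨a * a', b * b', hmul hb hb', ?_, ?_⟩
        · rw [div_mul_div_comm, map_mul, map_mul]
        · have := W.toSubring.mul_mem h1 h1'
          rwa [div_mul_div_comm, ← map_mul, ← map_mul, ← map_mul, ← map_mul] at this
      one_mem' := ⟨1, 1, hone, by simp, by
        rw [map_one, map_one, div_one]; exact W.toSubring.one_mem⟩
      add_mem' := by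
        rintro _ _ ⟨a, b, hb, rfl, h1⟩ ⟨a', b', hb', rfl, h1'⟩
        refine ⟨a * b' + b * a', b * b', hmul hb hb', ?_, ?_⟩
        · rw [div_add_div _ _ (V1_ne' (K := K) hb) (V1_ne' (K := K) hb')]
          simp only [map_add, map_mul]
        · have := W.toSubring.add_mem h1 h1'
          rw [div_add_div _ _ (V1_ne φ hker hb) (V1_ne φ hker hb')] at this
          simpa only [map_add, map_mul] using this
      zero_mem' := ⟨0, 1, hone, by simp, by
        rw [map_zero, map_zero, zero_div]; exact W.toSubring.zero_mem⟩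
      neg_mem' := by
        rintro _ ⟨a, b, hb, rfl, h1⟩
        refine ⟨-a, b, hb, ?_, ?_⟩
        · rw [map_neg, neg_div]
        · rw [map_neg, map_neg, neg_div]; exact W.toSubring.neg_mem h1 }
  have hiff : ∀ a b : R, ¬ p ∣ b → (algebraMap R K a / algebraMap R K b ∈ V0 ↔
      algebraMap R' K' (φ a) / algebraMap R' K' (φ b) ∈ W.toSubring) := by
    intro a b hb
    constructor
    · rintro ⟨a', b', hb', h1, h2⟩
      rwa [V1_eq φ hker hb hb' h1]
    · intro h
      exact ⟨a, b, hb, rfl, h⟩
  have hnot : ∀ a b : R, ¬ p ∣ b → a ≠ 0 → p ∣ a →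
      (algebraMap R K b / algebraMap R K a) ∉ V0 := by
    rintro a b hb ha0 ha ⟨a', b', hb', h1, -⟩
    have h0 : algebraMap R K a ≠ 0 := by
      intro h
      exact ha0 ((map_eq_zero_iff _ (IsFractionRing.injective R K)).mp h)
    rw [div_eq_div_iff h0 (V1_ne' (K := K) hb'), ← map_mul, ← map_mul] at h1
    have h2 := IsFractionRing.injective R K h1
    exact hmul hb hb' (h2 ▸ (ha.mul_left a'))
  have hfac : ∀ a : R, a ≠ 0 → ∃ (n : ℕ) (c : R), ¬ p ∣ c ∧ a = p ^ n * c := by
    intro a ha
    exact WfDvdMonoid.max_power_factor ha hp.irreducible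
  let V : ValuationSubring K :=
    { V0 with
      mem_or_inv_mem' := by
        intro q
        by_cases hq : q = 0
        · left
          rw [hq]
          exact V0.zero_mem
        obtain ⟨a, b, hb0, rfl⟩ := IsFractionRing.div_surjective R q
        have hb0 : b ≠ 0 := nonZeroDivisors.ne_zero hb0
        have ha0 : a ≠ 0 := by
          rintro rfl
          rw [map_zero, zero_div] at hq
          exact hq rfl
        obtain ⟨m, a, ha, rfl⟩ := hfac a ha0
        obtain ⟨n, b, hb, rfl⟩ := hfac b hb0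
        have hp0 : algebraMap R K p ≠ 0 := by
          intro h
          exact hp.ne_zero ((map_eq_zero_iff _ (IsFractionRing.injective R K)).mp h)
        rcases lt_trichotomy m n with hmn | hmn | hmn
        · right
          obtain ⟨d, rfl⟩ := Nat.exists_eq_add_of_lt hmn
          refine ⟨p ^ (d + 1) * b, a, ha, ?_, ?_⟩
          · rw [inv_div]
            simp only [map_mul, map_pow]
            have h1 := V1_ne' (K := K) ha
            field_simp
            ring
          · rw [map_mul, map_pow, hpq, zero_pow (by omega), zero_mul, map_zero, zero_div]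
            exact W.toSubring.zero_mem
        · subst hmn
          have h1 := V1_ne' (K := K) ha
          have h2 := V1_ne' (K := K) hb
          have hpm : algebraMap R K (p ^ m) ≠ 0 := by
            rw [map_pow]; exact pow_ne_zero _ hp0
          rcases W.mem_or_inv_mem (algebraMap R' K' (φ a) / algebraMap R' K' (φ b)) with h | h
          · left
            refine ⟨a, b, hb, ?_, h⟩
            rw [map_mul, map_mul, mul_div_mul_left _ _ hpm]
          · right
            refine ⟨b, a, ha, ?_, ?_⟩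
            · rw [inv_div, map_mul, map_mul, mul_div_mul_left _ _ hpm]
            · rw [inv_div] at h
              exact h
        · left
          obtain ⟨d, rfl⟩ := Nat.exists_eq_add_of_lt hmn
          refine ⟨p ^ (d + 1) * a, b, hb, ?_, ?_⟩
          · simp only [map_mul, map_pow]
            have h1 := V1_ne' (K := K) hb
            field_simp
            ring
          · rw [map_mul, map_pow, hpq, zero_pow (by omega), zero_mul, map_zero, zero_div]
            exact W.toSubring.zero_mem }
  have hV : V.toSubring = V0 := rfl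
  refine ⟨V, ?_⟩
  intro a b hb
  rw [hV]
  refine ⟨hiff a b hb, ?_⟩
  unfold NU
  rw [hiff a b hb]
  refine and_congr_right (fun hmem => ?_)
  by_cases ha0 : a = 0
  · subst ha0
    simp
  have hane : algebraMap R K a ≠ 0 := by
    intro h
    exact ha0 ((map_eq_zero_iff _ (IsFractionRing.injective R K)).mp h)
  by_cases ha : p ∣ a
  · have h1 : φ a = 0 := (hker a).mpr ha
    rw [h1, map_zero, zero_div]
    constructor
    · intro _ h
      exact absurd rfl h
    · intro _ _
      rw [inv_div]
      exact hnot a b hb ha0 ha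
  · have h1 : algebraMap R K a / algebraMap R K b ≠ 0 :=
      div_ne_zero hane (V1_ne' (K := K) hb)
    have h2 : algebraMap R' K' (φ a) / algebraMap R' K' (φ b) ≠ 0 :=
      div_ne_zero (V1_ne φ hker ha) (V1_ne φ hker hb)
    rw [inv_div, inv_div, hiff b a ha]
    simp [h1, h2]


/-- ROW V2. A local domain `R ⊆ K` is dominated by a valuation ring of `K` (`LocalSubring.exists_le_valuationSubring` or similar). -/
theorem exists_dominating {R : Type} [CommRing R] [IsDomain R] [IsLocalRing R] [Algebra R K]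
    [FaithfulSMul R K] : ∃ W : ValuationSubring K, (∀ r : R, algebraMap R K r ∈ W.toSubring) ∧
      ∀ r : R, r ∈ IsLocalRing.maximalIdeal R → NU W.toSubring (algebraMap R K r) := by
  obtain ⟨W, hW, hloc⟩ := IsLocalRing.exists_factor_valuationRing (algebraMap R K)
  have hmem : ∀ r : R, algebraMap R K r ∈ W.toSubring := hW
  refine ⟨W, hmem, fun r hr => ⟨hmem r, fun h0 hinv => ?_⟩⟩
  have hu : IsUnit ((algebraMap R K).codRestrict W.toSubring hW r) := by
    refine IsUnit.of_mul_eq_one ⟨(algebraMap R K r)⁻¹, hinv⟩ (Subtype.ext ?_)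
    exact mul_inv_cancel₀ h0
  have hu' : IsUnit r := hloc.map_nonunit r hu
  exact (IsLocalRing.mem_maximalIdeal r).1 hr hu'


/-- ROW V3. The valuation ring of the flag `(0) ⊂ (t) ⊂ (t,x) ⊂ m`: apply V2 to `R/(t,x)`, V1 to `R/(t)` and the prime `x`
(its quotient is `R/(t,x)`), V1 to `R` and the prime `t`. -/
theorem exists_flag_valuation {R : Type} [CommRing R] [IsDomain R] [IsNoetherianRing R]
    [IsLocalRing R] [Algebra R K] [IsFractionRing R K] (t x : R) (ht : Prime t)
    (htx : (Ideal.span {t, x}).IsPrime) (hxt : ¬ t ∣ x)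
    (hle : Ideal.span {t, x} ≤ IsLocalRing.maximalIdeal R) :
    ∃ V : ValuationSubring K, (∀ r : R, algebraMap R K r ∈ V.toSubring) ∧
      (∀ r ∈ IsLocalRing.maximalIdeal R, NU V.toSubring (algebraMap R K r)) ∧
      (∀ f : R, ¬ t ∣ f → NU V.toSubring (algebraMap R K t / algebraMap R K f)) ∧
      (∀ f : R, f ∉ Ideal.span {t, x} →
        NU V.toSubring (algebraMap R K x / algebraMap R K f)) := by
  have h1p : (Ideal.span {t}).IsPrime := (Ideal.span_singleton_prime ht.ne_zero).2 ht
  have hle1 : Ideal.span {t} ≤ Ideal.span {t, x} := Ideal.span_mono (by simp)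
  have : IsDomain (R ⧸ Ideal.span {t}) := Ideal.Quotient.isDomain _
  have : IsDomain (R ⧸ Ideal.span {t, x}) := Ideal.Quotient.isDomain _
  have : IsLocalRing (R ⧸ Ideal.span {t, x}) :=
    IsLocalRing.of_surjective' (Ideal.Quotient.mk (Ideal.span {t, x})) Ideal.Quotient.mk_surjective
  -- the maps
  let φ1 : R →+* R ⧸ Ideal.span {t} := Ideal.Quotient.mk _
  let φ2 : R ⧸ Ideal.span {t} →+* R ⧸ Ideal.span {t, x} := Ideal.Quotient.factor hle1
  have hφ1 : Function.Surjective φ1 := Ideal.Quotient.mk_surjective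
  have hφ2c : ∀ r : R, φ2 (φ1 r) = Ideal.Quotient.mk (Ideal.span {t, x}) r := fun r => rfl
  have hφ2 : Function.Surjective φ2 := by
    intro y
    obtain ⟨r, rfl⟩ := Ideal.Quotient.mk_surjective y
    exact ⟨φ1 r, rfl⟩
  have hker1 : ∀ r, φ1 r = 0 ↔ t ∣ r := by
    intro r
    rw [← Ideal.mem_span_singleton]
    exact Ideal.Quotient.eq_zero_iff_mem
  have hmem : ∀ r : R, r ∈ Ideal.span {t, x} ↔ φ1 x ∣ φ1 r := by
    intro r
    rw [Ideal.mem_span_pair]
    constructor
    · rintro ⟨a, b, h⟩
      refine ⟨φ1 b, ?_⟩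
      rw [← h, map_add, map_mul, map_mul, (hker1 t).2 (dvd_refl t)]
      ring
    · rintro ⟨c, hc⟩
      obtain ⟨b, rfl⟩ := hφ1 c
      have : φ1 (r - x * b) = 0 := by rw [map_sub, map_mul, hc, sub_self]
      obtain ⟨a, ha⟩ := (hker1 _).1 this
      exact ⟨a, b, by linear_combination -ha⟩
  have hker2 : ∀ r, φ2 r = 0 ↔ φ1 x ∣ r := by
    intro r
    obtain ⟨r, rfl⟩ := hφ1 r
    rw [hφ2c, ← hmem]
    exact Ideal.Quotient.eq_zero_iff_mem
  have hx0 : φ1 x ≠ 0 := fun h => hxt ((hker1 x).1 h)
  have hxp : Prime (φ1 x) := by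
    refine ⟨hx0, ?_, ?_⟩
    · intro hu
      obtain ⟨c, hc⟩ := hu.exists_right_inv
      have : φ1 x ∣ φ1 1 := ⟨c, by rw [map_one, hc]⟩
      exact htx.ne_top ((Ideal.eq_top_iff_one _).2 ((hmem 1).2 this))
    · intro a b hab
      obtain ⟨a, rfl⟩ := hφ1 a
      obtain ⟨b, rfl⟩ := hφ1 b
      rw [← map_mul, ← hmem] at hab
      rcases htx.mem_or_mem hab with h | h
      · exact Or.inl ((hmem a).1 h)
      · exact Or.inr ((hmem b).1 h)
  obtain ⟨W2, hW2, hW2m⟩ := exists_dominating (K := FractionRing (R ⧸ Ideal.span {t, x}))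
    (R := R ⧸ Ideal.span {t, x})
  obtain ⟨W1, hW1⟩ := exists_composite (K := FractionRing (R ⧸ Ideal.span {t}))
    (K' := FractionRing (R ⧸ Ideal.span {t, x})) hxp φ2 hφ2 hker2 W2
  obtain ⟨V, hV⟩ := exists_composite (K := K) (K' := FractionRing (R ⧸ Ideal.span {t})) ht φ1 hφ1
    hker1 W1
  have ht1 : ¬ t ∣ 1 := fun h => ht.not_isUnit (isUnit_of_dvd_one h)
  have hx1 : ¬ φ1 x ∣ 1 := fun h => hxp.not_isUnit (isUnit_of_dvd_one h)
  have hNU0 : ∀ {L : Type} [Field L] (W : ValuationSubring L), NU W.toSubring (0 : L) := by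
    intro L _ W
    refine ⟨W.toSubring.zero_mem, ?_⟩
    simp
  refine ⟨V, ?_, ?_, ?_, ?_⟩
  · intro r
    have h := (hV r 1 ht1).1
    rw [map_one, div_one] at h
    rw [h, map_one, map_one, div_one]
    have h' := (hW1 (φ1 r) 1 hx1).1
    rw [map_one, div_one] at h'
    rw [h', map_one, map_one, div_one]
    exact hW2 _
  · intro r hr
    have h := (hV r 1 ht1).2
    rw [map_one, div_one] at h
    rw [h, map_one, map_one, div_one]
    have h' := (hW1 (φ1 r) 1 hx1).2
    rw [map_one, div_one] at h'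
    rw [h', map_one, map_one, div_one]
    refine hW2m _ ?_
    rw [IsLocalRing.mem_maximalIdeal, mem_nonunits_iff] at hr ⊢
    intro hu
    rw [hφ2c] at hu
    obtain ⟨c, hc⟩ := hu.exists_right_inv
    obtain ⟨s, rfl⟩ := Ideal.Quotient.mk_surjective c
    rw [← map_mul, ← map_one (Ideal.Quotient.mk (Ideal.span {t, x})), Ideal.Quotient.eq] at hc
    have h1 := hle hc
    rw [IsLocalRing.mem_maximalIdeal, mem_nonunits_iff] at h1
    have h2 : IsUnit (1 - r * s) := by
      have h3 : ¬ IsUnit (r * s) := fun h => hr (isUnit_of_mul_isUnit_left h)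
      rcases IsLocalRing.isUnit_or_isUnit_one_sub_self (r * s) with h | h
      · exact absurd h h3
      · exact h
    exact h1 (by rw [← neg_sub]; exact h2.neg)
  · intro f hf
    rw [(hV t f hf).2, (hker1 t).2 (dvd_refl t), map_zero, zero_div]
    exact hNU0 W1
  · intro f hf
    have hf1 : ¬ t ∣ f := fun h => hf (hle1 (Ideal.mem_span_singleton.2 h))
    have hf2 : ¬ φ1 x ∣ φ1 f := fun h => hf ((hmem f).2 h)
    rw [(hV x f hf1).2, (hW1 (φ1 x) (φ1 f) hf2).2, (hker2 (φ1 x)).2 (dvd_refl _), map_zero, zero_div]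
    exact hNU0 W2


end Pool.Agent.Lib.MP_55c1e7_ag.D
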