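import Pool.Agent.Lib.MP_55c1e7_ag.D.F1
import Pool.Agent.Lib.MP_55c1e7_ag.D.U1
import Pool.Agent.Lib.MP_55c1e7_ag.D.V1
import Pool.Agent.Lib.MP_55c1e7_ag.D.ConnS

set_option autoImplicit false

namespace Pool.Agent.Lib.MP_55c1e7_ag.D

open Polynomial

variable {K : Type} [Field K]

/-- ROW C0. `w` is integral over `B`, `B` is integrally closed (a UFD). -/
theorem w_mem {B : Subring K} [UniqueFactorizationMonoid B] (hfrac : ∀ q : K, ∃ a b : K,
    a ∈ B ∧ b ∈ B ∧ b ≠ 0 ∧ q = a / b) (x w : K) (hx : x ∈ B) (hxw : w ^ 2 = x ^ 4 + 1) :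
    w ∈ B := by
  have hfr : IsFractionRing B K := by
    refine IsFractionRing.of_field B K (fun z => ?_)
    obtain ⟨a, b, ha, hb, _, h⟩ := hfrac z
    exact ⟨⟨a, ha⟩, ⟨b, hb⟩, h⟩
  have hint : IsIntegral B w := by
    refine IsIntegral.of_pow (n := 2) (by norm_num) ?_
    rw [hxw]
    have h1 : (x ^ 4 + 1 : K) = algebraMap B K (⟨x, hx⟩ ^ 4 + 1) := by
      rw [map_add, map_pow, map_one]; rfl
    rw [h1]
    exact isIntegral_algebraMap
  obtain ⟨y, hy⟩ := (IsIntegrallyClosed.isIntegral_iff (R := B) (K := K)).mp hint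
  rw [← hy]
  exact y.2


section
variable {O k R : Type} [CommRing O] [IsDomain O] [IsDiscreteValuationRing O] [Field k]
  [Algebra O k] [IsFractionRing O k] [CommRing R] [IsRegularLocalRing R] [IsDomain R]
  [UniqueFactorizationMonoid R] [Algebra O R] [Algebra R K] [IsFractionRing R K] [Algebra O K]
  [IsScalarTower O R K] [Algebra k K] [IsScalarTower O k K]
  {t : O} {x y z w1 w2 w3 : R}

/-- ROW C1. (the gcd argument on the model) `D` a DVR which is a local ring of the model `H`, `R ⊆ D`, `H_j/H_i ∈ D` for all `j`, `H_i` a non-unit of `D`.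
Then `D` is one of the three exceptional ones. By `hLR` `D` is a local ring of `Y`; `F1`; if `D` is a localization of `R` then some `H_j` is a unit
of `D` (`exists_unit_of_coprime`), `H_j = H_i (H_j/H_i)` makes `H_i` a unit. -/
theorem exceptional (hpar : ParFacts (algebraMap O R t) x y z) {N : ℕ} {H : Fin N → R}
    (hH : ∀ p : R, Prime p → ∃ j, ¬ p ∣ H j)
    (hLR : ∀ B : Subring K, IsLR k (fun j => algebraMap R K (H j)) B ↔
      IsLR k (hYR K (algebraMap O R t) x y z w1 w2 w3) B)
    {D : Subring K} (hD : DVR D) (hDLR : IsLR k (fun j => algebraMap R K (H j)) D)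
    (hR : ∀ r : R, algebraMap R K r ∈ D) {i : Fin N} (hi : H i ≠ 0)
    (hij : ∀ j, algebraMap R K (H j) / algebraMap R K (H i) ∈ D)
    (hnu : NU D (algebraMap R K (H i))) :
    IsE x z D ∨ IsE z y D ∨ IsE (x - algebraMap O R t) y D := by
  rcases F1 hpar hD ((hLR D).1 hDLR) hR with h | h
  · exfalso
    obtain ⟨j, hj⟩ := exists_unit_of_coprime H hH ⟨i, hi⟩ hD h
    have hi0 : algebraMap R K (H i) ≠ 0 := by
      rw [Ne, map_eq_zero_iff _ (IsFractionRing.injective R K)]
      exact hi
    have he : algebraMap R K (H j) =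
        algebraMap R K (H i) * (algebraMap R K (H j) / algebraMap R K (H i)) := by
      rw [mul_div_cancel₀ _ hi0]
    rw [he] at hj
    exact not_un_of_nu hnu (Un.of_mul (hR _) (hij j) hj).1
  · exact h


private theorem C2_denom (ht : Irreducible t) {N : ℕ} {H : Fin N → R} {i : Fin N}
    (hi : algebraMap R K (H i) ≠ 0) (u : K)
    (hu : u ∈ Algebra.adjoin k (Set.range fun j => algebraMap R K (H j) / algebraMap R K (H i))) :
    ∃ (r : R) (m l : ℕ), u * algebraMap R K (algebraMap O R t ^ m * H i ^ l) =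
      algebraMap R K r := by
  have htR : algebraMap R K (algebraMap O R t) = algebraMap O K t :=
    (IsScalarTower.algebraMap_apply O R K t).symm
  induction hu using Algebra.adjoin_induction with
  | mem u hu =>
    obtain ⟨j, rfl⟩ := hu
    refine ⟨H j, 0, 1, ?_⟩
    simp only [pow_zero, one_mul, pow_one]
    field_simp
  | algebraMap c =>
    obtain ⟨o, s, hs, rfl⟩ := IsFractionRing.div_surjective (A := O) c
    have hs0 : s ≠ 0 := nonZeroDivisors.ne_zero hs
    obtain ⟨n, v, hv⟩ := IsDiscreteValuationRing.eq_unit_mul_pow_irreducible hs0 ht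
    have hsk : algebraMap O k s ≠ 0 := by
      intro h
      exact hs0 ((IsFractionRing.injective O k) (by rw [h, map_zero]))
    refine ⟨algebraMap O R (o * ((v⁻¹ : Oˣ) : O)), n, 0, ?_⟩
    have h1 : (algebraMap O R t ^ n : R) = algebraMap O R (s * ((v⁻¹ : Oˣ) : O)) := by
      rw [hv]
      rw [← map_pow]
      congr 1
      rw [mul_comm (v : O), mul_assoc, Units.mul_inv, mul_one]
    rw [h1, pow_zero, mul_one, ← IsScalarTower.algebraMap_apply O R K,
      ← IsScalarTower.algebraMap_apply O R K, IsScalarTower.algebraMap_apply O k K,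
      IsScalarTower.algebraMap_apply O k K, ← map_mul]
    congr 1
    rw [map_mul, map_mul]
    field_simp
  | add a b _ _ ha hb =>
    obtain ⟨r1, m1, l1, h1⟩ := ha
    obtain ⟨r2, m2, l2, h2⟩ := hb
    refine ⟨r1 * (algebraMap O R t ^ m2 * H i ^ l2) + r2 * (algebraMap O R t ^ m1 * H i ^ l1),
      m1 + m2, l1 + l2, ?_⟩
    simp only [map_mul, map_add, map_pow] at h1 h2 ⊢
    rw [← h1, ← h2]
    ring
  | mul a b _ _ ha hb =>
    obtain ⟨r1, m1, l1, h1⟩ := ha
    obtain ⟨r2, m2, l2, h2⟩ := hb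
    refine ⟨r1 * r2, m1 + m2, l1 + l2, ?_⟩
    simp only [map_mul, map_pow] at h1 h2 ⊢
    rw [← h1, ← h2]
    ring

/-- ROW C2. (positivity) `E = E(a,b)` a local ring of the model; then no `H_j` is a unit of `E`. Proof: `IsLR` gives `i` with all `H_j/H_i ∈ E`, so
`H_i` is a unit of `E`, `H_i ∉ (a,b)`. `a/b ∈ E` is `p/q` with `p, q ∈ k[H_j/H_i]`, `q` unit of `E`; every element of `k[H_j/H_i]` is `r/(t^m H_i^l)`
with `r ∈ R` (adjoin induction). So `a/b = r/r'`, `r' ∉ (a,b)` (`q` unit; `IsEE.nu_algebraMap_iff`), `a r' = b r`, `b ∣ r'`. Contradiction. -/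
theorem no_unit_of_isE {N : ℕ} {H : Fin N → R} {a b : R}
    (hb : Prime b) (hba : ¬ b ∣ a) (hP : (Ideal.span {a, b}).IsPrime)
    (hT : algebraMap O R t ∉ Ideal.span {a, b}) (ht : Irreducible t) {E : Subring K}
    (hE : IsE a b E) (hLR : IsLR k (fun j => algebraMap R K (H j)) E) (j : Fin N) :
    ¬ Un E (algebraMap R K (H j)) := by
  intro hj
  have hinj : Function.Injective (algebraMap R K) := IsFractionRing.injective R K
  obtain ⟨hloc, i, hi, hij, hloc2⟩ := hLR
  have hi' : algebraMap R K (H i) ≠ 0 := hi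
  have hE' : IsEE (Ideal.span {a, b}) (algebraMap R K a / algebraMap R K b) E := hE
  have haq : a ∈ Ideal.span {a, b} := Ideal.subset_span (by simp)
  have hbq : b ∈ Ideal.span {a, b} := Ideal.subset_span (by simp)
  have hnu : ∀ r : R, NU E (algebraMap R K r) ↔ r ∈ Ideal.span {a, b} := fun r =>
    IsEE.nu_algebraMap_iff hb hba haq hbq hE' r
  have hmem : ∀ r : R, algebraMap R K r ∈ E := fun r => IsEE.algebraMap_mem hE' r
  have hun : ∀ r : R, Un E (algebraMap R K r) → r ∉ Ideal.span {a, b} := by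
    intro r hr hr2
    exact not_un_of_nu ((hnu r).2 hr2) hr
  have hun' : ∀ r : R, r ∉ Ideal.span {a, b} → Un E (algebraMap R K r) := by
    intro r hr
    rcases (mem_iff_un_or_nu E _).1 (hmem r) with h | h
    · exact h
    · exact absurd ((hnu r).1 h) hr
  have hiU : Un E (algebraMap R K (H i)) := by
    have h1 : algebraMap R K (H j) = algebraMap R K (H i) *
        (algebraMap R K (H j) / algebraMap R K (H i)) := by field_simp
    rw [h1] at hj
    exact (Un.of_mul (hmem _) (hij j) hj).1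
  have hiq := hun _ hiU
  obtain ⟨p, s, hs, hps⟩ := hloc2.2 _ (IsEE.c_mem hE')
  obtain ⟨r1, m1, l1, h1⟩ := C2_denom (k := k) ht hi' (p : K) p.2
  obtain ⟨r2, m2, l2, h2⟩ := C2_denom (k := k) ht hi' (s : K) s.2
  have hs' : Un E (s : K) := hs
  have hps' : algebraMap R K a / algebraMap R K b * (s : K) = (p : K) := hps
  have hd : ∀ m l : ℕ, algebraMap O R t ^ m * H i ^ l ∉ Ideal.span {a, b} := by
    intro m l h
    rcases hP.mem_or_mem h with h | h
    · exact hT (hP.mem_of_pow_mem _ h)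
    · exact hiq (hP.mem_of_pow_mem _ h)
  have hr2 : r2 ∉ Ideal.span {a, b} := by
    apply hun
    rw [← h2]
    exact hs'.mul (hun' _ (hd m2 l2))
  have hb0 : algebraMap R K b ≠ 0 := by
    intro h
    exact hb.ne_zero (hinj (by rw [h, map_zero]))
  have key : a * (r2 * (algebraMap O R t ^ m1 * H i ^ l1)) =
      b * (r1 * (algebraMap O R t ^ m2 * H i ^ l2)) := by
    apply hinj
    simp only [map_mul, map_pow] at h1 h2 ⊢
    rw [← h1, ← h2, ← hps']
    field_simp
  have hdvd : b ∣ r2 * (algebraMap O R t ^ m1 * H i ^ l1) := by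
    rcases hb.dvd_or_dvd (Dvd.intro _ key.symm) with h | h
    · exact absurd h hba
    · exact h
  have hcon : r2 * (algebraMap O R t ^ m1 * H i ^ l1) ∈ Ideal.span {a, b} :=
    Ideal.mem_of_dvd _ hdvd hbq
  rcases hP.mem_or_mem hcon with h | h
  · exact hr2 h
  · exact hd m1 l1 h


theorem C3_prime {S : Type} [CommRing S] {P : Ideal S} (hP : P.IsPrime) (f g : S[X])
    (h : ∀ i, (f * g).coeff i ∈ P) : (∀ i, f.coeff i ∈ P) ∨ (∀ i, g.coeff i ∈ P) := by
  have := hP
  have hP' : (Ideal.map (C : S →+* S[X]) P).IsPrime := Ideal.isPrime_map_C_of_isPrime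
  have hm : f * g ∈ Ideal.map (C : S →+* S[X]) P := Ideal.mem_map_C_iff.2 h
  rcases hP'.mem_or_mem hm with h1 | h1
  · exact Or.inl (Ideal.mem_map_C_iff.1 h1)
  · exact Or.inr (Ideal.mem_map_C_iff.1 h1)

/-- division by `b` of an element `w = f(c)/g(c)` -/
theorem C3_div {S : Type} [CommRing S] [IsDomain S] [Algebra S K] [FaithfulSMul S K] {a b : S}
    (hb : Prime b) (hba : ¬ b ∣ a) (hP : (Ideal.span {a, b}).IsPrime) {w u : K} (f g f' g' : S[X])
    (hw : w * aeval (algebraMap S K a / algebraMap S K b) g =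
      aeval (algebraMap S K a / algebraMap S K b) f)
    (hu : u * aeval (algebraMap S K a / algebraMap S K b) g' =
      aeval (algebraMap S K a / algebraMap S K b) f')
    (hwu : w = algebraMap S K b * u) (hg' : ¬ ∀ i, g'.coeff i ∈ Ideal.span {a, b}) :
    ∃ h : S[X], u * aeval (algebraMap S K a / algebraMap S K b) g =
      aeval (algebraMap S K a / algebraMap S K b) h := by
  have hb0 : algebraMap S K b ≠ 0 := by
    intro h0
    apply hb.ne_zero
    exact (FaithfulSMul.algebraMap_injective S K) (by rw [h0, map_zero])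
  have h1 : aeval (algebraMap S K a / algebraMap S K b) (f * g') =
      algebraMap S K b * aeval (algebraMap S K a / algebraMap S K b) (f' * g) := by
    rw [map_mul, map_mul, ← hw, ← hu, hwu]
    ring
  have h2 := coeff_mem_of_aeval_eq hb hba (f * g') (f' * g) h1
  rcases C3_prime hP f g' h2 with h3 | h3
  · obtain ⟨h, hh⟩ := aeval_eq_of_coeff_mem (K := K) hb.ne_zero f h3
    refine ⟨h, ?_⟩
    rw [← hw, hwu] at hh
    apply mul_left_cancel₀ hb0
    rw [← mul_assoc]
    exact hh
  · exact absurd h3 hg'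

/-- ROW C3. `z` is prime in `B_F`, `z ∤ y`, and `E(x,z)` is the localization of `B_F` at `z`. (`IsEE.isLoc`, `prime_adjoin`: `z` is prime in `R[x/z]`,
localize.) -/
theorem BF_facts (hpar : ParFacts (algebraMap O R t) x y z) {B E : Subring K}
    (hB : IsEE (Ideal.span {x, y, z}) (algebraMap R K x / algebraMap R K z) B)
    (hE : IsE x z E) :
    (∀ a b : K, a ∈ B → b ∈ B → a * b / algebraMap R K z ∈ B →
      a / algebraMap R K z ∈ B ∨ b / algebraMap R K z ∈ B) ∧
    algebraMap R K y / algebraMap R K z ∉ B ∧ B ≤ E ∧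
    (∀ (n : ℕ) (f : K), f ∈ B → f / algebraMap R K z ^ n ∈ E →
      f / algebraMap R K z ^ n ∈ B) ∧
    NU B (algebraMap R K x) ∧ NU B (algebraMap R K y) ∧ NU B (algebraMap R K z) := by
  have hz : Prime z := hpar.pz
  have hzx : ¬ z ∣ x := hpar.x_nz
  have hP : (Ideal.span {x, z}).IsPrime := hpar.xz
  have hq : (Ideal.span {x, y, z}).IsPrime := hpar.xyz
  have hz0 : algebraMap R K z ≠ 0 := by
    intro h0
    apply hz.ne_zero
    exact (FaithfulSMul.algebraMap_injective R K) (by rw [h0, map_zero])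
  have hxq : x ∈ Ideal.span {x, y, z} := Ideal.subset_span (by simp)
  have hyq : y ∈ Ideal.span {x, y, z} := Ideal.subset_span (by simp)
  have hzq : z ∈ Ideal.span {x, y, z} := Ideal.subset_span (by simp)
  have hPq : Ideal.span {x, z} ≤ Ideal.span {x, y, z} := by
    rw [Ideal.span_le]
    intro r hr
    rcases hr with rfl | hr
    · exact hxq
    · rw [Set.mem_singleton_iff] at hr
      rw [hr]
      exact hzq
  have hnq : ∀ g : R[X], (∃ i, g.coeff i ∉ Ideal.span {x, y, z}) →
      ¬ ∀ i, g.coeff i ∈ Ideal.span {x, z} := by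
    rintro g ⟨i, hi⟩ h
    exact hi (hPq (h i))
  have hBE : B ≤ E := by
    intro u hu
    obtain ⟨f, g, ⟨i, hi⟩, h⟩ := (hB u).1 hu
    exact (hE u).2 ⟨f, g, ⟨i, fun h' => hi (hPq h')⟩, h⟩
  refine ⟨?_, ?_, hBE, ?_, ?_, ?_, ?_⟩
  · intro a b ha hb hab
    obtain ⟨f1, g1, hg1, h1⟩ := (hB a).1 ha
    obtain ⟨f2, g2, hg2, h2⟩ := (hB b).1 hb
    obtain ⟨f3, g3, hg3, h3⟩ := (hB _).1 hab
    have h4 : aeval (algebraMap R K x / algebraMap R K z) (f1 * f2 * g3) =
        algebraMap R K z * aeval (algebraMap R K x / algebraMap R K z) (f3 * g1 * g2) := by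
      rw [map_mul, map_mul, map_mul, map_mul, ← h1, ← h2, ← h3]
      field_simp
    have h5 := coeff_mem_of_aeval_eq hz hzx _ _ h4
    rcases C3_prime hP _ _ h5 with h6 | h6
    · rcases C3_prime hP _ _ h6 with h7 | h7
      · left
        obtain ⟨h, hh⟩ := aeval_eq_of_coeff_mem (K := K) hz.ne_zero f1 h7
        refine (hB _).2 ⟨h, g1, hg1, ?_⟩
        rw [div_mul_eq_mul_div, h1, hh, mul_div_cancel_left₀ _ hz0]
      · right
        obtain ⟨h, hh⟩ := aeval_eq_of_coeff_mem (K := K) hz.ne_zero f2 h7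
        refine (hB _).2 ⟨h, g2, hg2, ?_⟩
        rw [div_mul_eq_mul_div, h2, hh, mul_div_cancel_left₀ _ hz0]
    · exact absurd h6 (hnq g3 hg3)
  · intro hy
    obtain ⟨f, g, hg, h⟩ := (hB _).1 hy
    have h1 : aeval (algebraMap R K x / algebraMap R K z) (C y * g) =
        algebraMap R K z * aeval (algebraMap R K x / algebraMap R K z) f := by
      rw [map_mul, aeval_C, ← h]
      field_simp
    have h2 := coeff_mem_of_aeval_eq hz hzx _ _ h1
    apply hnq g hg
    intro i
    have h3 := h2 i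
    rw [coeff_C_mul] at h3
    rcases hP.mem_or_mem h3 with h4 | h4
    · exact absurd h4 hpar.y_nxz
    · exact h4
  · intro n
    induction n with
    | zero =>
      intro f hf _
      simpa using hf
    | succ n ih =>
      intro f hf hfE
      have hzE : algebraMap R K z ∈ E := hBE (IsEE.algebraMap_mem hB z)
      have h1 : f / algebraMap R K z ^ n = algebraMap R K z * (f / algebraMap R K z ^ (n + 1)) := by
        rw [pow_succ]
        field_simp
      have h2 : f / algebraMap R K z ^ n ∈ B := by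
        apply ih f hf
        rw [h1]
        exact E.mul_mem hzE hfE
      obtain ⟨F, g, hg, h3⟩ := (hB _).1 h2
      obtain ⟨F', g', ⟨i, hi⟩, h4⟩ := (hE _).1 hfE
      obtain ⟨h, hh⟩ := C3_div hz hzx hP F g F' g' h3 h4 h1 (fun h' => hi (h' i))
      exact (hB _).2 ⟨h, g, hg, hh⟩
  · exact (IsEE.nu_algebraMap_iff hz hzx hxq hzq hB x).2 hxq
  · exact (IsEE.nu_algebraMap_iff hz hzx hxq hzq hB y).2 hyq
  · exact (IsEE.nu_algebraMap_iff hz hzx hxq hzq hB z).2 hzq


/-- `K` is the fraction field of every subring which contains `R`. -/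
private theorem C4_isFrac {R : Type} [CommRing R] [IsDomain R] [Algebra R K] [IsFractionRing R K]
    {B : Subring K} (hRB : ∀ r : R, algebraMap R K r ∈ B) : IsFractionRing B K := by
  refine IsFractionRing.of_field B K fun z => ?_
  obtain ⟨a, b, hb, rfl⟩ := IsFractionRing.div_surjective R z
  exact ⟨⟨_, hRB a⟩, ⟨_, hRB b⟩, rfl⟩

private theorem C4_dvd {B : Subring K} {y z : K} (hz0 : z ≠ 0)
    (hp : ∀ a b : K, a ∈ B → b ∈ B → a * b / z ∈ B → a / z ∈ B ∨ b / z ∈ B)
    (hyB : y ∈ B) (hzB : z ∈ B) (hyz : y / z ∉ B) (n : ℕ) :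
    ∀ b : K, b ∈ B → y * b / z ^ n ∈ B → b / z ^ n ∈ B := by
  induction n with
  | zero => intro b hb _; simpa using hb
  | succ n ih =>
    intro b hb h
    have h1 : y * b / z ∈ B := by
      have h2 : y * b / z = (y * b / z ^ (n + 1)) * z ^ n := by
        field_simp
        ring
      rw [h2]
      exact B.mul_mem h (B.pow_mem hzB n)
    have h3 : b / z ∈ B := (hp y b hyB hb h1).resolve_left hyz
    have h4 : y * (b / z) / z ^ n ∈ B := by
      have h5 : y * (b / z) / z ^ n = y * b / z ^ (n + 1) := by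
        field_simp
        ring
      rw [h5]; exact h
    have h6 := ih (b / z) h3 h4
    have h7 : b / z ^ (n + 1) = b / z / z ^ n := by
      field_simp
      ring
    rw [h7]; exact h6

/-- ROW C4. `a_1 ≤ a_2`. Notation: `n2`, `n1` the exponents of the family `H` at `E2 = E(x,z)`, `E1 = E(z,y)`. `B = B_F` is a local ring of the model:
there is `i` with `H_j/H_i ∈ B`. (1) `H_i/z^n2` is a unit of `E2` (some `H_j/z^n2` is, `H_j = H_i (H_j/H_i)`), so `g := H_i/z^n2 ∈ B` (C3). (2) `g` is a unit of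
`B`: otherwise (`B` is a UFD) a prime `p` of `B` divides `g`, `D = B_(p)` (U1) is a DVR, a local ring of the model (`IsLR.trans`), `H_i` is a
non-unit of `D`, so by C1 `D` is `E(x,z)`, `E(z,y)` or `E(x',y)`. In the first case `z` is a non-unit of `D`, so `p ∣ z`, `p ~ z`, `z ∣ g` in `B`, `g` would be a non-unit
of `E2`. In the second case `z, y` are non-units of `D`, so `p ∣ z`, `p ∣ y`, `z ∣ y`: no (C3). Third case: `x' = x - t` is a unit of `B` (`x ∈ m_B`,
`t` unit, `B` local), but a non-unit of `D`. (3) `H_i ∈ (z,y)^n1` (`IsE.mem_pow`), so `H_i = z^n1 α + y β` (`mem_pow_pair`, `Set.pair_comm`). If `n1 > n2`: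
`z^n2 (g - z^(n1-n2) α) = y β`, so `z^n2 ∣ β` in `B` (C3, induction) and `g ∈ m_B`. Contradiction. -/
theorem exponent_le (ht : Irreducible t) (hpar : ParFacts (algebraMap O R t) x y z) {N : ℕ}
    {H : Fin N → R}
    (hH : ∀ p : R, Prime p → ∃ j, ¬ p ∣ H j)
    (hLR : ∀ B : Subring K, IsLR k (fun j => algebraMap R K (H j)) B ↔
      IsLR k (hYR K (algebraMap O R t) x y z w1 w2 w3) B)
    {B : Subring K} (hBu : UniqueFactorizationMonoid B)
    (hB : IsEE (Ideal.span {x, y, z}) (algebraMap R K x / algebraMap R K z) B)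
    (hBLR : IsLR k (fun j => algebraMap R K (H j)) B)
    {E1 E2 : Subring K} (hE1 : IsE z y E1) (hE2 : IsE x z E2) {n1 n2 : ℕ}
    (h1 : ∀ j, algebraMap R K (H j) / algebraMap R K y ^ n1 ∈ E1)
    (h2 : ∀ j, algebraMap R K (H j) / algebraMap R K z ^ n2 ∈ E2)
    (h2' : ∃ j, Un E2 (algebraMap R K (H j) / algebraMap R K z ^ n2)) : n1 ≤ n2 := by
  classical
  have hzR : z ≠ 0 := hpar.pz.ne_zero
  have hinj : Function.Injective (algebraMap R K) := IsFractionRing.injective R K
  have hz0 : algebraMap R K z ≠ 0 := by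
    intro h; exact hzR (hinj (by rw [h, map_zero]))
  have hxyzP : (Ideal.span {x, y, z}).IsPrime := hpar.xyz
  have hxq : x ∈ Ideal.span {x, y, z} := Ideal.subset_span (by simp)
  have hzq : z ∈ Ideal.span {x, y, z} := Ideal.subset_span (by simp)
  obtain ⟨hp, hyz, hBE, hdesc, hxN, hyN, hzN⟩ := BF_facts hpar hB hE2
  have hRB : ∀ r : R, algebraMap R K r ∈ B := fun r => hB.algebraMap_mem r
  obtain ⟨hBloc, i, hi0, hij, hlocB⟩ := id hBLR
  have hiR : H i ≠ 0 := by
    intro h; apply hi0; simp only [h, map_zero]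
  -- (1)
  have hgB : algebraMap R K (H i) / algebraMap R K z ^ n2 ∈ B := hdesc n2 _ (hRB _) (h2 i)
  have hgE : Un E2 (algebraMap R K (H i) / algebraMap R K z ^ n2) := by
    obtain ⟨j, hj⟩ := h2'
    have h3 : algebraMap R K (H j) / algebraMap R K z ^ n2 =
        (algebraMap R K (H i) / algebraMap R K z ^ n2) *
          (algebraMap R K (H j) / algebraMap R K (H i)) := by
      field_simp
    rw [h3] at hj
    exact (Un.of_mul (h2 i) (hBE (hij j)) hj).1
  have hg0 : algebraMap R K (H i) / algebraMap R K z ^ n2 ≠ 0 := hgE.1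
  -- (2)
  have hgU : Un B (algebraMap R K (H i) / algebraMap R K z ^ n2) := by
    rcases (mem_iff_un_or_nu B _).1 hgB with h | hgN
    · exact h
    exfalso
    have := hBu
    have : IsFractionRing B K := C4_isFrac hRB
    have hnu : ¬ IsUnit (⟨_, hgB⟩ : B) := by
      rw [isUnit_iff_un]; exact not_un_of_nu hgN
    have hne : (⟨_, hgB⟩ : B) ≠ 0 := by
      intro h; exact hg0 (congrArg Subtype.val h)
    obtain ⟨p, hpirr, hpg⟩ := WfDvdMonoid.exists_irreducible_factor hnu hne
    have hpp : Prime p := UniqueFactorizationMonoid.irreducible_iff_prime.1 hpirr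
    obtain ⟨D, hD, hBD, hpD, hDU⟩ := exists_dvr_of_prime (K := K) hpp
    have hleD : ∀ b : K, b ∈ B → b ∈ D := fun b hb => hBD.1 ⟨b, hb⟩
    have hDLR := hBLR.trans hD.loc hBD
    have hgD : NU D (algebraMap R K (H i) / algebraMap R K z ^ n2) := by
      obtain ⟨c, hc⟩ := hpg
      have h5 : algebraMap R K (H i) / algebraMap R K z ^ n2 = (p : K) * (c : K) :=
        congrArg Subtype.val hc
      rw [h5]
      exact NU.mul hpD (hleD _ c.2)
    have hHD : NU D (algebraMap R K (H i)) := by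
      have h6 : algebraMap R K (H i) =
          (algebraMap R K (H i) / algebraMap R K z ^ n2) * algebraMap R K z ^ n2 := by
        field_simp
      rw [h6]
      exact NU.mul hgD (D.pow_mem (hleD _ (hRB z)) n2)
    have hDp : ∀ b : K, ∀ hb : b ∈ B, NU D b → p ∣ (⟨b, hb⟩ : B) := by
      intro b hb hbN
      by_contra hcon
      exact not_un_of_nu hbN (hDU _ hcon)
    rcases exceptional hpar hH hLR hD hDLR (fun r => hleD _ (hRB r)) hiR
      (fun j => hleD _ (hij j)) hHD with hC | hC | hC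
    · -- `D = E(x,z)`
      have : algebraMap R K z ^ n2 / algebraMap R K (H i) ∈ D := by
        have h7 := hgE.2.2
        rw [hE2] at h7
        rw [hC]
        rwa [inv_div] at h7
      apply hgD.2 hg0
      rwa [inv_div]
    · -- `D = E(z,y)`
      have := hpar.zy
      have hzD : NU D (algebraMap R K z) :=
        (IsEE.nu_algebraMap_iff hpar.py hpar.z_ny (Ideal.subset_span (by simp))
          (Ideal.subset_span (by simp)) hC z).2 (Ideal.subset_span (by simp))
      have hyD : NU D (algebraMap R K y) :=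
        (IsEE.nu_algebraMap_iff hpar.py hpar.z_ny (Ideal.subset_span (by simp))
          (Ideal.subset_span (by simp)) hC y).2 (Ideal.subset_span (by simp))
      obtain ⟨c, hc⟩ := hDp _ (hRB z) hzD
      obtain ⟨c', hc'⟩ := hDp _ (hRB y) hyD
      have hcK : algebraMap R K z = (p : K) * (c : K) := congrArg Subtype.val hc
      have hcK' : algebraMap R K y = (p : K) * (c' : K) := congrArg Subtype.val hc'
      have h8 : (p : K) * (c : K) / algebraMap R K z ∈ B := by
        rw [← hcK, div_self hz0]; exact B.one_mem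
      rcases hp _ _ p.2 c.2 h8 with h9 | h9
      · apply hyz
        rw [hcK', mul_div_right_comm]
        exact B.mul_mem h9 c'.2
      · apply hpp.not_isUnit
        rw [isUnit_iff_un]
        have hp0 : (p : K) ≠ 0 := by
          intro h; apply hz0; rw [hcK, h, zero_mul]
        have hc0 : (c : K) ≠ 0 := by
          intro h; apply hz0; rw [hcK, h, mul_zero]
        refine ⟨hp0, p.2, ?_⟩
        have h10 : (p : K)⁻¹ = (c : K) / algebraMap R K z := by
          rw [hcK]; field_simp
        rw [h10]; exact h9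
    · -- `D = E(x',y)`
      have := hpar.x'y
      have hx'D : NU D (algebraMap R K (x - algebraMap O R t)) :=
        (IsEE.nu_algebraMap_iff hpar.py hpar.x'_ny (Ideal.subset_span (by simp))
          (Ideal.subset_span (by simp)) hC _).2 (Ideal.subset_span (by simp))
      have hx'B : NU B (algebraMap R K (x - algebraMap O R t)) := by
        rcases (mem_iff_un_or_nu B _).1 (hRB (x - algebraMap O R t)) with h | h
        · exact absurd ⟨h.1, hleD _ h.2.1, hleD _ h.2.2⟩ (not_un_of_nu hx'D)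
        · exact h
      exact hpar.x'_nxyz
        ((IsEE.nu_algebraMap_iff hpar.pz hpar.x_nz hxq hzq hB _).1 hx'B)
  -- (3)
  by_contra hlt
  rw [not_le] at hlt
  have hmem := IsE.mem_pow hpar.py hpar.z_ny hpar.zy hE1 n1 (H i) (h1 i)
  rw [Set.pair_comm] at hmem
  obtain ⟨α, β, hαβ⟩ := mem_pow_pair hmem
  have hαβK : algebraMap R K (H i) = algebraMap R K z ^ n1 * algebraMap R K α +
      algebraMap R K y * algebraMap R K β := by
    rw [hαβ]; simp only [map_add, map_mul, map_pow]
  obtain ⟨m, hm⟩ : ∃ m, n1 = n2 + (m + 1) := ⟨n1 - n2 - 1, by omega⟩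
  have h11 : algebraMap R K y * algebraMap R K β / algebraMap R K z ^ n2 =
      algebraMap R K (H i) / algebraMap R K z ^ n2 -
        algebraMap R K z * (algebraMap R K z ^ m * algebraMap R K α) := by
    rw [hαβK, hm]
    field_simp
    ring
  have h12 : algebraMap R K y * algebraMap R K β / algebraMap R K z ^ n2 ∈ B := by
    rw [h11]
    exact B.sub_mem hgB (B.mul_mem (hRB z) (B.mul_mem (B.pow_mem (hRB z) m) (hRB α)))
  have h13 := C4_dvd hz0 hp (hRB y) (hRB z) hyz n2 _ (hRB β) h12
  have h14 : NU B (algebraMap R K (H i) / algebraMap R K z ^ n2) := by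
    have h15 : algebraMap R K (H i) / algebraMap R K z ^ n2 =
        algebraMap R K z * (algebraMap R K z ^ m * algebraMap R K α) +
          algebraMap R K y * (algebraMap R K β / algebraMap R K z ^ n2) := by
      rw [hαβK, hm]
      field_simp
      ring
    rw [h15]
    exact hBloc _ _ (NU.mul hzN (B.mul_mem (B.pow_mem (hRB z) m) (hRB α))) (NU.mul hyN h13)
  exact not_un_of_nu h14 hgU


private theorem C5_aux {E : Subring K} {s m h h' : K} (hij : h' / h ∈ E) (h1 : h / s ∈ E)
    (hu : Un E (h' / s)) (hM : m / s ∈ E) : m / h ∈ E := by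
  have hs : s ≠ 0 := by
    intro hs
    apply hu.1
    rw [hs, div_zero]
  by_cases hh : h = 0
  · rw [hh, div_zero]
    exact E.zero_mem
  have h2 : h / s * (h' / h) = h' / s := by
    field_simp
  have h3 : Un E (h / s) := (Un.of_mul h1 hij (h2 ▸ hu)).1
  have h4 : m / h = m / s * (h / s)⁻¹ := by
    field_simp
  rw [h4]
  exact E.mul_mem hM h3.2.2

private theorem C5_unique {R' : Type} [CommRing R'] [Algebra R' K] {a b : R'} {B B' : Subring K}
    (hB : IsE a b B) (hB' : IsE a b B') : B = B' := by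
  ext u
  exact (hB u).trans (hB' u).symm

/-- ROW C5. `M / H_i ∈ A`. `A` is a UFD (D0). By U2 it suffices to look at primes `p` of `A` dividing `H_i`. `D = A_(p)` (U1). `t` is a unit of `D` (`t` is prime in
`A`; if `p ∣ t` then `t ∣ H_i` in `A`). So `D` is a local ring of the model over `k` (`IsLR.trans` over `O`, then `IsLR.base`, LR3), and C1 applies. If `D` is
`E(x,z)` (unique: `IsE` determines the ring, so `D = E2`): `H_i/z^n2` is a unit of `E2`, `M/z^n2 ∈ E2`, so `M/H_i ∈ D`; likewise the others. -/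
theorem div_mem (ht : Irreducible t) (hpar : ParFacts (algebraMap O R t) x y z) {N : ℕ}
    {H : Fin N → R}
    (hH : ∀ p : R, Prime p → ∃ j, ¬ p ∣ H j)
    (hLR : ∀ B : Subring K, IsLR k (fun j => algebraMap R K (H j)) B ↔
      IsLR k (hYR K (algebraMap O R t) x y z w1 w2 w3) B)
    {A : Subring K} (hAu : UniqueFactorizationMonoid A)
    (hA : IsLR O (fun j => algebraMap R K (H j)) A)
    (hR : ∀ r : R, algebraMap R K r ∈ A)
    (htA : ∀ a b : K, a ∈ A → b ∈ A → a * b / algebraMap O K t ∈ A →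
      a / algebraMap O K t ∈ A ∨ b / algebraMap O K t ∈ A)
    (htA' : NU A (algebraMap O K t))
    {i : Fin N} (hi : H i ≠ 0)
    (hij : ∀ j, algebraMap R K (H j) / algebraMap R K (H i) ∈ A)
    (hti : algebraMap R K (H i) / algebraMap O K t ∉ A)
    {E1 E2 E3 : Subring K} (hE1 : IsE z y E1) (hE2 : IsE x z E2)
    (hE3 : IsE (x - algebraMap O R t) y E3) {n1 n2 n3 : ℕ}
    (h1 : ∀ j, algebraMap R K (H j) / algebraMap R K y ^ n1 ∈ E1)
    (h2 : ∀ j, algebraMap R K (H j) / algebraMap R K z ^ n2 ∈ E2)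
    (h3 : ∀ j, algebraMap R K (H j) / algebraMap R K y ^ n3 ∈ E3)
    (h1' : ∃ j, Un E1 (algebraMap R K (H j) / algebraMap R K y ^ n1))
    (h2' : ∃ j, Un E2 (algebraMap R K (H j) / algebraMap R K z ^ n2))
    (h3' : ∃ j, Un E3 (algebraMap R K (H j) / algebraMap R K y ^ n3))
    (M : R) (hM1 : algebraMap R K M / algebraMap R K y ^ n1 ∈ E1)
    (hM2 : algebraMap R K M / algebraMap R K z ^ n2 ∈ E2)
    (hM3 : algebraMap R K M / algebraMap R K y ^ n3 ∈ E3) :
    algebraMap R K M / algebraMap R K (H i) ∈ A := by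
  have hHi : algebraMap R K (H i) ≠ 0 :=
    (map_ne_zero_iff _ (IsFractionRing.injective R K)).2 hi
  have hfr : IsFractionRing A K := by
    refine IsFractionRing.of_field A K fun q => ?_
    obtain ⟨r, s, _, hrs⟩ := IsFractionRing.div_surjective (A := R) q
    exact ⟨⟨algebraMap R K r, hR r⟩, ⟨algebraMap R K s, hR s⟩, hrs.symm⟩
  have htR : ∀ o : O, algebraMap O K o = algebraMap R K (algebraMap O R o) :=
    fun o => IsScalarTower.algebraMap_apply O R K o
  have htA0 : algebraMap O K t ∈ A := htA'.1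
  have htinj : algebraMap O K t ≠ 0 := by
    rw [htR]
    refine (map_ne_zero_iff _ (IsFractionRing.injective R K)).2 ?_
    exact hpar.pT.ne_zero
  set g : A := ⟨algebraMap R K (H i), hR _⟩ with hg
  set M' : A := ⟨algebraMap R K M, hR _⟩ with hM'
  have hg0 : g ≠ 0 := by
    intro h
    exact hHi (congrArg Subtype.val h)
  have hdvd : g ∣ M' := by
    refine dvd_of_forall_prime hg0 fun p hp hpg => ?_
    obtain ⟨D, hD, hloc, hpD, hunit⟩ := exists_dvr_of_prime (K := K) hp
    have hAD : ∀ s : K, s ∈ A → s ∈ D := fun s hs => hloc.1 ⟨s, hs⟩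
    obtain ⟨e, he⟩ := hpg
    have heK : algebraMap R K (H i) = (p : K) * (e : K) := congrArg Subtype.val he
    have hp0 : (p : K) ≠ 0 := by
      intro h
      exact hp.ne_zero (Subtype.ext h)
    -- `t` is not divisible by `p`
    have hpt : ¬ p ∣ (⟨algebraMap O K t, htA0⟩ : A) := by
      rintro ⟨c, hc⟩
      have hcK : algebraMap O K t = (p : K) * (c : K) := congrArg Subtype.val hc
      have h1 : (p : K) * (c : K) / algebraMap O K t ∈ A := by
        rw [← hcK, div_self htinj]
        exact A.one_mem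
      rcases htA p c p.2 c.2 h1 with h2 | h2
      · apply hti
        have h3 : algebraMap R K (H i) / algebraMap O K t =
            (p : K) / algebraMap O K t * (e : K) := by
          rw [heK]
          ring
        rw [h3]
        exact A.mul_mem h2 e.2
      · apply hp.not_isUnit
        have h3 : (p : K) * ((c : K) / algebraMap O K t) = 1 := by
          rw [← mul_div_assoc, ← hcK, div_self htinj]
        have h4 : p * (⟨(c : K) / algebraMap O K t, h2⟩ : A) = 1 := Subtype.ext h3
        exact IsUnit.of_mul_eq_one _ h4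
    have htD : Un D (algebraMap O K t) := hunit _ hpt
    have hDO : IsLR O (fun j => algebraMap R K (H j)) D := IsLR.trans hA hD.loc hloc
    have hOD : ∀ o : O, algebraMap O K o ∈ D := fun o => by
      rw [htR]
      exact hAD _ (hR _)
    have hDk : IsLR k (fun j => algebraMap R K (H j)) D :=
      IsLR.base hDO fun c => algebraMap_mem_of_uniformizer ht hOD htD.2.2 c
    have hnu : NU D (algebraMap R K (H i)) := by
      rw [heK]
      exact NU.mul hpD (hAD _ e.2)
    have hmem : algebraMap R K M / algebraMap R K (H i) ∈ D := by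
      rcases exceptional hpar hH hLR hD hDk (fun r => hAD _ (hR r)) hi
        (fun j => hAD _ (hij j)) hnu with hE | hE | hE
      · have hDE : D = E2 := C5_unique hE hE2
        obtain ⟨j, hj⟩ := h2'
        rw [hDE]
        exact C5_aux (hDE ▸ hAD _ (hij j)) (h2 i) hj hM2
      · have hDE : D = E1 := C5_unique hE hE1
        obtain ⟨j, hj⟩ := h1'
        rw [hDE]
        exact C5_aux (hDE ▸ hAD _ (hij j)) (h1 i) hj hM1
      · have hDE : D = E3 := C5_unique hE hE3
        obtain ⟨j, hj⟩ := h3'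
        rw [hDE]
        exact C5_aux (hDE ▸ hAD _ (hij j)) (h3 i) hj hM3
    obtain ⟨a, s, hs, has⟩ := hloc.2 _ hmem
    refine ⟨a, s, ?_, ?_⟩
    · rintro ⟨c, hc⟩
      refine not_un_of_nu ?_ hs
      rw [hc, map_mul]
      exact NU.mul hpD (hAD _ c.2)
    · apply Subtype.ext
      have has' : algebraMap R K M / algebraMap R K (H i) * (s : K) = (a : K) := has
      show algebraMap R K M * (s : K) = algebraMap R K (H i) * (a : K)
      rw [← has']
      field_simp
  obtain ⟨c, hc⟩ := hdvd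
  have hcK : algebraMap R K M = algebraMap R K (H i) * (c : K) := congrArg Subtype.val hc
  rw [hcK, mul_div_cancel_left₀ _ hHi]
  exact c.2


/-- `y^p z^m / y^n` is in every subring containing `y`, `z`, `z/y` if `n ≤ p + m`. -/
theorem C6_aux {E : Subring K} {y z : K} (hy0 : y ≠ 0) (hy : y ∈ E) (hz : z ∈ E)
    (hzy : z / y ∈ E) {p m n : ℕ} (h : n ≤ p + m) : y ^ p * z ^ m / y ^ n ∈ E := by
  rcases le_total n p with h1 | h1
  · obtain ⟨q, rfl⟩ := Nat.exists_eq_add_of_le h1
    rw [show y ^ (n + q) * z ^ m / y ^ n = y ^ q * z ^ m by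
      rw [pow_add]; field_simp]
    exact E.mul_mem (E.pow_mem hy _) (E.pow_mem hz _)
  · obtain ⟨s, rfl⟩ := Nat.exists_eq_add_of_le h1
    obtain ⟨r, rfl⟩ := Nat.exists_eq_add_of_le (by omega : s ≤ m)
    rw [show y ^ p * z ^ (s + r) / y ^ (p + s) = z ^ r * (z / y) ^ s by
      rw [pow_add, pow_add, div_pow]; field_simp]
    exact E.mul_mem (E.pow_mem hz _) (E.pow_mem hzy _)

/-- ROW C6. the monomials `M0 = y^n3 z^n2`, `M1 = y^n3 z^(n2-1) x`, `M2 = y^(n3-1) z^n2 x'` satisfy the inequalities if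
`n2, n3 ≥ 1`, `n1 ≤ n2` (so `n1 + 1 ≤ n2 + n3`). (`z/y ∈ E1`, `x/z ∈ E2`, `x'/y ∈ E3`.) -/
theorem monomials (hpar : ParFacts (algebraMap O R t) x y z)
    {E1 E2 E3 : Subring K} (hE1 : IsE z y E1) (hE2 : IsE x z E2)
    (hE3 : IsE (x - algebraMap O R t) y E3) {n1 n2 n3 : ℕ} (h12 : n1 ≤ n2) (h2 : 1 ≤ n2)
    (h3 : 1 ≤ n3) (M : R) (hM : M = y ^ n3 * z ^ n2 ∨ M = y ^ n3 * z ^ (n2 - 1) * x ∨
      M = y ^ (n3 - 1) * z ^ n2 * (x - algebraMap O R t)) :
    algebraMap R K M / algebraMap R K y ^ n1 ∈ E1 ∧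
      algebraMap R K M / algebraMap R K z ^ n2 ∈ E2 ∧
      algebraMap R K M / algebraMap R K y ^ n3 ∈ E3 := by
  have hinj := IsFractionRing.injective R K
  have hy0 : algebraMap R K y ≠ 0 := fun h0 =>
    hpar.py.ne_zero (hinj (by rw [h0, map_zero]))
  have hz0 : algebraMap R K z ≠ 0 := fun h0 =>
    hpar.pz.ne_zero (hinj (by rw [h0, map_zero]))
  have := hpar.zy
  have := hpar.xz
  have := hpar.x'y
  have hR1 : ∀ r : R, algebraMap R K r ∈ E1 := IsEE.algebraMap_mem hE1
  have hR2 : ∀ r : R, algebraMap R K r ∈ E2 := IsEE.algebraMap_mem hE2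
  have hR3 : ∀ r : R, algebraMap R K r ∈ E3 := IsEE.algebraMap_mem hE3
  have hc1 : algebraMap R K z / algebraMap R K y ∈ E1 := IsEE.c_mem hE1
  have hc2 : algebraMap R K x / algebraMap R K z ∈ E2 := IsEE.c_mem hE2
  have hc3 : algebraMap R K (x - algebraMap O R t) / algebraMap R K y ∈ E3 := IsEE.c_mem hE3
  obtain ⟨m2, rfl⟩ := Nat.exists_eq_add_of_le h2
  obtain ⟨m3, rfl⟩ := Nat.exists_eq_add_of_le h3
  simp only [Nat.add_sub_cancel_left] at hM
  rcases hM with rfl | rfl | rfl
  · refine ⟨?_, ?_, ?_⟩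
    · rw [map_mul, map_pow, map_pow]
      exact C6_aux hy0 (hR1 y) (hR1 z) hc1 (by omega)
    · rw [map_mul, map_pow, map_pow, mul_div_assoc, div_self (pow_ne_zero _ hz0), mul_one]
      exact E2.pow_mem (hR2 y) _
    · rw [map_mul, map_pow, map_pow, mul_comm, mul_div_assoc, div_self (pow_ne_zero _ hy0),
        mul_one]
      exact E3.pow_mem (hR3 z) _
  · refine ⟨?_, ?_, ?_⟩
    · rw [map_mul, map_mul, map_pow, map_pow, mul_div_right_comm]
      exact E1.mul_mem (C6_aux hy0 (hR1 y) (hR1 z) hc1 (by omega)) (hR1 x)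
    · rw [map_mul, map_mul, map_pow, map_pow]
      rw [show algebraMap R K y ^ (1 + m3) * algebraMap R K z ^ m2 * algebraMap R K x /
        algebraMap R K z ^ (1 + m2) =
        algebraMap R K y ^ (1 + m3) * (algebraMap R K x / algebraMap R K z) by
        rw [pow_add (algebraMap R K z)]; field_simp]
      exact E2.mul_mem (E2.pow_mem (hR2 y) _) hc2
    · rw [map_mul, map_mul, map_pow, map_pow]
      rw [show algebraMap R K y ^ (1 + m3) * algebraMap R K z ^ m2 * algebraMap R K x /
        algebraMap R K y ^ (1 + m3) = algebraMap R K z ^ m2 * algebraMap R K x by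
        field_simp]
      exact E3.mul_mem (E3.pow_mem (hR3 z) _) (hR3 x)
  · refine ⟨?_, ?_, ?_⟩
    · rw [map_mul, map_mul, map_pow, map_pow, mul_div_right_comm]
      exact E1.mul_mem (C6_aux hy0 (hR1 y) (hR1 z) hc1 (by omega)) (hR1 _)
    · rw [map_mul, map_mul, map_pow, map_pow]
      rw [show algebraMap R K y ^ m3 * algebraMap R K z ^ (1 + m2) *
        algebraMap R K (x - algebraMap O R t) / algebraMap R K z ^ (1 + m2) =
        algebraMap R K y ^ m3 * algebraMap R K (x - algebraMap O R t) by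
        field_simp]
      exact E2.mul_mem (E2.pow_mem (hR2 y) _) (hR2 _)
    · rw [map_mul, map_mul, map_pow, map_pow]
      rw [show algebraMap R K y ^ m3 * algebraMap R K z ^ (1 + m2) *
        algebraMap R K (x - algebraMap O R t) / algebraMap R K y ^ (1 + m3) =
        algebraMap R K z ^ (1 + m2) *
          (algebraMap R K (x - algebraMap O R t) / algebraMap R K y) by
        rw [pow_add (algebraMap R K y)]; field_simp]
      exact E3.mul_mem (E3.pow_mem (hR3 z) _) hc3


private lemma C7_dvd {S : Type} [CommRing S] (T x z r : S) :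
    r ∈ Ideal.span {T, x, z} ↔ Ideal.Quotient.mk (Ideal.span {T, x}) z ∣
      Ideal.Quotient.mk (Ideal.span {T, x}) r := by
  have h0 : ({T, x, z} : Set S) = {T, x} ∪ {z} := by
    rw [Set.insert_union, Set.singleton_union]
  rw [h0, Ideal.span_union, Submodule.mem_sup]
  constructor
  · rintro ⟨u, hu, v, hv, rfl⟩
    rw [Ideal.mem_span_singleton] at hv
    obtain ⟨c, rfl⟩ := hv
    refine ⟨Ideal.Quotient.mk _ c, ?_⟩
    rw [map_add, map_mul, Ideal.Quotient.eq_zero_iff_mem.2 hu, zero_add]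
  · rintro ⟨c, hc⟩
    obtain ⟨c, rfl⟩ := Ideal.Quotient.mk_surjective c
    rw [← map_mul, Ideal.Quotient.eq] at hc
    exact ⟨r - z * c, hc, z * c, Ideal.mem_span_singleton.2 (dvd_mul_right z c), by ring⟩

private lemma C7_prime {S : Type} [CommRing S] (T x z : S) (h : (Ideal.span {T, x, z}).IsPrime)
    (hz : z ∉ Ideal.span {T, x}) : Prime (Ideal.Quotient.mk (Ideal.span {T, x}) z) := by
  refine ⟨?_, ?_, ?_⟩
  · rwa [Ne, Ideal.Quotient.eq_zero_iff_mem]
  · intro hu
    apply h.ne_top
    rw [Ideal.eq_top_iff_one, C7_dvd, map_one]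
    exact hu.dvd
  · intro a b hab
    obtain ⟨a, rfl⟩ := Ideal.Quotient.mk_surjective a
    obtain ⟨b, rfl⟩ := Ideal.Quotient.mk_surjective b
    rw [← map_mul, ← C7_dvd] at hab
    rw [← C7_dvd, ← C7_dvd]
    exact h.mem_or_mem hab

/-- ROW C7. `g ∈ (x,z)^n2` and `g ∈ (x',y)^n3` imply `g = y^n3 z^n2 q + t a + x b`. (In the domain `R/(t,x)`: `z^n2 ∣ g`, `y^n3 ∣ g`, `z` is a prime element
there and `z ∤ y`; `mem_pow_pair` twice.) -/
theorem mod_tx (hpar : ParFacts (algebraMap O R t) x y z) {n2 n3 : ℕ} {g : R}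
    (h2 : g ∈ Ideal.span {x, z} ^ n2) (h3 : g ∈ Ideal.span {x - algebraMap O R t, y} ^ n3) :
    ∃ q a b : R, g = y ^ n3 * z ^ n2 * q + algebraMap O R t * a + x * b := by
  set T := algebraMap O R t with hT
  obtain ⟨g1, e1, h1⟩ := mem_pow_pair h2
  obtain ⟨g2, e2, h2⟩ := mem_pow_pair h3
  have hTmem : T ∈ Ideal.span {T, x} := Ideal.subset_span (by simp)
  have hxmem : x ∈ Ideal.span {T, x} := Ideal.subset_span (by simp)
  have : (Ideal.span {T, x}).IsPrime := hpar.Tx
  have hz : z ∉ Ideal.span {T, x} := by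
    intro h
    apply hpar.z_nTxy
    refine Ideal.span_mono ?_ h
    intro a ha
    simp only [Set.mem_insert_iff, Set.mem_singleton_iff] at ha ⊢
    tauto
  have hzp := C7_prime T x z hpar.Txz hz
  have hy : ¬ Ideal.Quotient.mk (Ideal.span {T, x}) z ∣ Ideal.Quotient.mk (Ideal.span {T, x}) y := by
    rw [← C7_dvd]
    exact hpar.y_nTxz
  have e1' : Ideal.Quotient.mk (Ideal.span {T, x}) g =
      Ideal.Quotient.mk _ z ^ n2 * Ideal.Quotient.mk _ g1 := by
    rw [h1, map_add, map_mul, map_mul, map_pow, Ideal.Quotient.eq_zero_iff_mem.2 hxmem, zero_mul,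
      add_zero]
  have e2' : Ideal.Quotient.mk (Ideal.span {T, x}) g =
      Ideal.Quotient.mk _ y ^ n3 * Ideal.Quotient.mk _ g2 := by
    rw [h2, map_add, map_mul, map_mul, map_pow, Ideal.Quotient.eq_zero_iff_mem.2
      (Ideal.sub_mem _ hxmem hTmem), zero_mul, add_zero]
  have h4 : Ideal.Quotient.mk (Ideal.span {T, x}) z ^ n2 ∣
      Ideal.Quotient.mk (Ideal.span {T, x}) y ^ n3 * Ideal.Quotient.mk _ g2 := by
    rw [← e2', e1']
    exact dvd_mul_right _ _
  have h5 : Ideal.Quotient.mk (Ideal.span {T, x}) z ^ n2 ∣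
      Ideal.Quotient.mk (Ideal.span {T, x}) g2 := by
    refine hzp.pow_dvd_of_dvd_mul_left n2 ?_ h4
    intro h
    exact hy (hzp.dvd_of_dvd_pow h)
  obtain ⟨q, hq⟩ := h5
  obtain ⟨q, rfl⟩ := Ideal.Quotient.mk_surjective q
  have h6 : Ideal.Quotient.mk (Ideal.span {T, x}) g =
      Ideal.Quotient.mk (Ideal.span {T, x}) (y ^ n3 * z ^ n2 * q) := by
    rw [e2', hq]
    simp only [map_mul, map_pow]
    ring
  rw [Ideal.Quotient.eq, Ideal.mem_span_pair] at h6
  obtain ⟨a, b, hab⟩ := h6
  refine ⟨q, a, b, ?_⟩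
  linear_combination -hab


end

end Pool.Agent.Lib.MP_55c1e7_ag.D
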