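import Pool.Agent.Lib.MP_55c1e7_ag.D.Par
import Pool.Agent.Lib.MP_55c1e7_ag.D0.RegE

set_option autoImplicit false

namespace Pool.Agent.Lib.MP_55c1e7_ag.D

open IsLocalRing

/-- A regular system of parameters of a four dimensional regular local ring. -/
theorem par_of_regular {R : Type} [CommRing R] [IsRegularLocalRing R] {T x y z : R}
    (hmax : maximalIdeal R = Ideal.span {T, x, y, z}) (hdim : ringKrullDim R = 4) :
    Par T x y z := by
  classical
  have hr : Ideal.span (Set.range ![T, x, y, z]) = maximalIdeal R := by
    rw [hmax]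
    congr 1
    ext r
    simp only [Set.mem_range, Fin.exists_fin_succ, Set.mem_insert_iff, Set.mem_singleton_iff]
    simp
    tauto
  have hcard : ringKrullDim R = (Fintype.card (Fin 4) : WithBot ℕ∞) := by
    rw [hdim]
    simp
  have hfr : (maximalIdeal R).spanFinrank = 4 := by
    have h1 := (isRegularLocalRing_iff R).mp ‹_›
    rw [hdim] at h1
    exact_mod_cast h1
  intro s
  refine ⟨(MP55c1e7.D0.span_params_isPrime ![T, x, y, z] hr hcard s).1, ?_⟩
  intro i hi hmem
  have h2 : maximalIdeal R =
      Ideal.span (![T, x, y, z] '' ((Finset.univ.erase i : Finset (Fin 4)) : Set (Fin 4))) := by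
    apply le_antisymm
    · rw [← hr, Ideal.span_le]
      rintro _ ⟨j, rfl⟩
      by_cases hj : j = i
      · subst hj
        refine Ideal.span_mono (Set.image_mono ?_) hmem
        intro l hl
        rw [Finset.mem_coe, Finset.mem_erase]
        exact ⟨fun h => hi (h ▸ hl), Finset.mem_univ _⟩
      · exact Ideal.subset_span ⟨j, by simpa using hj, rfl⟩
    · rw [← hr]
      apply Ideal.span_mono
      rintro _ ⟨j, -, rfl⟩
      exact ⟨j, rfl⟩
  have h3 := Submodule.spanFinrank_span_le_ncard_of_finite (R := R)
    (s := ![T, x, y, z] '' ((Finset.univ.erase i : Finset (Fin 4)) : Set (Fin 4)))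
    ((Finset.finite_toSet _).image _)
  have h4 : (![T, x, y, z] '' ((Finset.univ.erase i : Finset (Fin 4)) : Set (Fin 4))).ncard
      ≤ 3 := by
    refine (Set.ncard_image_le (Finset.finite_toSet _)).trans ?_
    rw [Set.ncard_coe_finset, Finset.card_erase_of_mem (Finset.mem_univ i)]
    simp
  have h5 : (maximalIdeal R).spanFinrank ≤ 3 := by
    conv_lhs => rw [h2]
    exact h3.trans h4
  omega

theorem span_sub {R : Type} [CommRing R] (T x y z : R) :
    (Ideal.span {T, x, y, z} : Ideal R) = Ideal.span {T, x - T, y, z} := by
  apply le_antisymm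
  · rw [Ideal.span_le]
    intro r hr
    simp only [Set.mem_insert_iff, Set.mem_singleton_iff] at hr
    rcases hr with rfl | rfl | rfl | rfl
    · exact Ideal.subset_span (by simp)
    · have h1 : r = (r - T) + T := by ring
      rw [h1]
      exact Ideal.add_mem _ (Ideal.subset_span (by simp)) (Ideal.subset_span (by simp))
    · exact Ideal.subset_span (by simp)
    · exact Ideal.subset_span (by simp)
  · rw [Ideal.span_le]
    intro r hr
    simp only [Set.mem_insert_iff, Set.mem_singleton_iff] at hr
    rcases hr with rfl | rfl | rfl | rfl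
    · exact Ideal.subset_span (by simp)
    · exact Ideal.sub_mem _ (Ideal.subset_span (by simp)) (Ideal.subset_span (by simp))
    · exact Ideal.subset_span (by simp)
    · exact Ideal.subset_span (by simp)

/-- Both systems of parameters. -/
theorem par_both {R : Type} [CommRing R] [IsRegularLocalRing R] {T x y z : R}
    (hmax : maximalIdeal R = Ideal.span {T, x, y, z}) (hdim : ringKrullDim R = 4) :
    Par T x y z ∧ Par T (x - T) y z :=
  ⟨par_of_regular hmax hdim, par_of_regular (hmax.trans (span_sub T x y z)) hdim⟩

end Pool.Agent.Lib.MP_55c1e7_ag.D
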