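import Pool.Agent.Lib.MP_55c1e7_ag.D.C1
import Pool.Agent.Lib.MP_55c1e7_ag.D.ParR

set_option autoImplicit false

namespace Pool.Agent.Lib.MP_55c1e7_ag.D

open Polynomial

variable {K : Type} [Field K]

/-- ROW C8. the centre of a valuation ring on a model -/
theorem exists_center (V : ValuationSubring K) {N : ℕ} (h : Fin N → K) (hh : ∃ i, h i ≠ 0) :
    ∃ i, h i ≠ 0 ∧ ∀ j, h j / h i ∈ V.toSubring := by
  obtain ⟨i0, hi0⟩ := hh
  have hne : (Finset.univ : Finset (Fin N)).Nonempty := ⟨i0, Finset.mem_univ _⟩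
  obtain ⟨i, _, hi⟩ := Finset.exists_max_image Finset.univ (fun j => V.valuation (h j)) hne
  have hi1 : h i ≠ 0 := by
    intro h0
    have h1 := hi i0 (Finset.mem_univ _)
    simp only [h0, map_zero] at h1
    have h2 : V.valuation (h i0) = 0 := le_antisymm h1 zero_le
    exact hi0 ((map_eq_zero V.valuation).1 h2)
  refine ⟨i, hi1, fun j => ?_⟩
  show h j / h i ∈ V
  rw [← V.valuation_le_one_iff, map_div₀]
  have h3 := hi j (Finset.mem_univ _)
  have h4 : V.valuation (h i) ≠ 0 := (Valuation.ne_zero_iff _).2 hi1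
  exact (div_le_one₀ (zero_lt_iff.2 h4)).2 h3

theorem loc_valuationSubring (V : ValuationSubring K) : Loc V.toSubring :=
  (loc_iff _).2 (inferInstanceAs (IsLocalRing V))



section
variable {O k R : Type} [CommRing O] [IsDomain O] [IsDiscreteValuationRing O] [Field k]
  [Algebra O k] [IsFractionRing O k] [CommRing R] [IsRegularLocalRing R] [IsDomain R]
  [UniqueFactorizationMonoid R] [Algebra O R] [Algebra R K] [IsFractionRing R K] [Algebra O K]
  [IsScalarTower O R K] [Algebra k K] [IsScalarTower O k K]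
  {t : O} {x y z w1 w2 w3 : R}

/-- ROW C9. input from D0 (helper46): subsets of a regular system of parameters generate prime ideals. -/
theorem RData.par (hd : RData t x y z w1 w2 w3) :
    Par (algebraMap O R t) x y z ∧ Par (algebraMap O R t) (x - algebraMap O R t) y z :=
  par_both hd.max hd.dim

/-- ROW C10. `K` itself is a local ring of `Y` (the generic point); so it is one of the model `H`, which gives that every element of
`K` is a fraction of elements of `A`. -/
theorem isLR_top (hd : RData t x y z w1 w2 w3) (hpar : ParFacts (algebraMap O R t) x y z) :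
    IsLR k (hYR K (algebraMap O R t) x y z w1 w2 w3) (⊤ : Subring K) := by
  have hinj : Function.Injective (algebraMap R K) := IsFractionRing.injective R K
  have hne : ∀ r : R, r ≠ 0 → algebraMap R K r ≠ 0 := fun r hr h =>
    hr (hinj (by rw [h, map_zero]))
  refine isLR_of_xz (hne _ hpar.px.ne_zero) (hne _ hpar.py.ne_zero) (hne _ hpar.pz.ne_zero)
    (hne _ hpar.px'.ne_zero) ?_ (fun _ => Subring.mem_top _) (Subring.mem_top _)
    (Subring.mem_top _) (Subring.mem_top _) (Subring.mem_top _) (Subring.mem_top _)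
    (Subring.mem_top _) ⟨hne _ hpar.px'.ne_zero, Subring.mem_top _, Subring.mem_top _⟩
    (Subring.mem_top _) ?_
  · rintro a b ⟨_, ha⟩ ⟨_, hb⟩
    have ha0 : a = 0 := by
      by_contra h
      exact ha h (Subring.mem_top _)
    have hb0 : b = 0 := by
      by_contra h
      exact hb h (Subring.mem_top _)
    subst ha0 hb0
    exact ⟨Subring.mem_top _, fun h => absurd (add_zero (0 : K)) h⟩
  · intro C _ hCu hk hx hy hz hw1 hw2 hw3 _ q _
    have hinv : ∀ u ∈ C, u⁻¹ ∈ C := by
      intro u hu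
      by_cases h0 : u = 0
      · rw [h0, inv_zero]; exact C.zero_mem
      · exact hCu u hu ⟨h0, Subring.mem_top _, Subring.mem_top _⟩
    have hadj : ∀ a ∈ Algebra.adjoin O ({x, y, z, w1, w2, w3} : Set R),
        algebraMap R K a ∈ C := by
      intro a ha
      induction ha using Algebra.adjoin_induction with
      | mem u hu =>
        simp only [Set.mem_insert_iff, Set.mem_singleton_iff] at hu
        rcases hu with rfl | rfl | rfl | rfl | rfl | rfl <;> assumption
      | algebraMap r =>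
        rw [← IsScalarTower.algebraMap_apply O R K, IsScalarTower.algebraMap_apply O k K]
        exact hk _
      | add a b _ _ ha hb => rw [map_add]; exact C.add_mem ha hb
      | mul a b _ _ ha hb => rw [map_mul]; exact C.mul_mem ha hb
    have hRC : ∀ r : R, algebraMap R K r ∈ C := by
      intro r
      obtain ⟨a, b, ha, hb, hu, h⟩ := hd.gen r
      have hb0 : algebraMap R K b ≠ 0 := hne _ hu.ne_zero
      have h1 : algebraMap R K r = algebraMap R K a * (algebraMap R K b)⁻¹ := by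
        rw [eq_mul_inv_iff_mul_eq₀ hb0, ← map_mul, h]
      rw [h1]
      exact C.mul_mem (hadj _ ha) (hinv _ (hadj _ hb))
    obtain ⟨a, b, _, rfl⟩ := IsFractionRing.div_surjective (A := R) q
    rw [div_eq_mul_inv]
    exact C.mul_mem (hRC _) (hinv _ (hRC _))

theorem frac_of_isLR_top {ι : Type} {h : ι → K} (hT : IsLR k h (⊤ : Subring K))
    {A : Subring K} (hO : ∀ o : O, algebraMap O K o ∈ A) {i : ι} (hi : h i ≠ 0)
    (hij : ∀ j, h j / h i ∈ A) (q : K) : ∃ a b : K, a ∈ A ∧ b ∈ A ∧ b ≠ 0 ∧ q = a / b := by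
  have hmul : ∀ p q : K, (∃ a b : K, a ∈ A ∧ b ∈ A ∧ b ≠ 0 ∧ p = a / b) →
      (∃ a b : K, a ∈ A ∧ b ∈ A ∧ b ≠ 0 ∧ q = a / b) →
      ∃ a b : K, a ∈ A ∧ b ∈ A ∧ b ≠ 0 ∧ p * q = a / b := by
    rintro p q ⟨a, b, ha, hb, hb0, rfl⟩ ⟨c, d, hc, hd, hd0, rfl⟩
    exact ⟨a * c, b * d, A.mul_mem ha hc, A.mul_mem hb hd, mul_ne_zero hb0 hd0,
      div_mul_div_comm _ _ _ _⟩
  have hadd : ∀ p q : K, (∃ a b : K, a ∈ A ∧ b ∈ A ∧ b ≠ 0 ∧ p = a / b) →
      (∃ a b : K, a ∈ A ∧ b ∈ A ∧ b ≠ 0 ∧ q = a / b) →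
      ∃ a b : K, a ∈ A ∧ b ∈ A ∧ b ≠ 0 ∧ p + q = a / b := by
    rintro p q ⟨a, b, ha, hb, hb0, rfl⟩ ⟨c, d, hc, hd, hd0, rfl⟩
    exact ⟨a * d + b * c, b * d, A.add_mem (A.mul_mem ha hd) (A.mul_mem hb hc),
      A.mul_mem hb hd, mul_ne_zero hb0 hd0, div_add_div _ _ hb0 hd0⟩
  have hinv : ∀ p : K, (∃ a b : K, a ∈ A ∧ b ∈ A ∧ b ≠ 0 ∧ p = a / b) →
      ∃ a b : K, a ∈ A ∧ b ∈ A ∧ b ≠ 0 ∧ p⁻¹ = a / b := by
    rintro p ⟨a, b, ha, hb, hb0, rfl⟩
    by_cases h0 : a = 0
    · exact ⟨0, 1, A.zero_mem, A.one_mem, one_ne_zero, by rw [h0]; simp⟩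
    · exact ⟨b, a, hb, ha, h0, inv_div _ _⟩
  have hmem : ∀ a ∈ A, ∃ c d : K, c ∈ A ∧ d ∈ A ∧ d ≠ 0 ∧ a = c / d :=
    fun a ha => ⟨a, 1, ha, A.one_mem, one_ne_zero, (div_one a).symm⟩
  obtain ⟨_, i0, hi0, _, _, hloc⟩ := hT
  have hadj : ∀ u ∈ Algebra.adjoin k (Set.range fun j => h j / h i0),
      ∃ a b : K, a ∈ A ∧ b ∈ A ∧ b ≠ 0 ∧ u = a / b := by
    intro u hu
    induction hu using Algebra.adjoin_induction with
    | mem u hu =>
      obtain ⟨j, rfl⟩ := hu
      have h1 : h j / h i0 = (h j / h i) * (h i0 / h i)⁻¹ := by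
        field_simp
      show ∃ a b : K, a ∈ A ∧ b ∈ A ∧ b ≠ 0 ∧ h j / h i0 = a / b
      rw [h1]
      exact hmul _ _ (hmem _ (hij j)) (hinv _ (hmem _ (hij i0)))
    | algebraMap c =>
      obtain ⟨a, b, _, rfl⟩ := IsFractionRing.div_surjective (A := O) c
      rw [map_div₀, ← IsScalarTower.algebraMap_apply O k K,
        ← IsScalarTower.algebraMap_apply O k K, div_eq_mul_inv]
      exact hmul _ _ (hmem _ (hO _)) (hinv _ (hmem _ (hO _)))
    | add a b _ _ ha hb => exact hadd _ _ ha hb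
    | mul a b _ _ ha hb => exact hmul _ _ ha hb
  obtain ⟨a, s, hs, hq⟩ := hloc q (Subring.mem_top _)
  have h1 : q = (a : K) * (s : K)⁻¹ :=
    (eq_mul_inv_iff_mul_eq₀ hs.1).2 hq
  rw [h1]
  exact hmul _ _ (hadj _ a.2) (hinv _ (hadj _ s.2))



/-- ROW C11. `R ⊆ A`. -/
theorem algebraMap_mem_A (hd : RData t x y z w1 w2 w3) {A V : Subring K}
    (hO : ∀ o : O, algebraMap O K o ∈ A) (hx : algebraMap R K x ∈ A)
    (hy : algebraMap R K y ∈ A) (hz : algebraMap R K z ∈ A) (hw1 : algebraMap R K w1 ∈ A)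
    (hw2 : algebraMap R K w2 ∈ A) (hw3 : algebraMap R K w3 ∈ A)
    (hRV : ∀ r : R, algebraMap R K r ∈ V)
    (hAV : ∀ u : K, u ∈ A → u ≠ 0 → u⁻¹ ∈ V → u⁻¹ ∈ A) (r : R) : algebraMap R K r ∈ A := by
  have key : ∀ c : R, c ∈ Algebra.adjoin O {x, y, z, w1, w2, w3} → algebraMap R K c ∈ A := by
    intro c hc
    induction hc using Algebra.adjoin_induction with
    | mem c hc =>
      simp only [Set.mem_insert_iff, Set.mem_singleton_iff] at hc
      rcases hc with rfl | rfl | rfl | rfl | rfl | rfl <;> assumption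
    | algebraMap o =>
      rw [← IsScalarTower.algebraMap_apply O R K]
      exact hO o
    | add a b _ _ ha hb =>
      rw [map_add]; exact A.add_mem ha hb
    | mul a b _ _ ha hb =>
      rw [map_mul]; exact A.mul_mem ha hb
  obtain ⟨a, b, ha, hb, hu, h⟩ := hd.gen r
  obtain ⟨u, hu'⟩ := hu
  have h1 : algebraMap R K b * algebraMap R K (↑u⁻¹ : R) = 1 := by
    rw [← map_mul, ← hu', Units.mul_inv, map_one]
  have hb0 : algebraMap R K b ≠ 0 := left_ne_zero_of_mul_eq_one h1
  have h2 : (algebraMap R K b)⁻¹ = algebraMap R K (↑u⁻¹ : R) :=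
    inv_eq_of_mul_eq_one_right h1
  have h3 : (algebraMap R K b)⁻¹ ∈ A := hAV _ (key b hb) hb0 (by rw [h2]; exact hRV _)
  have h4 : algebraMap R K r = algebraMap R K a * (algebraMap R K b)⁻¹ := by
    rw [← h, map_mul, mul_assoc, mul_inv_cancel₀ hb0, mul_one]
  rw [h4]
  exact A.mul_mem (key a ha) h3


/-- The core of box D, proved from the rows. -/
theorem dCore (hd : RData t x y z w1 w2 w3) {N : ℕ} {H : Fin N → R} (hH0 : ∃ j, H j ≠ 0)
    (hH : ∀ p : R, Prime p → ∃ j, ¬ p ∣ H j)
    (hsm : ∀ i, algebraMap R K (H i) ≠ 0 → Algebra.Smooth O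
      (Algebra.adjoin O (Set.range fun j => algebraMap R K (H j) / algebraMap R K (H i))))
    (hLR : ∀ B : Subring K, IsLR k (fun j => algebraMap R K (H j)) B ↔
      IsLR k (hYR K (algebraMap O R t) x y z w1 w2 w3) B) : False := by
  classical
  obtain ⟨hp1, hp2⟩ := hd.par
  have hpar := parFacts hp1 hp2
  have hinj : Function.Injective (algebraMap R K) := IsFractionRing.injective R K
  have hne : ∀ r : R, r ≠ 0 → algebraMap R K r ≠ 0 := fun r hr h =>
    hr (hinj (by rw [h, map_zero]))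
  have htK : algebraMap R K (algebraMap O R t) = algebraMap O K t :=
    (IsScalarTower.algebraMap_apply O R K t).symm
  have hT0 : algebraMap O R t ≠ 0 := hpar.pT.ne_zero
  have ht0 : algebraMap O K t ≠ 0 := by rw [← htK]; exact hne _ hT0
  have hfaith : FaithfulSMul O K := by
    have h1 : Function.Injective (algebraMap k K) := (algebraMap k K).injective
    have h2 : Function.Injective (algebraMap O k) := IsFractionRing.injective O k
    rw [faithfulSMul_iff_algebraMap_injective, IsScalarTower.algebraMap_eq O k K]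
    exact h1.comp h2
  have hmem : ∀ r ∈ ({algebraMap O R t, x, y, z} : Set R),
      r ∈ IsLocalRing.maximalIdeal R := by
    intro r hr
    rw [hd.max]
    exact Ideal.subset_span hr
  have hmt := hmem (algebraMap O R t) (by simp)
  have hmx := hmem x (by simp)
  have hmy := hmem y (by simp)
  have hmz := hmem z (by simp)
  obtain ⟨V, hRV, hmV, hVt, hVx⟩ := exists_flag_valuation (K := K) (algebraMap O R t) x hpar.pT
    hpar.Tx hpar.x_nT (by
      rw [Ideal.span_le]
      intro r hr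
      simp only [Set.mem_insert_iff, Set.mem_singleton_iff] at hr
      rcases hr with rfl | rfl
      · exact hmt
      · exact hmx)
  have hVloc := loc_valuationSubring V
  obtain ⟨i, hi, hij⟩ := exists_center V (fun j => algebraMap R K (H j))
    (by obtain ⟨j, hj⟩ := hH0; exact ⟨j, hne _ hj⟩)
  have hiR : H i ≠ 0 := by rintro h; apply hi; show algebraMap R K (H i) = 0; rw [h, map_zero]
  have hOV : ∀ o : O, algebraMap O K o ∈ V.toSubring := by
    intro o
    rw [IsScalarTower.algebraMap_apply O R K]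
    exact hRV _
  have hS : ∀ s : Algebra.adjoin O (Set.range fun j => algebraMap R K (H j) /
      algebraMap R K (H i)), algebraMap _ K s ∈ V.toSubring := by
    intro s
    have hs := s.2
    have : ∀ u ∈ Algebra.adjoin O (Set.range fun j => algebraMap R K (H j) /
        algebraMap R K (H i)), u ∈ V.toSubring := by
      intro u hu
      induction hu using Algebra.adjoin_induction with
      | mem u hu => obtain ⟨j, rfl⟩ := hu; exact hij j
      | algebraMap r => exact hOV r
      | add a b _ _ ha hb => exact V.toSubring.add_mem ha hb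
      | mul a b _ _ ha hb => exact V.toSubring.mul_mem ha hb
    exact this _ hs
  obtain ⟨A, hAdef⟩ : ∃ A, A = locAt (Algebra.adjoin O (Set.range fun j =>
      algebraMap R K (H j) / algebraMap R K (H i))) V.toSubring := ⟨_, rfl⟩
  have hAV : A ≤ V.toSubring := by rw [hAdef]; exact locAt_le hS
  have hAloc : Loc A := by rw [hAdef]; exact locAt_loc hVloc hS
  have hAisLoc : IsLoc (Algebra.adjoin O (Set.range fun j =>
      algebraMap R K (H j) / algebraMap R K (H i))) A := by rw [hAdef]; exact isLoc_locAt hS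
  have hAinv : ∀ u : K, u ∈ A → u ≠ 0 → u⁻¹ ∈ V.toSubring → u⁻¹ ∈ A := by
    intro u hu h0 h1
    rw [hAdef] at hu ⊢
    exact locAt_inv_mem hS hu h0 h1
  have hijA : ∀ j, algebraMap R K (H j) / algebraMap R K (H i) ∈ A := by
    intro j
    exact hAisLoc.1 ⟨_, Algebra.subset_adjoin ⟨j, rfl⟩⟩
  have hOA : ∀ o : O, algebraMap O K o ∈ A := by
    intro o
    exact hAisLoc.1 (algebraMap O _ o)
  have hALR : IsLR O (fun j => algebraMap R K (H j)) A := ⟨hAloc, i, hi, hijA, hAisLoc⟩
  obtain ⟨hA1, hA2, hA3⟩ := isLR_regular hsm hALR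
  have hNU : ∀ u : K, u ∈ A → NU V.toSubring u → NU A u := fun u hu h =>
    ⟨hu, fun h0 h1 => h.2 h0 (hAV h1)⟩
  have htop : IsLR k (fun j => algebraMap R K (H j)) (⊤ : Subring K) :=
    (hLR _).2 (isLR_top hd hpar)
  have hfrac := frac_of_isLR_top (O := O) (k := k) htop hOA hi hijA
  have hxV := hmV x hmx
  have hyV := hmV y hmy
  have hzV := hmV z hmz
  have hwK : ∀ u w : R, w ^ 2 = u ^ 4 + 1 →
      (algebraMap R K w) ^ 2 = (algebraMap R K u) ^ 4 + 1 := by
    intro u w h
    rw [← map_pow, h, map_add, map_pow, map_one]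
  have hin : ∀ u w : R, u ≠ 0 → NU V.toSubring (algebraMap R K u) → w ^ 2 = u ^ 4 + 1 →
      algebraMap R K u ∈ A ∧ algebraMap R K w ∈ A := by
    intro u w hu hnu huw
    have h1 : algebraMap R K u ∈ A := by
      rcases ext_mem hd.two hsm hALR hfrac _ _ (hwK u w huw) with h | h
      · exact h
      · exact absurd (hAV h) (hnu.2 (hne _ hu))
    exact ⟨h1, w_mem hfrac _ _ h1 (hwK u w huw)⟩
  obtain ⟨hxA, hw1A⟩ := hin x w1 hpar.px.ne_zero hxV hd.hw1
  obtain ⟨hyA, hw2A⟩ := hin y w2 hpar.py.ne_zero hyV hd.hw2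
  obtain ⟨hzA, hw3A⟩ := hin z w3 hpar.pz.ne_zero hzV hd.hw3
  have hRA : ∀ r : R, algebraMap R K r ∈ A :=
    algebraMap_mem_A hd hOA hxA hyA hzA hw1A hw2A hw3A hRV hAinv
  have htA : NU A (algebraMap O K t) := by
    rw [← htK]
    exact hNU _ (hRA _) (hmV _ hmt)
  obtain ⟨hunif, htprime⟩ := isLR_uniformizer hd.ht hsm hALR htA
  -- `t` does not divide `H i`
  have hti : algebraMap R K (H i) / algebraMap O K t ∉ A := by
    intro h
    obtain ⟨j, hj⟩ := hH _ hpar.pT
    have h1 := hVt (H j) hj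
    have hj0 : H j ≠ 0 := by rintro h0; apply hj; rw [h0]; exact dvd_zero _
    apply h1.2 (div_ne_zero (by rw [htK]; exact ht0) (hne _ hj0))
    have h2 : (algebraMap R K (algebraMap O R t) / algebraMap R K (H j))⁻¹ =
        (algebraMap R K (H j) / algebraMap R K (H i)) *
          (algebraMap R K (H i) / algebraMap O K t) := by
      rw [htK]
      have := hne _ hiR
      have := hne _ hj0
      field_simp
    rw [h2]
    exact V.toSubring.mul_mem (hij j) (hAV h)
  -- the exceptional rings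
  have hq1 := hpar.xz
  have hq2 := hpar.zy
  have hq3 := hpar.x'y
  have hq4 := hpar.xyz
  obtain ⟨E2, hE2⟩ := exists_isEE (K := K) hpar.pz hpar.x_nz (Ideal.span {x, z})
    (Ideal.subset_span (by simp)) (Ideal.subset_span (by simp))
  obtain ⟨E1, hE1⟩ := exists_isEE (K := K) hpar.py hpar.z_ny (Ideal.span {z, y})
    (Ideal.subset_span (by simp)) (Ideal.subset_span (by simp))
  obtain ⟨E3, hE3⟩ := exists_isEE (K := K) hpar.py hpar.x'_ny
    (Ideal.span {x - algebraMap O R t, y})
    (Ideal.subset_span (by simp)) (Ideal.subset_span (by simp))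
  obtain ⟨BF, hBF⟩ := exists_isEE (K := K) hpar.pz hpar.x_nz (Ideal.span {x, y, z})
    (Ideal.subset_span (by simp)) (Ideal.subset_span (by simp))
  have hE2' : IsE x z E2 := hE2
  have hE1' : IsE z y E1 := hE1
  have hE3' : IsE (x - algebraMap O R t) y E3 := hE3
  obtain ⟨n2, hn2, hn2'⟩ := IsE.exists_min hpar.pz hpar.x_nz hpar.xz inferInstance hE2' H hH0
  obtain ⟨n1, hn1, hn1'⟩ := IsE.exists_min hpar.py hpar.z_ny hpar.zy inferInstance hE1' H hH0
  obtain ⟨n3, hn3, hn3'⟩ := IsE.exists_min hpar.py hpar.x'_ny hpar.x'y inferInstance hE3' H hH0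
  have hTxz : algebraMap O R t ∉ Ideal.span {x, z} := by
    intro h
    exact hpar.T_nxyz (Ideal.span_mono (by
      intro r hr
      simp only [Set.mem_insert_iff, Set.mem_singleton_iff] at hr ⊢
      tauto) h)
  have hTx'y : algebraMap O R t ∉ Ideal.span {x - algebraMap O R t, y} := by
    intro h
    exact hpar.T_nx'yz (Ideal.span_mono (by
      intro r hr
      simp only [Set.mem_insert_iff, Set.mem_singleton_iff] at hr ⊢
      tauto) h)
  have hn2pos : 1 ≤ n2 := by
    rcases Nat.eq_zero_or_pos n2 with h | h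
    · exfalso
      obtain ⟨j, hj⟩ := hn2'
      rw [h, pow_zero, div_one] at hj
      exact no_unit_of_isE (k := k) hpar.pz hpar.x_nz hpar.xz hTxz hd.ht hE2'
        ((hLR _).2 (isLR_E_xz hd hpar hE2')) j hj
    · exact h
  have hn3pos : 1 ≤ n3 := by
    rcases Nat.eq_zero_or_pos n3 with h | h
    · exfalso
      obtain ⟨j, hj⟩ := hn3'
      rw [h, pow_zero, div_one] at hj
      exact no_unit_of_isE (k := k) hpar.py hpar.x'_ny hpar.x'y hTx'y hd.ht hE3'
        ((hLR _).2 (isLR_E_x'y hd hpar hE3')) j hj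
    · exact h
  have hBFLR : IsLR k (fun j => algebraMap R K (H j)) BF := (hLR _).2 (isLR_BF hd hpar hBF)
  have hBFu := (isLR_regular hsm (IsLR.down (O := O) (k := k) hBFLR)).2.2
  have hn12 : n1 ≤ n2 := exponent_le (k := k) hd.ht hpar hH hLR hBFu hBF hBFLR hE1' hE2' hn1
    hn2 hn2'
  have hdiv : ∀ M : R, (M = y ^ n3 * z ^ n2 ∨ M = y ^ n3 * z ^ (n2 - 1) * x ∨
      M = y ^ (n3 - 1) * z ^ n2 * (x - algebraMap O R t)) →
      algebraMap R K M / algebraMap R K (H i) ∈ A := by
    intro M hM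
    obtain ⟨m1, m2, m3⟩ := monomials hpar hE1' hE2' hE3' hn12 hn2pos hn3pos M hM
    exact div_mem (k := k) hd.ht hpar hH hLR hA3 hALR hRA htprime htA hiR hijA hti hE1' hE2'
      hE3' hn1 hn2 hn3 hn1' hn2' hn3' M m1 m2 m3
  have hM0 := hdiv _ (Or.inl rfl)
  have hM1 := hdiv _ (Or.inr (Or.inl rfl))
  have hM2 := hdiv _ (Or.inr (Or.inr rfl))
  -- `g / M0 ∈ V`
  obtain ⟨q, a, b, hg⟩ := mod_tx hpar (IsE.mem_pow hpar.pz hpar.x_nz hpar.xz hE2' n2 _ (hn2 i))
    (IsE.mem_pow hpar.py hpar.x'_ny hpar.x'y hE3' n3 _ (hn3 i))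
  have hy0 : algebraMap R K y ≠ 0 := hne _ hpar.py.ne_zero
  have hz0 : algebraMap R K z ≠ 0 := hne _ hpar.pz.ne_zero
  have hx0 : algebraMap R K x ≠ 0 := hne _ hpar.px.ne_zero
  have hi0 : algebraMap R K (H i) ≠ 0 := hne _ hiR
  have hM00 : algebraMap R K (y ^ n3 * z ^ n2) ≠ 0 := by
    rw [map_mul, map_pow, map_pow]
    exact mul_ne_zero (pow_ne_zero _ hy0) (pow_ne_zero _ hz0)
  have hM0t : ¬ algebraMap O R t ∣ y ^ n3 * z ^ n2 := by
    intro h
    rcases hpar.pT.dvd_or_dvd h with h | h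
    · have h' := hpar.pT.dvd_of_dvd_pow h
      exact hpar.y_nTxz (Ideal.mem_of_dvd _ h' (Ideal.subset_span (by simp)))
    · have h' := hpar.pT.dvd_of_dvd_pow h
      exact hpar.z_nTxy (Ideal.mem_of_dvd _ h' (Ideal.subset_span (by simp)))
  have hyTx : y ∉ Ideal.span {algebraMap O R t, x} := by
    intro h
    exact hpar.y_nTxz (Ideal.span_mono (by
      intro r hr
      simp only [Set.mem_insert_iff, Set.mem_singleton_iff] at hr ⊢
      tauto) h)
  have hzTx : z ∉ Ideal.span {algebraMap O R t, x} := by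
    intro h
    exact hpar.z_nTxy (Ideal.span_mono (by
      intro r hr
      simp only [Set.mem_insert_iff, Set.mem_singleton_iff] at hr ⊢
      tauto) h)
  have hM0x : y ^ n3 * z ^ n2 ∉ Ideal.span {algebraMap O R t, x} := by
    intro h
    rcases hpar.Tx.mem_or_mem h with h | h
    · exact hyTx (hpar.Tx.mem_of_pow_mem _ h)
    · exact hzTx (hpar.Tx.mem_of_pow_mem _ h)
  have hgM0 : algebraMap R K (H i) / algebraMap R K (y ^ n3 * z ^ n2) ∈ V.toSubring := by
    have h1 := (hVt _ hM0t).1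
    have h2 := (hVx _ hM0x).1
    have h3 : algebraMap R K (H i) / algebraMap R K (y ^ n3 * z ^ n2) =
        algebraMap R K q + algebraMap R K a * (algebraMap R K (algebraMap O R t) /
          algebraMap R K (y ^ n3 * z ^ n2)) +
        algebraMap R K b * (algebraMap R K x / algebraMap R K (y ^ n3 * z ^ n2)) := by
      have h4 : algebraMap R K (H i) = algebraMap R K (y ^ n3 * z ^ n2) * algebraMap R K q +
          algebraMap R K (algebraMap O R t) * algebraMap R K a +
          algebraMap R K x * algebraMap R K b := by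
        rw [← map_mul, ← map_mul, ← map_mul, ← map_add, ← map_add, ← hg]
      rw [h4]
      generalize algebraMap R K (y ^ n3 * z ^ n2) = m0 at hM00 ⊢
      field_simp
      try ring
    rw [h3]
    exact V.toSubring.add_mem (V.toSubring.add_mem (hRV _) (V.toSubring.mul_mem (hRV _) h1))
      (V.toSubring.mul_mem (hRV _) h2)
  have hM0inv : algebraMap R K (H i) / algebraMap R K (y ^ n3 * z ^ n2) ∈ A := by
    have h1 := hAinv _ hM0 (div_ne_zero hM00 hi0) (by rw [inv_div]; exact hgM0)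
    rwa [inv_div] at h1
  have hmu : algebraMap R K x / algebraMap R K z ∈ A := by
    have h1 : algebraMap R K x / algebraMap R K z =
        (algebraMap R K (y ^ n3 * z ^ (n2 - 1) * x) / algebraMap R K (H i)) *
          (algebraMap R K (H i) / algebraMap R K (y ^ n3 * z ^ n2)) := by
      obtain ⟨m, rfl⟩ : ∃ m, n2 = m + 1 := ⟨n2 - 1, by omega⟩
      rw [Nat.add_sub_cancel]
      simp only [map_mul, map_pow]
      field_simp
      ring
    rw [h1]
    exact A.mul_mem hM1 hM0inv
  have hnu : algebraMap R K (x - algebraMap O R t) / algebraMap R K y ∈ A := by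
    have h1 : algebraMap R K (x - algebraMap O R t) / algebraMap R K y =
        (algebraMap R K (y ^ (n3 - 1) * z ^ n2 * (x - algebraMap O R t)) /
          algebraMap R K (H i)) *
          (algebraMap R K (H i) / algebraMap R K (y ^ n3 * z ^ n2)) := by
      obtain ⟨m, rfl⟩ : ∃ m, n3 = m + 1 := ⟨n3 - 1, by omega⟩
      rw [Nat.add_sub_cancel]
      simp only [map_mul, map_pow]
      field_simp
      ring
    rw [h1]
    exact A.mul_mem hM2 hM0inv
  have hmuN : NU A (algebraMap R K x / algebraMap R K z) := hNU _ hmu (hVx z hzTx)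
  have htV : NU V.toSubring (algebraMap R K (algebraMap O R t) / algebraMap R K y) :=
    hVt y (fun h => hpar.y_nTxz (Ideal.mem_of_dvd _ h (Ideal.subset_span (by simp))))
  have hnegV : NU V.toSubring (-(algebraMap R K (algebraMap O R t) / algebraMap R K y)) := by
    refine ⟨V.toSubring.neg_mem htV.1, fun h0 h1 => ?_⟩
    rw [inv_neg] at h1
    exact htV.2 (neg_ne_zero.1 h0) (by simpa using V.toSubring.neg_mem h1)
  have hnuN : NU A (algebraMap R K (x - algebraMap O R t) / algebraMap R K y) := by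
    refine hNU _ hnu ?_
    rw [map_sub, sub_div, sub_eq_add_neg]
    exact hVloc _ _ (hVx y hyTx) hnegV
  refine hunif _ _ _ _ (hNU _ hzA hzV) hmuN (hNU _ hyA hyV) hnuN ?_
  rw [map_sub, htK]
  field_simp
  ring

end

end Pool.Agent.Lib.MP_55c1e7_ag.D
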