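import Pool.Agent.Lib.MP_55c1e7_ag.D.C2

set_option autoImplicit false

namespace Pool.Agent.Lib.MP_55c1e7_ag.D

open Polynomial

variable {K : Type} [Field K]

theorem isLR_congr {R : Type} [CommRing R] [Algebra R K] {ι : Type} {h h' : ι → K} {c : K}
    (hc : c ≠ 0) (hh : ∀ j, h j = c * h' j) (B : Subring K) : IsLR R h B ↔ IsLR R h' B := by
  have hr : ∀ i j, h j / h i = h' j / h' i := by
    intro i j
    rw [hh i, hh j, mul_div_mul_left _ _ hc]
  unfold IsLR
  refine and_congr_right (fun _ => exists_congr (fun i => ?_))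
  have h1 : (fun j => h j / h i) = fun j => h' j / h' i := funext (hr i)
  rw [h1]
  simp only [hr i]
  have h2 : h i ≠ 0 ↔ h' i ≠ 0 := by
    rw [hh i]
    simp [hc]
  rw [h2]

section
variable {O k R : Type} [CommRing O] [IsDomain O] [IsDiscreteValuationRing O] [Field k]
  [Algebra O k] [IsFractionRing O k] [CommRing R] [IsRegularLocalRing R] [IsDomain R]
  [UniqueFactorizationMonoid R] [Algebra O R] [Algebra R K] [IsFractionRing R K] [Algebra O K]
  [IsScalarTower O R K] [Algebra k K] [IsScalarTower O k K]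
  {t : O} {x y z w1 w2 w3 : R}

/-- Box D, algebraic form: no model `s` of `K` over `O` with smooth charts has the local rings of `Y` as the local rings of its generic
fibre. -/
theorem dAlg (hd : RData t x y z w1 w2 w3) {N : ℕ} (s : Fin N → K) (hs : ∃ i, s i ≠ 0)
    (hsm : ∀ i, s i ≠ 0 → Algebra.Smooth O
      (Algebra.adjoin O (Set.range fun j => s j / s i)))
    (hLR : ∀ B : Subring K, IsLR k s B ↔
      IsLR k (hYR K (algebraMap O R t) x y z w1 w2 w3) B) : False := by
  obtain ⟨c, H, hc, hsH, hH⟩ := exists_coprime_family (R := R) s hs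
  have hr : ∀ i, (fun j => s j / s i) = fun j => algebraMap R K (H j) / algebraMap R K (H i) := by
    intro i
    funext j
    rw [hsH i, hsH j, mul_div_mul_left _ _ hc]
  refine dCore (K := K) (k := k) hd (H := H) ?_ hH ?_ ?_
  · obtain ⟨i, hi⟩ := hs
    refine ⟨i, fun h => hi ?_⟩
    rw [hsH i, h, map_zero, mul_zero]
  · intro i hi
    have h1 : s i ≠ 0 := by
      rw [hsH i]
      exact mul_ne_zero hc hi
    have h2 := hsm i h1
    rw [hr i] at h2
    exact h2
  · intro B
    rw [← isLR_congr hc hsH B]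
    exact hLR B

end

end Pool.Agent.Lib.MP_55c1e7_ag.D
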