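import Pool.Agent.Lib.MP_55c1e7_ag.D.G1

set_option autoImplicit false

namespace Pool.Agent.Lib.MP_55c1e7_ag.D

open Polynomial

variable {K : Type} [Field K]

section
variable {R : Type} [CommRing R] [IsDomain R] [Algebra R K] [FaithfulSMul R K] {a b : R}

omit [IsDomain R] in
theorem E1_mul_notMem (q : Ideal R) [hq : q.IsPrime] {f g : R[X]} (hf : ∃ i, f.coeff i ∉ q)
    (hg : ∃ i, g.coeff i ∉ q) : ∃ i, (f * g).coeff i ∉ q := by
  by_contra hcon
  have hcon' : ∀ i, (f * g).coeff i ∈ q := by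
    intro i
    by_contra h
    exact hcon ⟨i, h⟩
  have hP : (Ideal.map (C : R →+* R[X]) q).IsPrime := Ideal.isPrime_map_C_of_isPrime
  have h1 : f * g ∈ Ideal.map (C : R →+* R[X]) q := Ideal.mem_map_C_iff.mpr hcon'
  rcases hP.mem_or_mem h1 with h | h
  · obtain ⟨i, hi⟩ := hf
    exact hi (Ideal.mem_map_C_iff.mp h i)
  · obtain ⟨i, hi⟩ := hg
    exact hi (Ideal.mem_map_C_iff.mp h i)

omit [IsDomain R] in
theorem E1_one (q : Ideal R) [hq : q.IsPrime] : ∃ i, (1 : R[X]).coeff i ∉ q :=
  ⟨0, by rw [coeff_one_zero]; exact (Ideal.ne_top_iff_one q).mp hq.ne_top⟩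

/-- ROW E1 (existence). For a prime ideal `q` containing `a` and `b` the set of all `f(c)/g(c)`, `g ∉ q[X]`, `c = a/b`, is a local
ring with the obvious non-units. (`g ∉ q[X]` implies `g(c) ≠ 0` and more: `f(c) = g(c)` with `f ∈ q[X]` implies `g ∈ q[X]`, by K1 (d).
`q[X]` is prime: `Ideal.isPrime_map_C_of_isPrime`, `Ideal.mem_map_C_iff`.) -/
theorem exists_isEE (hb : Prime b) (hba : ¬ b ∣ a) (q : Ideal R) [hq : q.IsPrime] (ha : a ∈ q)
    (hbq : b ∈ q) : ∃ B : Subring K, IsEE q (algebraMap R K a / algebraMap R K b) B := by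
  have _ := hb
  have _ := hba
  have _ := ha
  have _ := hbq
  refine ⟨{ carrier := {u | ∃ f g : R[X], (∃ i, g.coeff i ∉ q) ∧
              u * aeval (algebraMap R K a / algebraMap R K b) g =
                aeval (algebraMap R K a / algebraMap R K b) f}
            mul_mem' := ?_
            one_mem' := ?_
            add_mem' := ?_
            zero_mem' := ?_
            neg_mem' := ?_ }, fun u => Iff.rfl⟩
  · rintro u v ⟨f, g, hg, h⟩ ⟨f', g', hg', h'⟩
    refine ⟨f * f', g * g', E1_mul_notMem q hg hg', ?_⟩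
    rw [map_mul, map_mul, ← h, ← h']
    ring
  · exact ⟨1, 1, E1_one q, by rw [one_mul]⟩
  · rintro u v ⟨f, g, hg, h⟩ ⟨f', g', hg', h'⟩
    refine ⟨f * g' + f' * g, g * g', E1_mul_notMem q hg hg', ?_⟩
    rw [map_mul, map_add, map_mul, map_mul, ← h, ← h']
    ring
  · exact ⟨0, 1, E1_one q, by rw [zero_mul, map_zero]⟩
  · rintro u ⟨f, g, hg, h⟩
    refine ⟨-f, g, hg, ?_⟩
    rw [map_neg, ← h]
    ring

theorem E1_ne (hb : Prime b) (hba : ¬ b ∣ a) {q : Ideal R} (ha : a ∈ q)
    (hbq : b ∈ q) {f : R[X]} (hf : ∃ i, f.coeff i ∉ q) :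
    aeval (algebraMap R K a / algebraMap R K b) f ≠ 0 := by
  intro h
  obtain ⟨i, hi⟩ := hf
  exact hi (coeff_mem_of_aeval_eq_zero hb hba q ha hbq f h i)

theorem E1_nu (hb : Prime b) (hba : ¬ b ∣ a) {q : Ideal R} [hq : q.IsPrime] (ha : a ∈ q)
    (hbq : b ∈ q) {B : Subring K} (hB : IsEE q (algebraMap R K a / algebraMap R K b) B)
    {u : K} {f g : R[X]} (hg : ∃ i, g.coeff i ∉ q)
    (h : u * aeval (algebraMap R K a / algebraMap R K b) g =
      aeval (algebraMap R K a / algebraMap R K b) f) :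
    NU B u ↔ ∀ i, f.coeff i ∈ q := by
  constructor
  · intro hu i
    by_contra hi
    have hf : ∃ i, f.coeff i ∉ q := ⟨i, hi⟩
    have hf0 := E1_ne (K := K) hb hba ha hbq hf
    have hu0 : u ≠ 0 := by
      rintro rfl
      rw [zero_mul] at h
      exact hf0 h.symm
    apply hu.2 hu0
    rw [hB u⁻¹]
    refine ⟨g, f, hf, ?_⟩
    rw [← h, ← mul_assoc, inv_mul_cancel₀ hu0, one_mul]
  · intro hf
    refine ⟨(hB u).mpr ⟨f, g, hg, h⟩, ?_⟩
    intro hu0 hinv
    obtain ⟨f', g', hg', h'⟩ := (hB u⁻¹).mp hinv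
    obtain ⟨i, hi⟩ := E1_mul_notMem q hg' hg
    have e : aeval (algebraMap R K a / algebraMap R K b) (g' * g - f * f') = 0 := by
      rw [map_sub, map_mul, map_mul, ← h, ← h']
      field_simp
      ring
    have h1 := coeff_mem_of_aeval_eq_zero hb hba q ha hbq _ e i
    have h2 : (f * f').coeff i ∈ q := by
      have : f * f' ∈ Ideal.map (C : R →+* R[X]) q :=
        Ideal.mul_mem_right _ _ (Ideal.mem_map_C_iff.mpr hf)
      exact Ideal.mem_map_C_iff.mp this i
    rw [coeff_sub] at h1
    have := q.add_mem h1 h2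
    rw [sub_add_cancel] at this
    exact hi this

theorem IsEE.loc (hb : Prime b) (hba : ¬ b ∣ a) {q : Ideal R} [hq : q.IsPrime] (ha : a ∈ q)
    (hbq : b ∈ q) {B : Subring K} (hB : IsEE q (algebraMap R K a / algebraMap R K b) B) :
    Loc B := by
  intro u v hu hv
  obtain ⟨f, g, hg, h⟩ := (hB u).mp hu.1
  obtain ⟨f', g', hg', h'⟩ := (hB v).mp hv.1
  have hf := (E1_nu hb hba ha hbq hB hg h).mp hu
  have hf' := (E1_nu hb hba ha hbq hB hg' h').mp hv
  have e : (u + v) * aeval (algebraMap R K a / algebraMap R K b) (g * g') =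
      aeval (algebraMap R K a / algebraMap R K b) (f * g' + f' * g) := by
    rw [map_mul, map_add, map_mul, map_mul, ← h, ← h']
    ring
  rw [E1_nu hb hba ha hbq hB (E1_mul_notMem q hg hg') e]
  apply Ideal.mem_map_C_iff.mp
  exact Ideal.add_mem _ (Ideal.mul_mem_right _ _ (Ideal.mem_map_C_iff.mpr hf))
    (Ideal.mul_mem_right _ _ (Ideal.mem_map_C_iff.mpr hf'))

/-- `f(c)` is a non-unit iff `f ∈ q[X]` -/
theorem IsEE.nu_iff (hb : Prime b) (hba : ¬ b ∣ a) {q : Ideal R} [hq : q.IsPrime] (ha : a ∈ q)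
    (hbq : b ∈ q) {B : Subring K} (hB : IsEE q (algebraMap R K a / algebraMap R K b) B)
    (f : R[X]) :
    NU B (aeval (algebraMap R K a / algebraMap R K b) f) ↔ ∀ i, f.coeff i ∈ q := by
  apply E1_nu hb hba ha hbq hB (E1_one q)
  rw [map_one, mul_one]

/-- the special case of constants -/
theorem IsEE.nu_algebraMap_iff (hb : Prime b) (hba : ¬ b ∣ a) {q : Ideal R} [hq : q.IsPrime]
    (ha : a ∈ q) (hbq : b ∈ q) {B : Subring K}
    (hB : IsEE q (algebraMap R K a / algebraMap R K b) B) (r : R) :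
    NU B (algebraMap R K r) ↔ r ∈ q := by
  have h := IsEE.nu_iff hb hba ha hbq hB (C r)
  rw [aeval_C] at h
  rw [h]
  constructor
  · intro h'
    have := h' 0
    rwa [coeff_C_zero] at this
  · intro hr i
    rw [coeff_C]
    split_ifs
    · exact hr
    · exact q.zero_mem

omit [IsDomain R] [FaithfulSMul R K] in
theorem IsEE.algebraMap_mem {q : Ideal R} [hq : q.IsPrime] {c : K} {B : Subring K}
    (hB : IsEE q c B) (r : R) : algebraMap R K r ∈ B := by
  rw [hB]
  exact ⟨C r, 1, E1_one q, by rw [map_one, mul_one, aeval_C]⟩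

omit [IsDomain R] [FaithfulSMul R K] in
theorem IsEE.c_mem {q : Ideal R} [hq : q.IsPrime] {c : K} {B : Subring K}
    (hB : IsEE q c B) : c ∈ B := by
  rw [hB]
  exact ⟨X, 1, E1_one q, by rw [map_one, mul_one, aeval_X]⟩

theorem IsEE.isLoc (hb : Prime b) (hba : ¬ b ∣ a) {q : Ideal R} [hq : q.IsPrime] (ha : a ∈ q)
    (hbq : b ∈ q) {B : Subring K} (hB : IsEE q (algebraMap R K a / algebraMap R K b) B) :
    IsLoc (Algebra.adjoin R {(algebraMap R K a / algebraMap R K b : K)}) B := by
  have hmem : ∀ f : R[X], aeval (algebraMap R K a / algebraMap R K b) f ∈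
      Algebra.adjoin R {(algebraMap R K a / algebraMap R K b : K)} := by
    intro f
    rw [Algebra.adjoin_singleton_eq_range_aeval]
    exact ⟨f, rfl⟩
  have hB1 : ∀ f : R[X], aeval (algebraMap R K a / algebraMap R K b) f ∈ B := by
    intro f
    rw [hB]
    exact ⟨f, 1, E1_one q, by rw [map_one, mul_one]⟩
  constructor
  · rintro ⟨s, hs⟩
    have hs' := hs
    rw [Algebra.adjoin_singleton_eq_range_aeval] at hs'
    obtain ⟨f, hf⟩ := hs'
    change s ∈ B
    rw [← hf]
    exact hB1 f
  · intro u hu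
    obtain ⟨f, g, hg, h⟩ := (hB u).mp hu
    refine ⟨⟨_, hmem f⟩, ⟨_, hmem g⟩, ?_, h⟩
    have hg0 := E1_ne (K := K) hb hba ha hbq hg
    refine ⟨hg0, hB1 g, ?_⟩
    rw [hB]
    refine ⟨1, g, hg, ?_⟩
    rw [map_one]
    exact inv_mul_cancel₀ hg0








omit [IsDomain R] [FaithfulSMul R K] in
private theorem E2_noeth [IsNoetherianRing R] (c : K) :
    IsNoetherianRing (Algebra.adjoin R {c}) := by
  have hsurj : Function.Surjective
      ((aeval (⟨c, Algebra.subset_adjoin rfl⟩ : Algebra.adjoin R {c})) :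
        R[X] →ₐ[R] Algebra.adjoin R {c}) := by
    rintro ⟨s, hs⟩
    have hs' := hs
    rw [Algebra.adjoin_singleton_eq_range_aeval] at hs'
    obtain ⟨f, hf⟩ := hs'
    refine ⟨f, ?_⟩
    apply Subtype.ext
    have h1 := Polynomial.aeval_algebraMap_apply K
      (⟨c, Algebra.subset_adjoin rfl⟩ : Algebra.adjoin R {c}) f
    have h2 : (algebraMap (Algebra.adjoin R {c}) K) ⟨c, Algebra.subset_adjoin rfl⟩ = c := rfl
    rw [h2] at h1
    exact h1.symm.trans hf
  exact isNoetherianRing_of_surjective _ _ _ hsurj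

private theorem E2_key [IsNoetherianRing R] (hb : Prime b) (hba : ¬ b ∣ a)
    (hP : (Ideal.span {a, b}).IsPrime) {E : Subring K}
    (hE : IsE a b E) (r : R) (hr : r ≠ 0) :
    ∃ n : ℕ, Un E (algebraMap R K r / algebraMap R K b ^ n) := by
  have hinj : Function.Injective (algebraMap R K) := FaithfulSMul.algebraMap_injective R K
  have := E2_noeth (R := R) (algebraMap R K a / algebraMap R K b : K)
  have hprime := prime_adjoin (K := K) hb hba hP
  have hbK : algebraMap R K b ≠ 0 := by
    intro h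
    exact hb.ne_zero (hinj (by rw [h, map_zero]))
  have hrA : algebraMap R (Algebra.adjoin R {(algebraMap R K a / algebraMap R K b : K)}) r ≠ 0 := by
    intro h
    apply hr
    apply hinj
    have h2 := congrArg (Subtype.val) h
    rw [map_zero]
    exact h2
  obtain ⟨n, s, hns, hrs⟩ := WfDvdMonoid.max_power_factor hrA hprime.irreducible
  have hs' : (s : K) ∈ (aeval (R := R) (algebraMap R K a / algebraMap R K b : K)).range := by
    rw [← Algebra.adjoin_singleton_eq_range_aeval]
    exact s.2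
  obtain ⟨f, hf⟩ := hs'
  have hf' : (s : K) = aeval (algebraMap R K a / algebraMap R K b) f := hf.symm
  have hcoef : ¬ ∀ i, f.coeff i ∈ Ideal.span {a, b} := fun h =>
    hns ((dvd_adjoin_iff (K := K) hb hba s f hf').mpr h)
  have := hP
  have ha : a ∈ Ideal.span {a, b} := Ideal.subset_span (by simp)
  have hbm : b ∈ Ideal.span {a, b} := Ideal.subset_span (by simp)
  have hnu : ¬ NU E (aeval (algebraMap R K a / algebraMap R K b) f) := fun h =>
    hcoef ((IsEE.nu_iff hb hba ha hbm hE f).mp h)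
  have hmem : aeval (algebraMap R K a / algebraMap R K b) f ∈ E := by
    have hE' : IsEE (Ideal.span {a, b}) (algebraMap R K a / algebraMap R K b) E := hE
    refine (hE' _).mpr ⟨f, 1, ⟨0, ?_⟩, by simp⟩
    simp only [coeff_one_zero]
    exact (Ideal.ne_top_iff_one _).mp hP.ne_top
  have hun : Un E (aeval (algebraMap R K a / algebraMap R K b) f) := by
    rcases (mem_iff_un_or_nu E _).mp hmem with h | h
    · exact h
    · exact absurd h hnu
  refine ⟨n, ?_⟩
  have h2 := congrArg (Subtype.val) hrs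
  have h3 : algebraMap R K r = algebraMap R K b ^ n * (s : K) := by
    have e1 : ((algebraMap R (Algebra.adjoin R {(algebraMap R K a / algebraMap R K b : K)}) r :
      Algebra.adjoin R {(algebraMap R K a / algebraMap R K b : K)}) : K) = algebraMap R K r := rfl
    rw [← e1, h2]
    push_cast
    rfl
  rw [h3, mul_div_cancel_left₀ _ (pow_ne_zero n hbK), hf']
  exact hun

/-- ROW E2. `E(a,b)` is a DVR with uniformizer `b`: write `q = f(c)/g(c)`; every `f(c) ≠ 0` is `b^n f'(c)` with
`f'(c)` not divisible by `b` in `R[c]` (`R[c]` is a noetherian domain, `b` is not a unit: `Ideal.iInf_pow_eq_bot_of_isDomain`), and an element `f'(c)` of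
`R[c]` not divisible by `b` is a unit of `E` (`dvd_adjoin_iff`, `IsEE.nu_iff`). -/
theorem IsE.dvr [IsNoetherianRing R] (hb : Prime b) (hba : ¬ b ∣ a)
    (hP : (Ideal.span {a, b}).IsPrime) (hfrac : IsFractionRing R K) {E : Subring K}
    (hE : IsE a b E) :
    NU E (algebraMap R K b) ∧ ∀ q : K, q ≠ 0 → ∃ n : ℤ, Un E (q / algebraMap R K b ^ n) := by
  have hinj : Function.Injective (algebraMap R K) := FaithfulSMul.algebraMap_injective R K
  have hbK : algebraMap R K b ≠ 0 := by
    intro h
    exact hb.ne_zero (hinj (by rw [h, map_zero]))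
  constructor
  · have := hP
    exact (IsEE.nu_algebraMap_iff hb hba (Ideal.subset_span (by simp))
      (Ideal.subset_span (by simp)) hE b).mpr (Ideal.subset_span (by simp))
  · intro q hq
    obtain ⟨r, s, hs, hrs⟩ := IsFractionRing.div_surjective (A := R) q
    have hs0 : s ≠ 0 := nonZeroDivisors.ne_zero hs
    have hr0 : r ≠ 0 := by
      intro h
      apply hq
      rw [← hrs, h, map_zero, zero_div]
    obtain ⟨n, hn⟩ := E2_key (K := K) hb hba hP hE r hr0
    obtain ⟨m, hm⟩ := E2_key (K := K) hb hba hP hE s hs0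
    refine ⟨(n : ℤ) - (m : ℤ), ?_⟩
    have h1 := Un.div hn hm
    have hsK : algebraMap R K s ≠ 0 := by
      intro h
      exact hs0 (hinj (by rw [h, map_zero]))
    have h2 : q / algebraMap R K b ^ ((n : ℤ) - (m : ℤ)) =
        algebraMap R K r / algebraMap R K b ^ n / (algebraMap R K s / algebraMap R K b ^ m) := by
      rw [← hrs, zpow_sub₀ hbK, zpow_natCast, zpow_natCast]
      field_simp
    rw [h2]
    exact h1


theorem E3_repr (hb0 : b ≠ 0) (n : ℕ) (f : R) (hf : f ∈ (Ideal.span {a, b}) ^ n) :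
    ∃ F : R[X], F.natDegree ≤ n ∧ algebraMap R K f =
      algebraMap R K b ^ n * aeval (algebraMap R K a / algebraMap R K b) F := by
  have hbK : algebraMap R K b ≠ 0 := by
    intro h
    exact hb0 (FaithfulSMul.algebraMap_injective R K (by rw [h, map_zero]))
  induction n generalizing f with
  | zero => exact ⟨C f, by simp, by simp⟩
  | succ n ih =>
    rw [pow_succ'] at hf
    refine Submodule.mul_induction_on hf ?_ ?_
    · intro i hi j hj
      obtain ⟨x, y, hxy⟩ := Ideal.mem_span_pair.mp hi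
      obtain ⟨F, hF1, hF2⟩ := ih j hj
      refine ⟨(C x * X + C y) * F, ?_, ?_⟩
      · refine (Polynomial.natDegree_mul_le).trans ?_
        have h1 : (C x * X + C y : R[X]).natDegree ≤ 1 := Polynomial.natDegree_linear_le
        omega
      · rw [map_mul, hF2, ← hxy, map_mul (aeval _), map_add, map_add, map_mul, map_mul, map_mul,
          aeval_C, aeval_C, aeval_X]
        field_simp
        ring
    · intro p q hp hq
      obtain ⟨F, hF1, hF2⟩ := hp
      obtain ⟨G, hG1, hG2⟩ := hq
      refine ⟨F + G, (Polynomial.natDegree_add_le _ _).trans (max_le hF1 hG1), ?_⟩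
      rw [map_add, hF2, hG2, map_add]
      ring

theorem E3_conv (hb0 : b ≠ 0) (n : ℕ) (f : R) (F : R[X]) (hF : F.natDegree ≤ n)
    (hI : ∀ i, F.coeff i ∈ Ideal.span {a, b})
    (hf : algebraMap R K f =
      algebraMap R K b ^ n * aeval (algebraMap R K a / algebraMap R K b) F) :
    f ∈ (Ideal.span {a, b}) ^ (n + 1) := by
  have hbK : algebraMap R K b ≠ 0 := by
    intro h
    exact hb0 (FaithfulSMul.algebraMap_injective R K (by rw [h, map_zero]))
  have haI : a ∈ Ideal.span {a, b} := Ideal.subset_span (by simp)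
  have hbI : b ∈ Ideal.span {a, b} := Ideal.subset_span (by simp)
  have h1 : f = ∑ i ∈ Finset.range (n + 1), F.coeff i * (a ^ i * b ^ (n - i)) := by
    apply FaithfulSMul.algebraMap_injective R K
    rw [hf, Polynomial.aeval_eq_sum_range' (Nat.lt_succ_of_le hF), map_sum, Finset.mul_sum]
    refine Finset.sum_congr rfl ?_
    intro i hi
    have hin : i ≤ n := Nat.lt_succ_iff.mp (Finset.mem_range.mp hi)
    rw [map_mul, map_mul, map_pow, map_pow, Algebra.smul_def, div_pow]
    have h2 : algebraMap R K b ^ n = algebraMap R K b ^ i * algebraMap R K b ^ (n - i) := by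
      rw [← pow_add, Nat.add_sub_cancel' hin]
    rw [h2]
    field_simp
  rw [h1]
  refine Ideal.sum_mem _ ?_
  intro i hi
  have hin : i ≤ n := Nat.lt_succ_iff.mp (Finset.mem_range.mp hi)
  have h3 : (Ideal.span {a, b}) ^ (n + 1) =
      Ideal.span {a, b} * ((Ideal.span {a, b}) ^ i * (Ideal.span {a, b}) ^ (n - i)) := by
    rw [← pow_add, Nat.add_sub_cancel' hin, pow_succ']
  rw [h3]
  exact Ideal.mul_mem_mul (hI i) (Ideal.mul_mem_mul (Ideal.pow_mem_pow haI i)
    (Ideal.pow_mem_pow hbI (n - i)))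

/-- ROW E3. `f / b^n ∈ E(a,b)` implies `f ∈ (a,b)^n`. Induction on `n`: `f = ∑_{i<n} c_i a^i b^(n-1-i)` (elements of `(a,b)^(n-1)`,
use e.g. `Ideal.span_pair_pow`-type lemmas or prove by induction that every element of `(a,b)^n` is `b^n F(c)` with
`F ∈ R[X]`, `natDegree F ≤ n`, and conversely that `b^n F(c) ∈ (a,b)^n` for `natDegree F ≤ n`), `f / b^(n-1) = F(c)`, and
`F(c)/b ∈ E` gives that `F(c)` is a non-unit of `E`, so all coefficients of `F` are in `(a,b)`. -/
theorem IsE.mem_pow (hb : Prime b) (hba : ¬ b ∣ a) (hP : (Ideal.span {a, b}).IsPrime)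
    {E : Subring K} (hE : IsE a b E) (n : ℕ) (f : R)
    (h : algebraMap R K f / algebraMap R K b ^ n ∈ E) : f ∈ (Ideal.span {a, b}) ^ n := by
  have hb0 : b ≠ 0 := hb.ne_zero
  have hbK : algebraMap R K b ≠ 0 := by
    intro h
    exact hb0 (FaithfulSMul.algebraMap_injective R K (by rw [h, map_zero]))
  have haI : a ∈ Ideal.span {a, b} := Ideal.subset_span (by simp)
  have hbI : b ∈ Ideal.span {a, b} := Ideal.subset_span (by simp)
  induction n with
  | zero => simp
  | succ n ih =>
    have hbE : algebraMap R K b ∈ E := IsEE.algebraMap_mem (hq := hP) hE b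
    have h1 : algebraMap R K f / algebraMap R K b ^ n ∈ E := by
      have h2 := E.mul_mem h hbE
      have h3 : algebraMap R K f / algebraMap R K b ^ (n + 1) * algebraMap R K b =
          algebraMap R K f / algebraMap R K b ^ n := by
        rw [pow_succ]
        field_simp
      rwa [h3] at h2
    obtain ⟨F, hF1, hF2⟩ := E3_repr (K := K) hb0 n f (ih h1)
    have hNb : NU E (algebraMap R K b) :=
      (IsEE.nu_algebraMap_iff hb hba (hq := hP) haI hbI hE b).mpr hbI
    have h4 : NU E (aeval (algebraMap R K a / algebraMap R K b) F) := by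
      have h5 := NU.mul hNb h
      have h6 : algebraMap R K b * (algebraMap R K f / algebraMap R K b ^ (n + 1)) =
          aeval (algebraMap R K a / algebraMap R K b) F := by
        rw [hF2, pow_succ]
        field_simp
      rwa [h6] at h5
    have h7 := (IsEE.nu_iff hb hba (hq := hP) haI hbI hE F).mp h4
    exact E3_conv (K := K) hb0 n f F hF1 h7 hF2

theorem mem_pow_pair {S : Type} [CommRing S] {a b f : S} {n : ℕ}
    (h : f ∈ (Ideal.span {a, b}) ^ n) : ∃ g h : S, f = b ^ n * g + a * h := by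
  have key : ∀ m : ℕ, (Ideal.span {a, b}) ^ m ≤ Ideal.span {b ^ m, a} := by
    intro m
    induction m with
    | zero =>
      rw [pow_zero, pow_zero]
      intro x _
      exact Ideal.mem_span_pair.mpr ⟨x, 0, by ring⟩
    | succ m ih =>
      rw [pow_succ, Ideal.mul_le]
      intro r hr s hs
      obtain ⟨x, y, hxy⟩ := Ideal.mem_span_pair.mp (ih hr)
      obtain ⟨z, w, hzw⟩ := Ideal.mem_span_pair.mp hs
      refine Ideal.mem_span_pair.mpr ⟨x * w, x * b ^ m * z + y * (z * a + w * b), ?_⟩
      rw [← hxy, ← hzw]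
      ring
  obtain ⟨x, y, hxy⟩ := Ideal.mem_span_pair.mp (key n h)
  exact ⟨x, y, by rw [← hxy]; ring⟩



/-- ROW E4. The common denominator exponent: a finite family of elements of `R`, not all zero. -/
theorem IsE.exists_min [IsNoetherianRing R] (hb : Prime b) (hba : ¬ b ∣ a)
    (hP : (Ideal.span {a, b}).IsPrime) (hfrac : IsFractionRing R K) {E : Subring K}
    (hE : IsE a b E) {ι : Type} [Finite ι] (H : ι → R) (hH : ∃ i, H i ≠ 0) :
    ∃ n : ℕ, (∀ i, algebraMap R K (H i) / algebraMap R K b ^ n ∈ E) ∧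
      ∃ i, Un E (algebraMap R K (H i) / algebraMap R K b ^ n) := by
  classical
  have hb0 : b ≠ 0 := hb.ne_zero
  have hbK : algebraMap R K b ≠ 0 := by
    intro h
    exact hb0 (FaithfulSMul.algebraMap_injective R K (by rw [h, map_zero]))
  have hbE : algebraMap R K b ∈ E := IsEE.algebraMap_mem (hq := hP) hE b
  obtain ⟨hNb, hdvr⟩ := IsE.dvr hb hba hP hfrac hE
  -- exponents are natural numbers
  have hex : ∀ i, H i ≠ 0 → ∃ n : ℕ, Un E (algebraMap R K (H i) / algebraMap R K b ^ n) := by
    intro i hi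
    have hiK : algebraMap R K (H i) ≠ 0 := by
      intro h
      exact hi (FaithfulSMul.algebraMap_injective R K (by rw [h, map_zero]))
    obtain ⟨m, hm⟩ := hdvr _ hiK
    obtain ⟨n, rfl | rfl⟩ := Int.eq_nat_or_neg m
    · exact ⟨n, by simpa using hm⟩
    · rcases n with _ | n
      · exact ⟨0, by simpa using hm⟩
      · exfalso
        have h1 : NU E (algebraMap R K b * (algebraMap R K b ^ n * algebraMap R K (H i))) :=
          NU.mul hNb (E.mul_mem (E.pow_mem hbE n) (IsEE.algebraMap_mem (hq := hP) hE (H i)))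
        have h2 : algebraMap R K (H i) / algebraMap R K b ^ (-((n + 1 : ℕ) : ℤ)) =
            algebraMap R K b * (algebraMap R K b ^ n * algebraMap R K (H i)) := by
          rw [zpow_neg, zpow_natCast, div_inv_eq_mul, pow_succ]
          ring
        rw [h2] at hm
        exact not_un_of_nu h1 hm
  have hex2 : ∃ n : ℕ, ∃ i, Un E (algebraMap R K (H i) / algebraMap R K b ^ n) := by
    obtain ⟨i, hi⟩ := hH
    obtain ⟨n, hn⟩ := hex i hi
    exact ⟨n, i, hn⟩
  refine ⟨Nat.find hex2, ?_, Nat.find_spec hex2⟩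
  intro i
  by_cases hi : H i = 0
  · rw [hi, map_zero, zero_div]
    exact E.zero_mem
  · obtain ⟨n, hn⟩ := hex i hi
    have hle : Nat.find hex2 ≤ n := Nat.find_min' hex2 ⟨i, hn⟩
    have h3 : algebraMap R K (H i) / algebraMap R K b ^ (Nat.find hex2) =
        algebraMap R K (H i) / algebraMap R K b ^ n *
          algebraMap R K b ^ (n - Nat.find hex2) := by
      have h4 : algebraMap R K b ^ n =
          algebraMap R K b ^ (Nat.find hex2) * algebraMap R K b ^ (n - Nat.find hex2) := by
        rw [← pow_add, Nat.add_sub_cancel' hle]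
      rw [h4]
      field_simp
    rw [h3]
    exact E.mul_mem hn.2.1 (E.pow_mem hbE _)


end

end Pool.Agent.Lib.MP_55c1e7_ag.D
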