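import Pool.Agent.Lib.MP_55c1e7_ag.D.Basic

set_option autoImplicit false

namespace Pool.Agent.Lib.MP_55c1e7_ag.D

/-- `T, x, y, z` behave like a regular system of parameters of a 4-dimensional regular local ring. -/
def Par {R : Type} [CommRing R] (T x y z : R) : Prop :=
  ∀ s : Set (Fin 4), (Ideal.span (![T, x, y, z] '' s)).IsPrime ∧
    ∀ i, i ∉ s → ![T, x, y, z] i ∉ Ideal.span (![T, x, y, z] '' s)

/-- ROW PAR. The facts used below (`x' = x - T`). All by specialising `h` or `h'` to a subset of `Fin 4`, e.g. `{1, 3}` for `(x,z)`. -/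
structure ParFacts {R : Type} [CommRing R] (T x y z : R) : Prop where
  pT : Prime T
  px : Prime x
  px' : Prime (x - T)
  py : Prime y
  pz : Prime z
  Tx : (Ideal.span {T, x}).IsPrime
  Txz : (Ideal.span {T, x, z}).IsPrime
  Txy : (Ideal.span {T, x, y}).IsPrime
  xz : (Ideal.span {x, z}).IsPrime
  zx : (Ideal.span {z, x}).IsPrime
  zy : (Ideal.span {z, y}).IsPrime
  yz : (Ideal.span {y, z}).IsPrime
  x'y : (Ideal.span {x - T, y}).IsPrime
  yx' : (Ideal.span {y, x - T}).IsPrime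
  xyz : (Ideal.span {x, y, z}).IsPrime
  xy : (Ideal.span {x, y}).IsPrime
  zx' : (Ideal.span {z, x - T}).IsPrime
  z_nxy : z ∉ Ideal.span {x, y}
  y_nzx' : y ∉ Ideal.span {z, x - T}
  x_nT : ¬ T ∣ x
  z_nTxy : z ∉ Ideal.span {T, x, y}
  y_nTxz : y ∉ Ideal.span {T, x, z}
  y_nxz : y ∉ Ideal.span {x, z}
  x_nzy : x ∉ Ideal.span {z, y}
  x'_nxyz : x - T ∉ Ideal.span {x, y, z}
  x_nx'yz : x ∉ Ideal.span {x - T, y, z}
  T_nxyz : T ∉ Ideal.span {x, y, z}
  T_nx'yz : T ∉ Ideal.span {x - T, y, z}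
  z_nx'y : z ∉ Ideal.span {x - T, y}
  x_ny : ¬ y ∣ x
  x_nz : ¬ z ∣ x
  y_nz : ¬ z ∣ y
  z_ny : ¬ y ∣ z
  z_nx : ¬ x ∣ z
  y_nx : ¬ x ∣ y
  x'_ny : ¬ y ∣ x - T
  y_nx' : ¬ x - T ∣ y
  z_nx' : ¬ x - T ∣ z
  x'_nz : ¬ z ∣ x - T

private theorem PAR_pr {R : Type} [CommRing R] {T x y z : R} (h : Par T x y z) (s : Set (Fin 4))
    {t : Set R} (e : ![T, x, y, z] '' s = t) : (Ideal.span t).IsPrime := by
  subst e
  exact (h s).1

private theorem PAR_ni {R : Type} [CommRing R] {T x y z : R} (h : Par T x y z) (s : Set (Fin 4))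
    (i : Fin 4) {t : Set R} {a : R} (hi : i ∉ s) (e : ![T, x, y, z] '' s = t)
    (ea : ![T, x, y, z] i = a) : a ∉ Ideal.span t := by
  subst e
  subst ea
  exact (h s).2 i hi

private theorem PAR_ne {R : Type} [CommRing R] {T x y z : R} (h : Par T x y z)
    (i : Fin 4) {a : R} (ea : ![T, x, y, z] i = a) : a ≠ 0 := by
  intro h0
  have h1 : a ∉ Ideal.span (∅ : Set R) :=
    PAR_ni h ∅ i (by simp) (by simp) ea
  apply h1
  rw [h0]
  exact Ideal.zero_mem _

private theorem PAR_prime {R : Type} [CommRing R] {T x y z : R} (h : Par T x y z)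
    (i : Fin 4) {a : R} (ea : ![T, x, y, z] i = a) : Prime a := by
  have h1 : (Ideal.span {a}).IsPrime := by
    refine PAR_pr h {i} ?_
    rw [Set.image_singleton, ea]
  exact (Ideal.span_singleton_prime (PAR_ne h i ea)).mp h1

private theorem PAR_nd {R : Type} [CommRing R] {T x y z : R} (h : Par T x y z)
    (i j : Fin 4) {a b : R} (hij : j ≠ i) (ea : ![T, x, y, z] i = a)
    (eb : ![T, x, y, z] j = b) : ¬ a ∣ b := by
  intro hd
  have h1 : b ∉ Ideal.span {a} := by
    refine PAR_ni h {i} j (by simpa using hij) ?_ eb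
    rw [Set.image_singleton, ea]
  exact h1 (Ideal.mem_span_singleton.mpr hd)

theorem parFacts {R : Type} [CommRing R] [IsDomain R] {T x y z : R} (h : Par T x y z)
    (h' : Par T (x - T) y z) : ParFacts T x y z := by
  have Tn1 : T ∉ Ideal.span {x, y, z} :=
    PAR_ni h {1, 2, 3} 0 (by simp) (by simp [Set.image_insert_eq]) (by simp)
  have Tn2 : T ∉ Ideal.span {x - T, y, z} :=
    PAR_ni h' {1, 2, 3} 0 (by simp) (by simp [Set.image_insert_eq]) (by simp)
  exact {
    pT := PAR_prime h 0 (by simp)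
    px := PAR_prime h 1 (by simp)
    px' := PAR_prime h' 1 (by simp)
    py := PAR_prime h 2 (by simp)
    pz := PAR_prime h 3 (by simp)
    Tx := PAR_pr h {0, 1} (by simp [Set.image_insert_eq])
    Txz := PAR_pr h {0, 1, 3} (by simp [Set.image_insert_eq])
    Txy := PAR_pr h {0, 1, 2} (by simp [Set.image_insert_eq])
    xz := PAR_pr h {1, 3} (by simp [Set.image_insert_eq])
    zx := PAR_pr h {3, 1} (by simp [Set.image_insert_eq])
    zy := PAR_pr h {3, 2} (by simp [Set.image_insert_eq])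
    yz := PAR_pr h {2, 3} (by simp [Set.image_insert_eq])
    x'y := PAR_pr h' {1, 2} (by simp [Set.image_insert_eq])
    yx' := PAR_pr h' {2, 1} (by simp [Set.image_insert_eq])
    xyz := PAR_pr h {1, 2, 3} (by simp [Set.image_insert_eq])
    xy := PAR_pr h {1, 2} (by simp [Set.image_insert_eq])
    zx' := PAR_pr h' {3, 1} (by simp [Set.image_insert_eq])
    z_nxy := PAR_ni h {1, 2} 3 (by simp) (by simp [Set.image_insert_eq]) (by simp)
    y_nzx' := PAR_ni h' {3, 1} 2 (by simp) (by simp [Set.image_insert_eq]) (by simp)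
    x_nT := PAR_nd h 0 1 (by simp) (by simp) (by simp)
    z_nTxy := PAR_ni h {0, 1, 2} 3 (by simp) (by simp [Set.image_insert_eq]) (by simp)
    y_nTxz := PAR_ni h {0, 1, 3} 2 (by simp) (by simp [Set.image_insert_eq]) (by simp)
    y_nxz := PAR_ni h {1, 3} 2 (by simp) (by simp [Set.image_insert_eq]) (by simp)
    x_nzy := PAR_ni h {3, 2} 1 (by simp) (by simp [Set.image_insert_eq]) (by simp)
    x'_nxyz := by
      intro hm
      apply Tn1
      have hx : x ∈ Ideal.span {x, y, z} := Ideal.subset_span (by simp)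
      have := (Ideal.span {x, y, z}).sub_mem hx hm
      simpa using this
    x_nx'yz := by
      intro hm
      apply Tn2
      have hx : x - T ∈ Ideal.span {x - T, y, z} := Ideal.subset_span (by simp)
      have := (Ideal.span {x - T, y, z}).sub_mem hm hx
      simpa using this
    T_nxyz := Tn1
    T_nx'yz := Tn2
    z_nx'y := PAR_ni h' {1, 2} 3 (by simp) (by simp [Set.image_insert_eq]) (by simp)
    x_ny := PAR_nd h 2 1 (by simp) (by simp) (by simp)
    x_nz := PAR_nd h 3 1 (by simp) (by simp) (by simp)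
    y_nz := PAR_nd h 3 2 (by simp) (by simp) (by simp)
    z_ny := PAR_nd h 2 3 (by simp) (by simp) (by simp)
    z_nx := PAR_nd h 1 3 (by simp) (by simp) (by simp)
    y_nx := PAR_nd h 1 2 (by simp) (by simp) (by simp)
    x'_ny := PAR_nd h' 2 1 (by simp) (by simp) (by simp)
    y_nx' := PAR_nd h' 1 2 (by simp) (by simp) (by simp)
    z_nx' := PAR_nd h' 1 3 (by simp) (by simp) (by simp)
    x'_nz := PAR_nd h' 3 1 (by simp) (by simp) (by simp) }


end Pool.Agent.Lib.MP_55c1e7_ag.D
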