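import Pool.Agent.Lib.MP_55c1e7_ag.D.LR
import Pool.Agent.Lib.MP_55c1e7_ag.D.E1
import Pool.Agent.Lib.MP_55c1e7_ag.D.Par

set_option autoImplicit false

namespace Pool.Agent.Lib.MP_55c1e7_ag.D

open Polynomial

variable {K : Type} [Field K]

/-- The list of the curve `w^2 = x^4 + 1`. -/
def fE (x w : K) : Fin 4 → K := ![1, x, x ^ 2, w]

def g1 (x z : K) : Fin 3 → K := ![x, z, x * z]

def g2 (x y z : K) : Fin 5 → K := ![x * y, x * y * z, y * z, x * z, z]

def g3 (x' x y z : K) : Fin 4 → K := ![x' * z, x' * y * z, x * y, x * y * z]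

/-- The list of `Y` (a right nested product of lists). -/
def hY (x' x y z w1 w2 w3 : K) : Fin 4 × (Fin 4 × (Fin 4 × (Fin 3 × (Fin 5 × Fin 4)))) → K :=
  fun p => fE x w1 p.1 * (fE y w2 p.2.1 * (fE z w3 p.2.2.1 *
    (g1 x z p.2.2.2.1 * (g2 x y z p.2.2.2.2.1 * g3 x' x y z p.2.2.2.2.2))))

private theorem F0a_mem {ι κ : Type} (B : Subring K) (h : ι → K) (m : κ → K) (i : ι) (j : κ)
    (hi : h i ≠ 0) (hj : m j ≠ 0) :
    (∀ p : ι × κ, h p.1 * m p.2 / (h i * m j) ∈ B) ↔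
      (∀ a, h a / h i ∈ B) ∧ (∀ b, m b / m j ∈ B) := by
  constructor
  · intro H
    refine ⟨fun a => ?_, fun b => ?_⟩
    · have h1 := H (a, j)
      rwa [mul_div_mul_right _ _ hj] at h1
    · have h1 := H (i, b)
      rwa [mul_div_mul_left _ _ hi] at h1
  · rintro ⟨H1, H2⟩ ⟨a, b⟩
    change h a * m b / (h i * m j) ∈ B
    rw [mul_div_mul_comm]
    exact B.mul_mem (H1 a) (H2 b)

private theorem F0a_adj {k : Type} [Field k] [Algebra k K] {ι κ : Type} (h : ι → K) (m : κ → K)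
    (i : ι) (j : κ) (hi : h i ≠ 0) (hj : m j ≠ 0) :
    Algebra.adjoin k (Set.range fun p : ι × κ => h p.1 * m p.2 / (h i * m j)) =
      Algebra.adjoin k (Set.range (fun a => h a / h i) ∪ Set.range (fun b => m b / m j)) := by
  apply le_antisymm
  · apply Algebra.adjoin_le
    rintro _ ⟨⟨a, b⟩, rfl⟩
    change h a * m b / (h i * m j) ∈ Algebra.adjoin k
      (Set.range (fun a => h a / h i) ∪ Set.range (fun b => m b / m j))
    rw [mul_div_mul_comm]
    exact Subalgebra.mul_mem _ (Algebra.subset_adjoin (Or.inl ⟨a, rfl⟩))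
      (Algebra.subset_adjoin (Or.inr ⟨b, rfl⟩))
  · apply Algebra.adjoin_le
    rintro _ (⟨a, rfl⟩ | ⟨b, rfl⟩)
    · apply Algebra.subset_adjoin
      refine ⟨(a, j), ?_⟩
      change h a * m j / (h i * m j) = h a / h i
      rw [mul_div_mul_right _ _ hj]
    · apply Algebra.subset_adjoin
      refine ⟨(i, b), ?_⟩
      change h i * m b / (h i * m j) = m b / m j
      rw [mul_div_mul_left _ _ hi]

private theorem F0a_cong {k : Type} [Field k] [Algebra k K] {T T' : Set K} (X : Set K)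
    (h : Algebra.adjoin k T = Algebra.adjoin k T') :
    Algebra.adjoin k (X ∪ T) = Algebra.adjoin k (X ∪ T') := by
  rw [Algebra.adjoin_union, h, ← Algebra.adjoin_union]

private theorem F0a_loc {k : Type} [Field k] [Algebra k K] {S S' : Subalgebra k K}
    {B : Subring K} (h : S = S') : IsLoc S B ↔ IsLoc S' B := by
  subst h
  exact Iff.rfl

private theorem F0a_core {k : Type} [Field k] [Algebra k K] {ι1 ι2 ι3 ι4 ι5 ι6 : Type}
    (f1 : ι1 → K) (f2 : ι2 → K) (f3 : ι3 → K) (f4 : ι4 → K) (f5 : ι5 → K) (f6 : ι6 → K)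
    (i1 : ι1) (i2 : ι2) (i3 : ι3) (i4 : ι4) (i5 : ι5) (i6 : ι6)
    (h1 : f1 i1 ≠ 0) (h2 : f2 i2 ≠ 0) (h3 : f3 i3 ≠ 0) (h4 : f4 i4 ≠ 0) (h5 : f5 i5 ≠ 0)
    (h6 : f6 i6 ≠ 0) (B : Subring K) :
    ((∀ p : ι1 × (ι2 × (ι3 × (ι4 × (ι5 × ι6)))),
        f1 p.1 * (f2 p.2.1 * (f3 p.2.2.1 * (f4 p.2.2.2.1 * (f5 p.2.2.2.2.1 * f6 p.2.2.2.2.2)))) /
        (f1 i1 * (f2 i2 * (f3 i3 * (f4 i4 * (f5 i5 * f6 i6))))) ∈ B) ∧
      IsLoc (Algebra.adjoin k (Set.range fun p : ι1 × (ι2 × (ι3 × (ι4 × (ι5 × ι6)))) =>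
        f1 p.1 * (f2 p.2.1 * (f3 p.2.2.1 * (f4 p.2.2.2.1 * (f5 p.2.2.2.2.1 * f6 p.2.2.2.2.2)))) /
        (f1 i1 * (f2 i2 * (f3 i3 * (f4 i4 * (f5 i5 * f6 i6))))))) B) ↔
    ((∀ j, f1 j / f1 i1 ∈ B) ∧ (∀ j, f2 j / f2 i2 ∈ B) ∧
        (∀ j, f3 j / f3 i3 ∈ B) ∧ (∀ j, f4 j / f4 i4 ∈ B) ∧
        (∀ j, f5 j / f5 i5 ∈ B) ∧ (∀ j, f6 j / f6 i6 ∈ B) ∧
        IsLoc (Algebra.adjoin k (Set.range (fun j => f1 j / f1 i1) ∪
          (Set.range (fun j => f2 j / f2 i2) ∪
          (Set.range (fun j => f3 j / f3 i3) ∪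
          (Set.range (fun j => f4 j / f4 i4) ∪
          (Set.range (fun j => f5 j / f5 i5) ∪
          Set.range (fun j => f6 j / f6 i6))))))) B) := by
  have n5 : f5 i5 * f6 i6 ≠ 0 := mul_ne_zero h5 h6
  have n4 : f4 i4 * (f5 i5 * f6 i6) ≠ 0 := mul_ne_zero h4 n5
  have n3 : f3 i3 * (f4 i4 * (f5 i5 * f6 i6)) ≠ 0 := mul_ne_zero h3 n4
  have n2 : f2 i2 * (f3 i3 * (f4 i4 * (f5 i5 * f6 i6))) ≠ 0 := mul_ne_zero h2 n3
  have e5 := F0a_adj (k := k) f5 f6 i5 i6 h5 h6
  have e4 := (F0a_adj (k := k) f4 (fun q : ι5 × ι6 => f5 q.1 * f6 q.2) i4 (i5, i6) h4 n5).trans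
    (F0a_cong _ e5)
  have e3 := (F0a_adj (k := k) f3 (fun q : ι4 × (ι5 × ι6) => f4 q.1 * (f5 q.2.1 * f6 q.2.2)) i3
    (i4, i5, i6) h3 n4).trans (F0a_cong _ e4)
  have e2 := (F0a_adj (k := k) f2 (fun q : ι3 × (ι4 × (ι5 × ι6)) =>
    f3 q.1 * (f4 q.2.1 * (f5 q.2.2.1 * f6 q.2.2.2))) i2
    (i3, i4, i5, i6) h2 n3).trans (F0a_cong _ e3)
  have e1 := (F0a_adj (k := k) f1 (fun q : ι2 × (ι3 × (ι4 × (ι5 × ι6))) =>
    f2 q.1 * (f3 q.2.1 * (f4 q.2.2.1 * (f5 q.2.2.2.1 * f6 q.2.2.2.2)))) i1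
    (i2, i3, i4, i5, i6) h1 n2).trans (F0a_cong _ e2)
  have m5 := F0a_mem B f5 f6 i5 i6 h5 h6
  have m4 := (F0a_mem B f4 (fun q : ι5 × ι6 => f5 q.1 * f6 q.2) i4 (i5, i6) h4 n5).trans
    (and_congr Iff.rfl m5)
  have m3 := (F0a_mem B f3 (fun q : ι4 × (ι5 × ι6) => f4 q.1 * (f5 q.2.1 * f6 q.2.2)) i3
    (i4, i5, i6) h3 n4).trans (and_congr Iff.rfl m4)
  have m2 := (F0a_mem B f2 (fun q : ι3 × (ι4 × (ι5 × ι6)) =>
    f3 q.1 * (f4 q.2.1 * (f5 q.2.2.1 * f6 q.2.2.2))) i2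
    (i3, i4, i5, i6) h2 n3).trans (and_congr Iff.rfl m3)
  have m1 := (F0a_mem B f1 (fun q : ι2 × (ι3 × (ι4 × (ι5 × ι6))) =>
    f2 q.1 * (f3 q.2.1 * (f4 q.2.2.1 * (f5 q.2.2.2.1 * f6 q.2.2.2.2)))) i1
    (i2, i3, i4, i5, i6) h1 n2).trans (and_congr Iff.rfl m2)
  have L := F0a_loc (B := B) e1
  refine (and_congr m1 L).trans ⟨?_, ?_⟩
  · exact fun H => ⟨H.1.1, H.1.2.1, H.1.2.2.1, H.1.2.2.2.1, H.1.2.2.2.2.1, H.1.2.2.2.2.2, H.2⟩
  · exact fun H => ⟨⟨H.1, H.2.1, H.2.2.1, H.2.2.2.1, H.2.2.2.2.1, H.2.2.2.2.2.1⟩,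
      H.2.2.2.2.2.2⟩

/-- ROW F0a. Unfolding of `IsLR` for the list `hY`: iterate `IsLR.prod`. -/
theorem isLR_hY_iff {k : Type} [Field k] [Algebra k K] {x' x y z w1 w2 w3 : K} (hx : x ≠ 0)
    (hy : y ≠ 0) (hz : z ≠ 0) (hx' : x' ≠ 0) (B : Subring K) :
    IsLR k (hY x' x y z w1 w2 w3) B ↔
      Loc B ∧ ∃ (i1 i2 i3 : Fin 4) (i4 : Fin 3) (i5 : Fin 5) (i6 : Fin 4),
        fE x w1 i1 ≠ 0 ∧ fE y w2 i2 ≠ 0 ∧ fE z w3 i3 ≠ 0 ∧
        (∀ j, fE x w1 j / fE x w1 i1 ∈ B) ∧ (∀ j, fE y w2 j / fE y w2 i2 ∈ B) ∧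
        (∀ j, fE z w3 j / fE z w3 i3 ∈ B) ∧ (∀ j, g1 x z j / g1 x z i4 ∈ B) ∧
        (∀ j, g2 x y z j / g2 x y z i5 ∈ B) ∧ (∀ j, g3 x' x y z j / g3 x' x y z i6 ∈ B) ∧
        IsLoc (Algebra.adjoin k (Set.range (fun j => fE x w1 j / fE x w1 i1) ∪
          (Set.range (fun j => fE y w2 j / fE y w2 i2) ∪
          (Set.range (fun j => fE z w3 j / fE z w3 i3) ∪
          (Set.range (fun j => g1 x z j / g1 x z i4) ∪
          (Set.range (fun j => g2 x y z j / g2 x y z i5) ∪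
          Set.range (fun j => g3 x' x y z j / g3 x' x y z i6))))))) B := by
  have hg1 : ∀ i4 : Fin 3, g1 x z i4 ≠ 0 := by
    intro i4
    fin_cases i4 <;> simp [g1, hx, hz]
  have hg2 : ∀ i5 : Fin 5, g2 x y z i5 ≠ 0 := by
    intro i5
    fin_cases i5 <;> simp [g2, hx, hy, hz]
  have hg3 : ∀ i6 : Fin 4, g3 x' x y z i6 ≠ 0 := by
    intro i6
    fin_cases i6 <;> simp [g3, hx, hy, hz, hx']
  constructor
  · rintro ⟨hL, ⟨i1, i2, i3, i4, i5, i6⟩, h0, hmem, hloc⟩
    have h0' : fE x w1 i1 * (fE y w2 i2 * (fE z w3 i3 *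
      (g1 x z i4 * (g2 x y z i5 * g3 x' x y z i6)))) ≠ 0 := h0
    have h1 := left_ne_zero_of_mul h0'
    have h2 := left_ne_zero_of_mul (right_ne_zero_of_mul h0')
    have h3 := left_ne_zero_of_mul (right_ne_zero_of_mul (right_ne_zero_of_mul h0'))
    have H := (F0a_core (k := k) (fE x w1) (fE y w2) (fE z w3) (g1 x z) (g2 x y z) (g3 x' x y z)
      i1 i2 i3 i4 i5 i6 h1 h2 h3 (hg1 i4) (hg2 i5) (hg3 i6) B).1 ⟨hmem, hloc⟩
    exact ⟨hL, i1, i2, i3, i4, i5, i6, h1, h2, h3, H⟩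
  · rintro ⟨hL, i1, i2, i3, i4, i5, i6, h1, h2, h3, H⟩
    have H' := (F0a_core (k := k) (fE x w1) (fE y w2) (fE z w3) (g1 x z) (g2 x y z) (g3 x' x y z)
      i1 i2 i3 i4 i5 i6 h1 h2 h3 (hg1 i4) (hg2 i5) (hg3 i6) B).2 H
    refine ⟨hL, ⟨i1, i2, i3, i4, i5, i6⟩, ?_, H'.1, H'.2⟩
    exact mul_ne_zero h1 (mul_ne_zero h2 (mul_ne_zero h3 (mul_ne_zero (hg1 i4)
      (mul_ne_zero (hg2 i5) (hg3 i6)))))


/-- ROW F0b. `B` a local ring of `Y` containing `x, y, z, w_i`; then one of `x/z, z/x` is in `B`, etc. (finite check on the indices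
of `isLR_hY_iff`, e.g. `i5 = 2` (`yz`): `x/z ∈ B`, so `xy/z ∈ B`.) -/
theorem ratios_mem {k : Type} [Field k] [Algebra k K] {x' x y z w1 w2 w3 : K} (hx : x ≠ 0)
    (hy : y ≠ 0) (hz : z ≠ 0) (hx' : x' ≠ 0) {B : Subring K}
    (hB : IsLR k (hY x' x y z w1 w2 w3) B) (hxB : x ∈ B) (hyB : y ∈ B) (hzB : z ∈ B)
    (hx'B : x' ∈ B) :
    (x / z ∈ B ∨ z / x ∈ B) ∧ (x * y / z ∈ B ∨ z / (x * y) ∈ B) ∧
      (x' * z / (x * y) ∈ B ∨ x * y / (x' * z) ∈ B) := by
  obtain ⟨_, i1, i2, i3, i4, i5, i6, _, _, _, _, _, _, h4, h5, h6, _⟩ :=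
    (isLR_hY_iff hx hy hz hx' B).1 hB
  refine ⟨?_, ?_, ?_⟩
  · fin_cases i4
    · right
      have h := h4 1
      simpa [g1] using h
    · left
      have h := h4 0
      simpa [g1] using h
    · left
      have h := B.mul_mem hxB (h4 0)
      have e : x * (g1 x z 0 / g1 x z 2) = x / z := by
        simp only [g1]
        simp
        field_simp
      rwa [show g1 x z 0 / g1 x z ((fun i => i) ⟨2, by decide⟩) = g1 x z 0 / g1 x z 2 from rfl,
        e] at h
  · fin_cases i5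
    · right
      have h := h5 4
      simpa [g2] using h
    · left
      have h := B.mul_mem (B.mul_mem hxB hyB) (h5 0)
      have e : x * y * (g2 x y z 0 / g2 x y z 1) = x * y / z := by
        simp only [g2]
        simp
        field_simp
      rwa [show g2 x y z 0 / g2 x y z ((fun i => i) ⟨1, by decide⟩) = g2 x y z 0 / g2 x y z 1
        from rfl, e] at h
    · left
      have h := B.mul_mem hyB (h5 0)
      have e : y * (g2 x y z 0 / g2 x y z 2) = x * y / z := by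
        simp only [g2]
        simp
        field_simp
      rwa [show g2 x y z 0 / g2 x y z ((fun i => i) ⟨2, by decide⟩) = g2 x y z 0 / g2 x y z 2
        from rfl, e] at h
    · left
      have h := B.mul_mem hxB (h5 0)
      have e : x * (g2 x y z 0 / g2 x y z 3) = x * y / z := by
        simp only [g2]
        simp
        field_simp
      rwa [show g2 x y z 0 / g2 x y z ((fun i => i) ⟨3, by decide⟩) = g2 x y z 0 / g2 x y z 3
        from rfl, e] at h
    · left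
      have h := h5 0
      simpa [g2] using h
  · fin_cases i6
    · right
      have h := h6 2
      simpa [g3] using h
    · right
      have h := B.mul_mem hyB (h6 2)
      have e : y * (g3 x' x y z 2 / g3 x' x y z 1) = x * y / (x' * z) := by
        simp only [g3]
        simp
        field_simp
      rwa [show g3 x' x y z 2 / g3 x' x y z ((fun i => i) ⟨1, by decide⟩) =
        g3 x' x y z 2 / g3 x' x y z 1 from rfl, e] at h
    · left
      have h := h6 0
      simpa [g3] using h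
    · left
      have h := B.mul_mem hzB (h6 0)
      have e : z * (g3 x' x y z 0 / g3 x' x y z 3) = x' * z / (x * y) := by
        simp only [g3]
        simp
        field_simp
      rwa [show g3 x' x y z 0 / g3 x' x y z ((fun i => i) ⟨3, by decide⟩) =
        g3 x' x y z 0 / g3 x' x y z 3 from rfl, e] at h


private theorem F0c_swap {B C : Subring K} (hCB : C ≤ B) (hCu : ∀ u ∈ C, Un B u → u⁻¹ ∈ C)
    {t s : K} (ht : t ≠ 0) (hs : t⁻¹ = s) (htB : t ∈ B) (h : t ∈ C ∨ s ∈ C) : t ∈ C := by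
  rcases h with h | h
  · exact h
  · have h1 : s ≠ 0 := by rw [← hs]; exact inv_ne_zero ht
    have h2 : s⁻¹ = t := by rw [← hs, inv_inv]
    have h3 := hCu s h ⟨h1, hCB h, by rw [h2]; exact htB⟩
    rwa [h2] at h3

private theorem F0c_inv {B C : Subring K} (hCB : C ≤ B) (hCu : ∀ u ∈ C, Un B u → u⁻¹ ∈ C)
    {t : K} (ht : t ≠ 0) (htC : t ∈ C) (h : 1 / t ∈ B) : t⁻¹ ∈ C :=
  hCu t htC ⟨ht, hCB htC, by rwa [one_div] at h⟩

private theorem F0c_fE {B C : Subring K} (hCB : C ≤ B) (hCu : ∀ u ∈ C, Un B u → u⁻¹ ∈ C)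
    {x w : K} (hx : x ∈ C) (hw : w ∈ C) (i : Fin 4) (hi : fE x w i ≠ 0)
    (h : ∀ j, fE x w j / fE x w i ∈ B) : ∀ j, fE x w j / fE x w i ∈ C := by
  have hall : ∀ j, fE x w j ∈ C := by
    intro j
    fin_cases j
    · exact C.one_mem
    · exact hx
    · exact pow_mem hx 2
    · exact hw
  have h0 : (1 : K) / fE x w i ∈ B := h 0
  have hinv := F0c_inv hCB hCu hi (hall i) h0
  intro j
  rw [div_eq_mul_inv]
  exact C.mul_mem (hall j) hinv

private theorem F0c_g1 {B C : Subring K} (hCB : C ≤ B) (hCu : ∀ u ∈ C, Un B u → u⁻¹ ∈ C)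
    {x z : K} (hx : x ≠ 0) (hz : z ≠ 0) (hxC : x ∈ C) (hzC : z ∈ C)
    (h1 : x / z ∈ C ∨ z / x ∈ C) (i : Fin 3)
    (h : ∀ j, g1 x z j / g1 x z i ∈ B) : ∀ j, g1 x z j / g1 x z i ∈ C := by
  fin_cases i
  · have q1 : z / x ∈ B := h 1
    have c1 : z / x ∈ C := F0c_swap hCB hCu (div_ne_zero hz hx) (inv_div z x) q1 h1.symm
    intro j
    fin_cases j
    · show x / x ∈ C
      rw [div_self hx]; exact C.one_mem
    · exact c1
    · show x * z / x ∈ C
      rw [mul_div_cancel_left₀ z hx]; exact hzC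
  · have q1 : x / z ∈ B := h 0
    have c1 : x / z ∈ C := F0c_swap hCB hCu (div_ne_zero hx hz) (inv_div x z) q1 h1
    intro j
    fin_cases j
    · exact c1
    · show z / z ∈ C
      rw [div_self hz]; exact C.one_mem
    · show x * z / z ∈ C
      rw [mul_div_cancel_right₀ x hz]; exact hxC
  · have q0 : x / (x * z) ∈ B := h 0
    have q1 : z / (x * z) ∈ B := h 1
    have e0 : x / (x * z) = 1 / z := by field_simp
    have e1 : z / (x * z) = 1 / x := by field_simp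
    rw [e0] at q0
    rw [e1] at q1
    have c0 := F0c_inv hCB hCu hz hzC q0
    have c1 := F0c_inv hCB hCu hx hxC q1
    intro j
    fin_cases j
    · show x / (x * z) ∈ C
      rw [e0, one_div]; exact c0
    · show z / (x * z) ∈ C
      rw [e1, one_div]; exact c1
    · show x * z / (x * z) ∈ C
      rw [div_self (mul_ne_zero hx hz)]; exact C.one_mem

private theorem F0c_g2 {B C : Subring K} (hCB : C ≤ B) (hCu : ∀ u ∈ C, Un B u → u⁻¹ ∈ C)
    {x y z : K} (hx : x ≠ 0) (hy : y ≠ 0) (hz : z ≠ 0) (hxC : x ∈ C) (hyC : y ∈ C) (hzC : z ∈ C)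
    (h2 : x * y / z ∈ C ∨ z / (x * y) ∈ C) (i : Fin 5)
    (h : ∀ j, g2 x y z j / g2 x y z i ∈ B) : ∀ j, g2 x y z j / g2 x y z i ∈ C := by
  have hxy : x * y ≠ 0 := mul_ne_zero hx hy
  fin_cases i
  · -- x * y
    have q : z / (x * y) ∈ B := h 4
    have c : z / (x * y) ∈ C := F0c_swap hCB hCu (div_ne_zero hz hxy) (inv_div z (x * y)) q h2.symm
    intro j
    fin_cases j
    · show x * y / (x * y) ∈ C
      rw [div_self hxy]; exact C.one_mem
    · show x * y * z / (x * y) ∈ C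
      rw [mul_div_cancel_left₀ z hxy]; exact hzC
    · show y * z / (x * y) ∈ C
      rw [mul_div_assoc]; exact C.mul_mem hyC c
    · show x * z / (x * y) ∈ C
      rw [mul_div_assoc]; exact C.mul_mem hxC c
    · exact c
  · -- x * y * z
    have hxyz : x * y * z ≠ 0 := mul_ne_zero hxy hz
    have q0 : x * y / (x * y * z) ∈ B := h 0
    have q2 : y * z / (x * y * z) ∈ B := h 2
    have q3 : x * z / (x * y * z) ∈ B := h 3
    have e0 : x * y / (x * y * z) = 1 / z := by field_simp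
    have e2 : y * z / (x * y * z) = 1 / x := by field_simp
    have e3 : x * z / (x * y * z) = 1 / y := by field_simp
    have e4 : z / (x * y * z) = x⁻¹ * y⁻¹ := by field_simp
    rw [e0] at q0
    rw [e2] at q2
    rw [e3] at q3
    have c0 := F0c_inv hCB hCu hz hzC q0
    have c2 := F0c_inv hCB hCu hx hxC q2
    have c3 := F0c_inv hCB hCu hy hyC q3
    intro j
    fin_cases j
    · show x * y / (x * y * z) ∈ C
      rw [e0, one_div]; exact c0
    · show x * y * z / (x * y * z) ∈ C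
      rw [div_self hxyz]; exact C.one_mem
    · show y * z / (x * y * z) ∈ C
      rw [e2, one_div]; exact c2
    · show x * z / (x * y * z) ∈ C
      rw [e3, one_div]; exact c3
    · show z / (x * y * z) ∈ C
      rw [e4]; exact C.mul_mem c2 c3
  · -- y * z
    have hyz : y * z ≠ 0 := mul_ne_zero hy hz
    have q0 : x * y / (y * z) ∈ B := h 0
    have q4 : z / (y * z) ∈ B := h 4
    have e4 : z / (y * z) = 1 / y := by field_simp
    rw [e4] at q4
    have c4 := F0c_inv hCB hCu hy hyC q4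
    have q : x * y / z ∈ B := by
      have e : x * y / z = x * y / (y * z) * y := by field_simp
      rw [e]; exact B.mul_mem q0 (hCB hyC)
    have c : x * y / z ∈ C := F0c_swap hCB hCu (div_ne_zero hxy hz) (inv_div (x * y) z) q h2
    intro j
    fin_cases j
    · show x * y / (y * z) ∈ C
      have e : x * y / (y * z) = x * y / z * y⁻¹ := by field_simp
      rw [e]; exact C.mul_mem c c4
    · show x * y * z / (y * z) ∈ C
      have e : x * y * z / (y * z) = x := by field_simp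
      rw [e]; exact hxC
    · show y * z / (y * z) ∈ C
      rw [div_self hyz]; exact C.one_mem
    · show x * z / (y * z) ∈ C
      have e : x * z / (y * z) = x * y⁻¹ := by field_simp
      rw [e]; exact C.mul_mem hxC c4
    · show z / (y * z) ∈ C
      rw [e4, one_div]; exact c4
  · -- x * z
    have hxz : x * z ≠ 0 := mul_ne_zero hx hz
    have q0 : x * y / (x * z) ∈ B := h 0
    have q4 : z / (x * z) ∈ B := h 4
    have e4 : z / (x * z) = 1 / x := by field_simp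
    rw [e4] at q4
    have c4 := F0c_inv hCB hCu hx hxC q4
    have q : x * y / z ∈ B := by
      have e : x * y / z = x * y / (x * z) * x := by field_simp
      rw [e]; exact B.mul_mem q0 (hCB hxC)
    have c : x * y / z ∈ C := F0c_swap hCB hCu (div_ne_zero hxy hz) (inv_div (x * y) z) q h2
    intro j
    fin_cases j
    · show x * y / (x * z) ∈ C
      have e : x * y / (x * z) = x * y / z * x⁻¹ := by field_simp
      rw [e]; exact C.mul_mem c c4
    · show x * y * z / (x * z) ∈ C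
      have e : x * y * z / (x * z) = y := by field_simp
      rw [e]; exact hyC
    · show y * z / (x * z) ∈ C
      have e : y * z / (x * z) = y * x⁻¹ := by field_simp
      rw [e]; exact C.mul_mem hyC c4
    · show x * z / (x * z) ∈ C
      rw [div_self hxz]; exact C.one_mem
    · show z / (x * z) ∈ C
      rw [e4, one_div]; exact c4
  · -- z
    have q : x * y / z ∈ B := h 0
    have c : x * y / z ∈ C := F0c_swap hCB hCu (div_ne_zero hxy hz) (inv_div (x * y) z) q h2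
    intro j
    fin_cases j
    · exact c
    · show x * y * z / z ∈ C
      rw [mul_div_cancel_right₀ _ hz]; exact C.mul_mem hxC hyC
    · show y * z / z ∈ C
      rw [mul_div_cancel_right₀ _ hz]; exact hyC
    · show x * z / z ∈ C
      rw [mul_div_cancel_right₀ _ hz]; exact hxC
    · show z / z ∈ C
      rw [div_self hz]; exact C.one_mem

private theorem F0c_g3 {B C : Subring K} (hCB : C ≤ B) (hCu : ∀ u ∈ C, Un B u → u⁻¹ ∈ C)
    {x' x y z : K} (hx : x ≠ 0) (hy : y ≠ 0) (hz : z ≠ 0) (hx' : x' ≠ 0)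
    (hyC : y ∈ C) (hzC : z ∈ C)
    (h3 : x' * z / (x * y) ∈ C ∨ x * y / (x' * z) ∈ C) (i : Fin 4)
    (h : ∀ j, g3 x' x y z j / g3 x' x y z i ∈ B) : ∀ j, g3 x' x y z j / g3 x' x y z i ∈ C := by
  have hxy : x * y ≠ 0 := mul_ne_zero hx hy
  have hx'z : x' * z ≠ 0 := mul_ne_zero hx' hz
  fin_cases i
  · -- x' * z
    have q : x * y / (x' * z) ∈ B := h 2
    have c : x * y / (x' * z) ∈ C :=
      F0c_swap hCB hCu (div_ne_zero hxy hx'z) (inv_div (x * y) (x' * z)) q h3.symm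
    intro j
    fin_cases j
    · show x' * z / (x' * z) ∈ C
      rw [div_self hx'z]; exact C.one_mem
    · show x' * y * z / (x' * z) ∈ C
      have e : x' * y * z / (x' * z) = y := by field_simp
      rw [e]; exact hyC
    · exact c
    · show x * y * z / (x' * z) ∈ C
      have e : x * y * z / (x' * z) = x * y / (x' * z) * z := by field_simp
      rw [e]; exact C.mul_mem c hzC
  · -- x' * y * z
    have hd : x' * y * z ≠ 0 := mul_ne_zero (mul_ne_zero hx' hy) hz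
    have q0 : x' * z / (x' * y * z) ∈ B := h 0
    have q2 : x * y / (x' * y * z) ∈ B := h 2
    have e0 : x' * z / (x' * y * z) = 1 / y := by field_simp
    rw [e0] at q0
    have c0 := F0c_inv hCB hCu hy hyC q0
    have q : x * y / (x' * z) ∈ B := by
      have e : x * y / (x' * z) = x * y / (x' * y * z) * y := by field_simp
      rw [e]; exact B.mul_mem q2 (hCB hyC)
    have c : x * y / (x' * z) ∈ C :=
      F0c_swap hCB hCu (div_ne_zero hxy hx'z) (inv_div (x * y) (x' * z)) q h3.symm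
    intro j
    fin_cases j
    · show x' * z / (x' * y * z) ∈ C
      rw [e0, one_div]; exact c0
    · show x' * y * z / (x' * y * z) ∈ C
      rw [div_self hd]; exact C.one_mem
    · show x * y / (x' * y * z) ∈ C
      have e : x * y / (x' * y * z) = x * y / (x' * z) * y⁻¹ := by field_simp
      rw [e]; exact C.mul_mem c c0
    · show x * y * z / (x' * y * z) ∈ C
      have e : x * y * z / (x' * y * z) = x * y / (x' * z) * y⁻¹ * z := by field_simp
      rw [e]; exact C.mul_mem (C.mul_mem c c0) hzC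
  · -- x * y
    have q : x' * z / (x * y) ∈ B := h 0
    have c : x' * z / (x * y) ∈ C :=
      F0c_swap hCB hCu (div_ne_zero hx'z hxy) (inv_div (x' * z) (x * y)) q h3
    intro j
    fin_cases j
    · exact c
    · show x' * y * z / (x * y) ∈ C
      have e : x' * y * z / (x * y) = x' * z / (x * y) * y := by field_simp
      rw [e]; exact C.mul_mem c hyC
    · show x * y / (x * y) ∈ C
      rw [div_self hxy]; exact C.one_mem
    · show x * y * z / (x * y) ∈ C
      rw [mul_div_cancel_left₀ z hxy]; exact hzC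
  · -- x * y * z
    have hd : x * y * z ≠ 0 := mul_ne_zero hxy hz
    have q0 : x' * z / (x * y * z) ∈ B := h 0
    have q2 : x * y / (x * y * z) ∈ B := h 2
    have e2 : x * y / (x * y * z) = 1 / z := by field_simp
    rw [e2] at q2
    have c2 := F0c_inv hCB hCu hz hzC q2
    have q : x' * z / (x * y) ∈ B := by
      have e : x' * z / (x * y) = x' * z / (x * y * z) * z := by field_simp
      rw [e]; exact B.mul_mem q0 (hCB hzC)
    have c : x' * z / (x * y) ∈ C :=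
      F0c_swap hCB hCu (div_ne_zero hx'z hxy) (inv_div (x' * z) (x * y)) q h3
    intro j
    fin_cases j
    · show x' * z / (x * y * z) ∈ C
      have e : x' * z / (x * y * z) = x' * z / (x * y) * z⁻¹ := by field_simp
      rw [e]; exact C.mul_mem c c2
    · show x' * y * z / (x * y * z) ∈ C
      have e : x' * y * z / (x * y * z) = x' * z / (x * y) * z⁻¹ * y := by field_simp
      rw [e]; exact C.mul_mem (C.mul_mem c c2) hyC
    · show x * y / (x * y * z) ∈ C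
      rw [e2, one_div]; exact c2
    · show x * y * z / (x * y * z) ∈ C
      rw [div_self hd]; exact C.one_mem

/-- ROW F0c. Such a `B` is generated (as a local ring) by its elements `x, y, z, x', w_i, k` and one ratio of each kind:
if the subring `C ⊆ B` contains them and is closed under inverses of units of `B`, then `B ≤ C`. Finite check: all ratios of `isLR_hY_iff`
are in `C` (e.g. `i4 = 0` (`x`): `z/x ∈ B`; if `x/z ∈ C` then `x/z` is a unit of `B`, so `z/x ∈ C`. `i5 = 3` (`xz`): `1/x ∈ B`, so `x` is a unit,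
`x⁻¹ ∈ C`; `y/z = (xy/z) x⁻¹`.) -/
theorem le_of_ratios {k : Type} [Field k] [Algebra k K] {x' x y z w1 w2 w3 : K} (hx : x ≠ 0)
    (hy : y ≠ 0) (hz : z ≠ 0) (hx' : x' ≠ 0) {B : Subring K}
    (hB : IsLR k (hY x' x y z w1 w2 w3) B) (C : Subring K) (hCB : C ≤ B)
    (hCu : ∀ u ∈ C, Un B u → u⁻¹ ∈ C) (hk : ∀ c : k, algebraMap k K c ∈ C) (hxC : x ∈ C)
    (hyC : y ∈ C) (hzC : z ∈ C) (hx'C : x' ∈ C) (hw1 : w1 ∈ C) (hw2 : w2 ∈ C) (hw3 : w3 ∈ C)
    (h1 : x / z ∈ C ∨ z / x ∈ C) (h2 : x * y / z ∈ C ∨ z / (x * y) ∈ C)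
    (h3 : x' * z / (x * y) ∈ C ∨ x * y / (x' * z) ∈ C) : B ≤ C := by
  obtain ⟨-, i1, i2, i3, i4, i5, i6, n1, n2, n3, r1, r2, r3, r4, r5, r6, -, hloc⟩ :=
    (isLR_hY_iff hx hy hz hx' B).1 hB
  have s1 := F0c_fE hCB hCu hxC hw1 i1 n1 r1
  have s2 := F0c_fE hCB hCu hyC hw2 i2 n2 r2
  have s3 := F0c_fE hCB hCu hzC hw3 i3 n3 r3
  have s4 := F0c_g1 hCB hCu hx hz hxC hzC h1 i4 r4
  have s5 := F0c_g2 hCB hCu hx hy hz hxC hyC hzC h2 i5 r5
  have s6 := F0c_g3 hCB hCu hx hy hz hx' hyC hzC h3 i6 r6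
  let D : Subalgebra k K := { C with algebraMap_mem' := hk }
  have hle : Algebra.adjoin k (Set.range (fun j => fE x w1 j / fE x w1 i1) ∪
          (Set.range (fun j => fE y w2 j / fE y w2 i2) ∪
          (Set.range (fun j => fE z w3 j / fE z w3 i3) ∪
          (Set.range (fun j => g1 x z j / g1 x z i4) ∪
          (Set.range (fun j => g2 x y z j / g2 x y z i5) ∪
          Set.range (fun j => g3 x' x y z j / g3 x' x y z i6)))))) ≤ D := by
    refine Algebra.adjoin_le ?_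
    rintro t (⟨j, rfl⟩ | ⟨j, rfl⟩ | ⟨j, rfl⟩ | ⟨j, rfl⟩ | ⟨j, rfl⟩ | ⟨j, rfl⟩)
    · exact s1 j
    · exact s2 j
    · exact s3 j
    · exact s4 j
    · exact s5 j
    · exact s6 j
  intro b hb
  obtain ⟨a, s, hsU, hab⟩ := hloc b hb
  have haC : (a : K) ∈ C := hle a.2
  have hsC : (s : K) ∈ C := hle s.2
  have hinv : (s : K)⁻¹ ∈ C := hCu _ hsC hsU
  have hb' : b = (a : K) * (s : K)⁻¹ := by
    have h0 : (s : K) ≠ 0 := hsU.1
    have h4 : b * (s : K) = (a : K) := hab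
    rw [← h4, mul_assoc, mul_inv_cancel₀ h0, mul_one]
  rw [hb']
  exact C.mul_mem haC hinv


theorem F0d_fE_mem {x w : K} {B : Subring K} (hx : x ∈ B) (hw : w ∈ B) (j : Fin 4) :
    fE x w j / fE x w 0 ∈ B := by
  have h0 : fE x w 0 = 1 := rfl
  rw [h0, div_one]
  fin_cases j
  · exact B.one_mem
  · exact hx
  · exact B.pow_mem hx 2
  · exact hw

/-- The common part of the two versions: a subring generated by fractions. -/
theorem F0d_isLoc {k : Type} [Field k] [Algebra k K] {B : Subring K} (T : Set K)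
    (hk : ∀ c : k, algebraMap k K c ∈ B) (hT : ∀ t ∈ T, t ∈ B)
    (hgen : ∀ C : Subring K, C ≤ B → (∀ u ∈ C, Un B u → u⁻¹ ∈ C) →
      (∀ c : k, algebraMap k K c ∈ C) → (∀ t ∈ T, t ∈ C) → B ≤ C) :
    IsLoc (Algebra.adjoin k T) B := by
  have hS : ∀ s : Algebra.adjoin k T, algebraMap (Algebra.adjoin k T) K s ∈ B := by
    intro s
    have h1 : ∀ u ∈ Algebra.adjoin k T, u ∈ B := by
      intro u hu
      refine Algebra.adjoin_induction (hx := hu) (p := fun u _ => u ∈ B) ?_ ?_ ?_ ?_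
      · intro u hu
        exact hT u hu
      · intro c
        exact hk c
      · intro u v _ _ h1 h2
        exact B.add_mem h1 h2
      · intro u v _ _ h1 h2
        exact B.mul_mem h1 h2
    exact h1 _ s.2
  refine ⟨hS, ?_⟩
  have hin : ∀ u ∈ Algebra.adjoin k T, u ∈ locAt (Algebra.adjoin k T) B := by
    intro u hu
    refine ⟨⟨u, hu⟩, 1, ?_, ?_, ?_⟩
    · rw [map_one]; exact one_ne_zero
    · rw [map_one, inv_one]; exact B.one_mem
    · rw [map_one, mul_one]; rfl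
  have hle : B ≤ locAt (Algebra.adjoin k T) B := by
    refine hgen _ (locAt_le hS) ?_ ?_ ?_
    · intro u hu hun
      exact locAt_inv_mem hS hu hun.1 hun.2.2
    · intro c
      exact hin _ (Subalgebra.algebraMap_mem _ c)
    · intro t ht
      exact hin _ (Algebra.subset_adjoin ht)
  intro b hb
  obtain ⟨a, s, h1, h2, h3⟩ := hle hb
  exact ⟨a, s, ⟨h1, hS s, h2⟩, h3⟩

/-- ROW F0d. Construction of local rings of `Y`: `B` local, `x, y, z, x', w_i ∈ B`, the ratios for the indices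
(`g1 : z`, `g2 : z`, `g3 : x'z`) are in `B` (first version), and `B` is generated by `k, x, y, z, w_i` and `x/z`. -/
theorem isLR_of_xz {k : Type} [Field k] [Algebra k K] {x' x y z w1 w2 w3 : K} (hx : x ≠ 0)
    (hy : y ≠ 0) (hz : z ≠ 0) (hx' : x' ≠ 0) {B : Subring K} (hB : Loc B)
    (hk : ∀ c : k, algebraMap k K c ∈ B) (hxB : x ∈ B) (hyB : y ∈ B) (hzB : z ∈ B)
    (hw1 : w1 ∈ B) (hw2 : w2 ∈ B) (hw3 : w3 ∈ B) (hx'B : Un B x') (h1 : x / z ∈ B)
    (hgen : ∀ C : Subring K, C ≤ B → (∀ u ∈ C, Un B u → u⁻¹ ∈ C) →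
      (∀ c : k, algebraMap k K c ∈ C) → x ∈ C → y ∈ C → z ∈ C → w1 ∈ C → w2 ∈ C → w3 ∈ C →
      x / z ∈ C → B ≤ C) : IsLR k (hY x' x y z w1 w2 w3) B := by
  have r1 : ∀ j, fE x w1 j / fE x w1 0 ∈ B := F0d_fE_mem hxB hw1
  have r2 : ∀ j, fE y w2 j / fE y w2 0 ∈ B := F0d_fE_mem hyB hw2
  have r3 : ∀ j, fE z w3 j / fE z w3 0 ∈ B := F0d_fE_mem hzB hw3
  have r4 : ∀ j, g1 x z j / g1 x z 1 ∈ B := by
    intro j
    have h0 : g1 x z 1 = z := rfl
    rw [h0]
    fin_cases j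
    · exact h1
    · change z / z ∈ B
      rw [div_self hz]; exact B.one_mem
    · change x * z / z ∈ B
      rw [mul_div_cancel_right₀ _ hz]; exact hxB
  have r5 : ∀ j, g2 x y z j / g2 x y z 4 ∈ B := by
    intro j
    have h0 : g2 x y z 4 = z := rfl
    rw [h0]
    fin_cases j
    · change x * y / z ∈ B
      have h2 : x * y / z = x / z * y := by ring
      rw [h2]; exact B.mul_mem h1 hyB
    · change x * y * z / z ∈ B
      rw [mul_div_cancel_right₀ _ hz]; exact B.mul_mem hxB hyB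
    · change y * z / z ∈ B
      rw [mul_div_cancel_right₀ _ hz]; exact hyB
    · change x * z / z ∈ B
      rw [mul_div_cancel_right₀ _ hz]; exact hxB
    · change z / z ∈ B
      rw [div_self hz]; exact B.one_mem
  have r6 : ∀ j, g3 x' x y z j / g3 x' x y z 0 ∈ B := by
    intro j
    have h0 : g3 x' x y z 0 = x' * z := rfl
    have hxz' : x' * z ≠ 0 := mul_ne_zero hx' hz
    rw [h0]
    fin_cases j
    · change x' * z / (x' * z) ∈ B
      rw [div_self hxz']; exact B.one_mem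
    · change x' * y * z / (x' * z) ∈ B
      have h2 : x' * y * z / (x' * z) = y := by field_simp
      rw [h2]; exact hyB
    · change x * y / (x' * z) ∈ B
      have h2 : x * y / (x' * z) = x / z * y * x'⁻¹ := by field_simp
      rw [h2]; exact B.mul_mem (B.mul_mem h1 hyB) hx'B.2.2
    · change x * y * z / (x' * z) ∈ B
      have h2 : x * y * z / (x' * z) = x * y * x'⁻¹ := by field_simp
      rw [h2]; exact B.mul_mem (B.mul_mem hxB hyB) hx'B.2.2
  refine (isLR_hY_iff hx hy hz hx' B).2 ⟨hB, 0, 0, 0, 1, 4, 0, one_ne_zero, one_ne_zero,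
    one_ne_zero, r1, r2, r3, r4, r5, r6, ?_⟩
  refine F0d_isLoc _ hk ?_ ?_
  · rintro t (⟨j, rfl⟩ | ⟨j, rfl⟩ | ⟨j, rfl⟩ | ⟨j, rfl⟩ | ⟨j, rfl⟩ | ⟨j, rfl⟩)
    · exact r1 j
    · exact r2 j
    · exact r3 j
    · exact r4 j
    · exact r5 j
    · exact r6 j
  · intro C hCB hCu hCk hCT
    have s1 : ∀ j, fE x w1 j ∈ C := fun j => by
      have := hCT _ (Or.inl ⟨j, rfl⟩)
      simpa [fE] using this
    have s2 : ∀ j, fE y w2 j ∈ C := fun j => by
      have := hCT _ (Or.inr (Or.inl ⟨j, rfl⟩))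
      simpa [fE] using this
    have s3 : ∀ j, fE z w3 j ∈ C := fun j => by
      have := hCT _ (Or.inr (Or.inr (Or.inl ⟨j, rfl⟩)))
      simpa [fE] using this
    have s4 : ∀ j, g1 x z j / g1 x z 1 ∈ C := fun j =>
      hCT _ (Or.inr (Or.inr (Or.inr (Or.inl ⟨j, rfl⟩))))
    exact hgen C hCB hCu hCk (s1 1) (s2 1) (s3 1) (s1 3) (s2 3) (s3 3) (s4 0)

/-- second version: indices (`g1 : z`, `g2 : z`, `g3 : xy`), `z` and `x` units, generated by `x'/y`. -/
theorem isLR_of_x'y {k : Type} [Field k] [Algebra k K] {x' x y z w1 w2 w3 : K} (hx : x ≠ 0)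
    (hy : y ≠ 0) (hz : z ≠ 0) (hx' : x' ≠ 0) {B : Subring K} (hB : Loc B)
    (hk : ∀ c : k, algebraMap k K c ∈ B) (hxB : Un B x) (hyB : y ∈ B) (hzB : Un B z)
    (hw1 : w1 ∈ B) (hw2 : w2 ∈ B) (hw3 : w3 ∈ B) (hx'B : x' ∈ B) (h1 : x' / y ∈ B)
    (hgen : ∀ C : Subring K, C ≤ B → (∀ u ∈ C, Un B u → u⁻¹ ∈ C) →
      (∀ c : k, algebraMap k K c ∈ C) → x ∈ C → y ∈ C → z ∈ C → w1 ∈ C → w2 ∈ C → w3 ∈ C →
      x' / y ∈ C → B ≤ C) : IsLR k (hY x' x y z w1 w2 w3) B := by
  have r1 : ∀ j, fE x w1 j / fE x w1 0 ∈ B := F0d_fE_mem hxB.2.1 hw1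
  have r2 : ∀ j, fE y w2 j / fE y w2 0 ∈ B := F0d_fE_mem hyB hw2
  have r3 : ∀ j, fE z w3 j / fE z w3 0 ∈ B := F0d_fE_mem hzB.2.1 hw3
  have r4 : ∀ j, g1 x z j / g1 x z 1 ∈ B := by
    intro j
    have h0 : g1 x z 1 = z := rfl
    rw [h0]
    fin_cases j
    · change x / z ∈ B
      rw [div_eq_mul_inv]; exact B.mul_mem hxB.2.1 hzB.2.2
    · change z / z ∈ B
      rw [div_self hz]; exact B.one_mem
    · change x * z / z ∈ B
      rw [mul_div_cancel_right₀ _ hz]; exact hxB.2.1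
  have r5 : ∀ j, g2 x y z j / g2 x y z 4 ∈ B := by
    intro j
    have h0 : g2 x y z 4 = z := rfl
    rw [h0]
    fin_cases j
    · change x * y / z ∈ B
      rw [div_eq_mul_inv]; exact B.mul_mem (B.mul_mem hxB.2.1 hyB) hzB.2.2
    · change x * y * z / z ∈ B
      rw [mul_div_cancel_right₀ _ hz]; exact B.mul_mem hxB.2.1 hyB
    · change y * z / z ∈ B
      rw [mul_div_cancel_right₀ _ hz]; exact hyB
    · change x * z / z ∈ B
      rw [mul_div_cancel_right₀ _ hz]; exact hxB.2.1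
    · change z / z ∈ B
      rw [div_self hz]; exact B.one_mem
  have r6 : ∀ j, g3 x' x y z j / g3 x' x y z 2 ∈ B := by
    intro j
    have h0 : g3 x' x y z 2 = x * y := rfl
    have hxy' : x * y ≠ 0 := mul_ne_zero hx hy
    rw [h0]
    fin_cases j
    · change x' * z / (x * y) ∈ B
      have h2 : x' * z / (x * y) = x' / y * z * x⁻¹ := by field_simp
      rw [h2]; exact B.mul_mem (B.mul_mem h1 hzB.2.1) hxB.2.2
    · change x' * y * z / (x * y) ∈ B
      have h2 : x' * y * z / (x * y) = x' * z * x⁻¹ := by field_simp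
      rw [h2]; exact B.mul_mem (B.mul_mem hx'B hzB.2.1) hxB.2.2
    · change x * y / (x * y) ∈ B
      rw [div_self hxy']; exact B.one_mem
    · change x * y * z / (x * y) ∈ B
      have h2 : x * y * z / (x * y) = z := by field_simp
      rw [h2]; exact hzB.2.1
  refine (isLR_hY_iff hx hy hz hx' B).2 ⟨hB, 0, 0, 0, 1, 4, 2, one_ne_zero, one_ne_zero,
    one_ne_zero, r1, r2, r3, r4, r5, r6, ?_⟩
  refine F0d_isLoc _ hk ?_ ?_
  · rintro t (⟨j, rfl⟩ | ⟨j, rfl⟩ | ⟨j, rfl⟩ | ⟨j, rfl⟩ | ⟨j, rfl⟩ | ⟨j, rfl⟩)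
    · exact r1 j
    · exact r2 j
    · exact r3 j
    · exact r4 j
    · exact r5 j
    · exact r6 j
  · intro C hCB hCu hCk hCT
    have s1 : ∀ j, fE x w1 j ∈ C := fun j => by
      have := hCT _ (Or.inl ⟨j, rfl⟩)
      simpa [fE] using this
    have s2 : ∀ j, fE y w2 j ∈ C := fun j => by
      have := hCT _ (Or.inr (Or.inl ⟨j, rfl⟩))
      simpa [fE] using this
    have s3 : ∀ j, fE z w3 j ∈ C := fun j => by
      have := hCT _ (Or.inr (Or.inr (Or.inl ⟨j, rfl⟩)))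
      simpa [fE] using this
    have s6 : x' * z / (x * y) ∈ C :=
      hCT _ (Or.inr (Or.inr (Or.inr (Or.inr (Or.inr ⟨0, rfl⟩)))))
    have hxC : x ∈ C := s1 1
    have hzC : z ∈ C := s3 1
    have h3 : x' / y ∈ C := by
      have h2 : x' / y = x' * z / (x * y) * x * z⁻¹ := by field_simp
      rw [h2]
      exact C.mul_mem (C.mul_mem s6 hxC) (hCu z hzC hzB)
    exact hgen C hCB hCu hCk hxC (s2 1) hzC (s1 3) (s2 3) (s3 3) h3



end Pool.Agent.Lib.MP_55c1e7_ag.D
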