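import Pool.Agent.Lib.MP_55c1e7_ag.D.F0

set_option autoImplicit false

namespace Pool.Agent.Lib.MP_55c1e7_ag.D

open Polynomial

variable {K : Type} [Field K]

/-- The data of box D: `O` a discrete valuation ring with uniformizer `t` and fraction field `k`, `R` the local ring of `W = E^3` over `O`
at the point `t = x = y = z = 0`, `w_i = 1` (regular of dimension 4). -/
structure RData {O R : Type} [CommRing O] [CommRing R] [IsRegularLocalRing R] [Algebra O R]
    (t : O) (x y z w1 w2 w3 : R) : Prop where
  ht : Irreducible t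
  two : IsUnit (2 : O)
  max : IsLocalRing.maximalIdeal R = Ideal.span {algebraMap O R t, x, y, z}
  dim : ringKrullDim R = 4
  hw1 : w1 ^ 2 = x ^ 4 + 1
  hw2 : w2 ^ 2 = y ^ 4 + 1
  hw3 : w3 ^ 2 = z ^ 4 + 1
  gen : ∀ r : R, ∃ a b : R, a ∈ Algebra.adjoin O {x, y, z, w1, w2, w3} ∧
    b ∈ Algebra.adjoin O {x, y, z, w1, w2, w3} ∧ IsUnit b ∧ r * b = a

section
variable {O k R : Type} [CommRing O] [IsDomain O] [IsDiscreteValuationRing O] [Field k]
  [Algebra O k] [IsFractionRing O k] [CommRing R] [IsRegularLocalRing R] [IsDomain R]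
  [UniqueFactorizationMonoid R] [Algebra O R] [Algebra R K] [IsFractionRing R K] [Algebra O K]
  [IsScalarTower O R K] [Algebra k K] [IsScalarTower O k K]
  {t : O} {x y z w1 w2 w3 : R}

/-- the list of `Y` in `K`, coming from elements of `R` -/
noncomputable def hYR (K : Type) [Field K] [Algebra R K] (T x y z w1 w2 w3 : R) :=
  hY (algebraMap R K (x - T)) (algebraMap R K x) (algebraMap R K y) (algebraMap R K z)
    (algebraMap R K w1) (algebraMap R K w2) (algebraMap R K w3)

/-- ROW F1a. A local ring `B` of `Y` that contains `R` is a localization of every `S'` with `R ⊆ S' ⊆ B` that contains one ratio of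
each kind up to units: `le_of_ratios` for `C = locAt S' B`. -/
theorem isLoc_of_ratios (hpar : ParFacts (algebraMap O R t) x y z) {B : Subring K}
    (hB : IsLR k (hYR K (algebraMap O R t) x y z w1 w2 w3) B)
    (hR : ∀ r : R, algebraMap R K r ∈ B) {S : Type} [CommRing S] [Algebra S K]
    (hS : ∀ s : S, algebraMap S K s ∈ B)
    (hRS : ∀ r : R, ∃ s : S, algebraMap S K s = algebraMap R K r)
    (h1 : algebraMap R K x / algebraMap R K z ∈ locAt S B ∨
      algebraMap R K z / algebraMap R K x ∈ locAt S B)
    (h2 : algebraMap R K x * algebraMap R K y / algebraMap R K z ∈ locAt S B ∨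
      algebraMap R K z / (algebraMap R K x * algebraMap R K y) ∈ locAt S B)
    (h3 : algebraMap R K (x - algebraMap O R t) * algebraMap R K z /
        (algebraMap R K x * algebraMap R K y) ∈ locAt S B ∨
      algebraMap R K x * algebraMap R K y /
        (algebraMap R K (x - algebraMap O R t) * algebraMap R K z) ∈ locAt S B) :
    IsLoc S B := by
  have hmem : ∀ r : R, algebraMap R K r ∈ locAt S B := by
    intro r
    obtain ⟨s, hs⟩ := hRS r
    exact ⟨s, 1, by simp, by simp [B.one_mem], by simp [hs]⟩
  have hinjR : Function.Injective (algebraMap R K) := IsFractionRing.injective R K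
  have hne : ∀ r : R, r ≠ 0 → algebraMap R K r ≠ 0 := fun r hr h =>
    hr (hinjR (by rw [h, map_zero]))
  have hkB : ∀ c : k, algebraMap k K c ∈ B := by
    obtain ⟨-, i, -, -, hloc⟩ := hB
    intro c
    exact hloc.1 (algebraMap k _ c)
  have hkC : ∀ c : k, algebraMap k K c ∈ locAt S B := by
    intro c
    obtain ⟨a, b, hb, hab⟩ := IsFractionRing.div_surjective (A := O) c
    obtain ⟨a', ha'⟩ := hRS (algebraMap O R a)
    obtain ⟨b', hb'⟩ := hRS (algebraMap O R b)
    have hb0 : b ≠ 0 := nonZeroDivisors.ne_zero hb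
    have e1 : ∀ o : O, algebraMap R K (algebraMap O R o) = algebraMap k K (algebraMap O k o) := by
      intro o
      rw [← IsScalarTower.algebraMap_apply O R K, ← IsScalarTower.algebraMap_apply O k K]
    rw [e1] at ha' hb'
    have hbk : algebraMap O k b ≠ 0 := by
      intro h
      exact hb0 (IsFractionRing.injective O k (by rw [h, map_zero]))
    have hbK : algebraMap k K (algebraMap O k b) ≠ 0 := by
      intro h
      exact hbk ((algebraMap k K).injective (by rw [h, map_zero]))
    refine ⟨a', b', ?_, ?_, ?_⟩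
    · rw [hb']; exact hbK
    · rw [hb', ← map_inv₀]; exact hkB _
    · rw [ha', hb', ← hab, map_div₀, div_mul_cancel₀ _ hbK]
  have hle : B ≤ locAt S B := by
    refine le_of_ratios (hne x hpar.px.ne_zero) (hne y hpar.py.ne_zero) (hne z hpar.pz.ne_zero)
      (hne _ hpar.px'.ne_zero) hB (locAt S B) (locAt_le hS) (fun u hu hU => ?_) hkC (hmem x)
      (hmem y) (hmem z) (hmem _) (hmem w1) (hmem w2) (hmem w3) h1 h2 h3
    exact locAt_inv_mem hS hu hU.1 hU.2.2
  have heq : locAt S B = B := le_antisymm (locAt_le hS) hle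
  have h := isLoc_locAt (V := B) hS
  rwa [heq] at h


/-- lifting a factorization modulo `c` -/
theorem F1P_lift {R : Type} [CommRing R] {a b c : R} (f : R[X])
    (h : ∃ g : (R ⧸ Ideal.span {c})[X], f.map (Ideal.Quotient.mk (Ideal.span {c})) =
      (C (Ideal.Quotient.mk (Ideal.span {c}) b) * X - C (Ideal.Quotient.mk (Ideal.span {c}) a)) * g) :
    ∃ q r : R[X], f = (C b * X - C a) * q + C c * r := by
  obtain ⟨g, hg⟩ := h
  obtain ⟨q, hq⟩ := Polynomial.map_surjective (Ideal.Quotient.mk (Ideal.span {c}))
    Ideal.Quotient.mk_surjective g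
  have h0 : (f - (C b * X - C a) * q).map (Ideal.Quotient.mk (Ideal.span {c})) = 0 := by
    rw [Polynomial.map_sub, hg, Polynomial.map_mul, Polynomial.map_sub, Polynomial.map_mul,
      Polynomial.map_C, Polynomial.map_X, Polynomial.map_C, hq, sub_self]
  have h1 : C c ∣ f - (C b * X - C a) * q := by
    rw [Polynomial.C_dvd_iff_dvd_coeff]
    intro i
    have h2 := congrArg (fun p => Polynomial.coeff p i) h0
    simp only [Polynomial.coeff_map, Polynomial.coeff_zero] at h2
    rw [Ideal.Quotient.eq_zero_iff_mem, Ideal.mem_span_singleton] at h2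
    exact h2
  obtain ⟨r, hr⟩ := h1
  exact ⟨q, r, by rw [← hr]; ring⟩

/-- evaluation at `a/b` of a multiple of `bX - a` -/
theorem F1P_eval {R : Type} [CommRing R] [Algebra R K] {a b : R}
    (hb : algebraMap R K b ≠ 0) (q : R[X]) :
    aeval (algebraMap R K a / algebraMap R K b) ((C b * X - C a) * q) = 0 := by
  rw [map_mul, map_sub, map_mul, aeval_C, aeval_X, aeval_C, mul_div_cancel₀ _ hb, sub_self,
    zero_mul]

/-- `y` is prime in `R[z/x]` (used in `lemma_b`); general form: `c` prime in `R`, `R/(c)` a domain in which `b` is prime and does not divide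
`a` (in the form: `(b,c)` prime, `a ∉ (b,c)`, `b ∉ (c)`). If `c ∣ f(σ) g(σ)` in `R[σ]`, `f(σ) g(σ) = c h(σ)`, then `f g ≡ (bX - a) l` modulo `c`;
`bX - a` is prime in `(R/c)[X]` (kernel of the evaluation at `a/b`, K1 (a) over `R/(c)`), so it divides `f` or `g` modulo `c`. -/
theorem prime_adjoin_of {a b c : R} (hb : Prime b) (hba : ¬ b ∣ a) (hc : Prime c)
    (hbc : (Ideal.span {b, c}).IsPrime) (ha : a ∉ Ideal.span {b, c}) (hb' : ¬ c ∣ b) :
    Prime (algebraMap R (Algebra.adjoin R {(algebraMap R K a / algebraMap R K b : K)}) c) := by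
  have hfs : FaithfulSMul R K := (faithfulSMul_iff_algebraMap_injective R K).2
    (IsFractionRing.injective R K)
  have hinj : Function.Injective (algebraMap R K) := IsFractionRing.injective R K
  have hb0 : algebraMap R K b ≠ 0 := fun h => hb.ne_zero (hinj (by rw [h, map_zero]))
  have hc0 : algebraMap R K c ≠ 0 := fun h => hc.ne_zero (hinj (by rw [h, map_zero]))
  have hPc : (Ideal.span {c}).IsPrime := (Ideal.span_singleton_prime hc.ne_zero).2 hc
  have hbD0 : Ideal.Quotient.mk (Ideal.span {c}) b ≠ 0 := by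
    rw [Ne, Ideal.Quotient.eq_zero_iff_mem, Ideal.mem_span_singleton]
    exact hb'
  -- divisibility by `b` modulo `c`
  have hdiv : ∀ u : R, Ideal.Quotient.mk (Ideal.span {c}) b ∣ Ideal.Quotient.mk (Ideal.span {c}) u ↔
      u ∈ Ideal.span {b, c} := by
    intro u
    constructor
    · rintro ⟨v, hv⟩
      obtain ⟨v, rfl⟩ := Ideal.Quotient.mk_surjective v
      rw [← map_mul, Ideal.Quotient.eq, Ideal.mem_span_singleton] at hv
      obtain ⟨w, hw⟩ := hv
      rw [Ideal.mem_span_pair]
      exact ⟨v, w, by rw [mul_comm v b, mul_comm w c, ← hw]; ring⟩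
    · intro hu
      rw [Ideal.mem_span_pair] at hu
      obtain ⟨v, w, hvw⟩ := hu
      refine ⟨Ideal.Quotient.mk (Ideal.span {c}) v, ?_⟩
      rw [← map_mul, Ideal.Quotient.eq, Ideal.mem_span_singleton]
      exact ⟨w, by rw [← hvw]; ring⟩
  have hbD : Prime (Ideal.Quotient.mk (Ideal.span {c}) b) := by
    refine ⟨hbD0, ?_, ?_⟩
    · intro hu
      have h1 : Ideal.Quotient.mk (Ideal.span {c}) b ∣ Ideal.Quotient.mk (Ideal.span {c}) 1 := by
        rw [map_one]; exact hu.dvd
      exact hbc.ne_top ((Ideal.eq_top_iff_one _).2 ((hdiv 1).1 h1))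
    · intro u v huv
      obtain ⟨u, rfl⟩ := Ideal.Quotient.mk_surjective u
      obtain ⟨v, rfl⟩ := Ideal.Quotient.mk_surjective v
      rw [← map_mul, hdiv] at huv
      rw [hdiv, hdiv]
      exact hbc.mem_or_mem huv
  have hbaD : ¬ Ideal.Quotient.mk (Ideal.span {c}) b ∣ Ideal.Quotient.mk (Ideal.span {c}) a := by
    rw [hdiv]; exact ha
  -- the evaluation over the quotient
  let D := R ⧸ Ideal.span {c}
  let K' := FractionRing D
  let ev : R[X] → K' := fun f =>
    aeval (algebraMap D K' (Ideal.Quotient.mk (Ideal.span {c}) a) /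
      algebraMap D K' (Ideal.Quotient.mk (Ideal.span {c}) b))
      (f.map (Ideal.Quotient.mk (Ideal.span {c})))
  have hevmul : ∀ f g : R[X], ev (f * g) = ev f * ev g := by
    intro f g
    simp only [ev, Polynomial.map_mul, map_mul]
  have hevC : ev (C c) = 0 := by
    simp only [ev, Polynomial.map_C, aeval_C]
    have h1 : Ideal.Quotient.mk (Ideal.span {c}) c = 0 := by
      rw [Ideal.Quotient.eq_zero_iff_mem]; exact Ideal.mem_span_singleton_self c
    rw [h1, map_zero]
  have hevb : ev (C b * X - C a) = 0 := by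
    have h1 : algebraMap D K' (Ideal.Quotient.mk (Ideal.span {c}) b) ≠ 0 := fun h =>
      hbD0 (IsFractionRing.injective D K' (by rw [h, map_zero]))
    have h2 := F1P_eval (K := K') (a := Ideal.Quotient.mk (Ideal.span {c}) a) h1 1
    simp only [ev, Polynomial.map_sub, Polynomial.map_mul, Polynomial.map_C, Polynomial.map_X]
    rw [mul_one] at h2
    exact h2
  have hevadd : ∀ f g : R[X], ev (f + g) = ev f + ev g := by
    intro f g
    simp only [ev, Polynomial.map_add, map_add]
  -- vanishing of `ev` gives divisibility by `c`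
  have hkey : ∀ f : R[X], ev f = 0 → ∃ r : R[X],
      aeval (algebraMap R K a / algebraMap R K b) f = algebraMap R K c *
        aeval (algebraMap R K a / algebraMap R K b) r := by
    intro f hf
    obtain ⟨q, r, hqr⟩ := F1P_lift f (aeval_div_eq_zero (K := K') hbD hbaD _ hf)
    refine ⟨r, ?_⟩
    rw [hqr, map_add, F1P_eval hb0, zero_add, map_mul, aeval_C]
  have hS : ∀ s : Algebra.adjoin R {(algebraMap R K a / algebraMap R K b : K)},
      ∃ f : R[X], (s : K) = aeval (algebraMap R K a / algebraMap R K b) f := by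
    rintro ⟨s, hs⟩
    rw [Algebra.adjoin_singleton_eq_range_aeval] at hs
    obtain ⟨f, hf⟩ := hs
    exact ⟨f, hf.symm⟩
  have hcS : ((algebraMap R (Algebra.adjoin R {(algebraMap R K a / algebraMap R K b : K)}) c :
      Algebra.adjoin R {(algebraMap R K a / algebraMap R K b : K)}) : K) = algebraMap R K c := rfl
  refine ⟨?_, ?_, ?_⟩
  · intro h
    apply hc0
    rw [← hcS, h]
    rfl
  · intro hu
    obtain ⟨s, hs⟩ := hu.exists_right_inv
    obtain ⟨f, hf⟩ := hS s
    have h1 : algebraMap R K c * aeval (algebraMap R K a / algebraMap R K b) f = 1 := by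
      rw [← hf, ← hcS]
      exact congrArg Subtype.val hs
    have h2 : aeval (algebraMap R K a / algebraMap R K b) (C c * f - 1) = 0 := by
      rw [map_sub, map_mul, aeval_C, h1, map_one, sub_self]
    obtain ⟨g, hg⟩ := aeval_div_eq_zero (K := K) hb hba _ h2
    have h3 : ev (1 : R[X]) = 0 := by
      have h4 : (C c * f : R[X]) = (C b * X - C a) * g + 1 := by rw [← hg]; ring
      have h5 : ev (C c * f) = ev ((C b * X - C a) * g + 1) := by rw [h4]
      rw [hevmul, hevC, hevadd, hevmul, hevb, zero_mul, zero_mul, zero_add] at h5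
      exact h5.symm
    have h6 : ev (1 : R[X]) = 1 := by
      simp only [ev, Polynomial.map_one, map_one]
    exact one_ne_zero (h6.symm.trans h3)
  · intro s s' hss
    obtain ⟨u, hu⟩ := hss
    obtain ⟨f, hf⟩ := hS s
    obtain ⟨g, hg⟩ := hS s'
    obtain ⟨h, hh⟩ := hS u
    have h1 : aeval (algebraMap R K a / algebraMap R K b) f *
        aeval (algebraMap R K a / algebraMap R K b) g =
        algebraMap R K c * aeval (algebraMap R K a / algebraMap R K b) h := by
      rw [← hf, ← hg, ← hh, ← hcS]
      exact congrArg Subtype.val hu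
    have h2 : aeval (algebraMap R K a / algebraMap R K b) (f * g - C c * h) = 0 := by
      rw [map_sub, map_mul, map_mul, aeval_C, h1, sub_self]
    obtain ⟨l, hl⟩ := aeval_div_eq_zero (K := K) hb hba _ h2
    have h3 : ev f * ev g = 0 := by
      have h4 : f * g = (C b * X - C a) * l + C c * h := by rw [← hl]; ring
      rw [← hevmul, h4, hevadd, hevmul, hevmul, hevb, hevC, zero_mul, zero_mul, zero_add]
    have hfin : ∀ (v : Algebra.adjoin R {(algebraMap R K a / algebraMap R K b : K)}) (p : R[X]),
        (v : K) = aeval (algebraMap R K a / algebraMap R K b) p → ev p = 0 →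
        algebraMap R (Algebra.adjoin R {(algebraMap R K a / algebraMap R K b : K)}) c ∣ v := by
      intro v p hv hp
      obtain ⟨r, hr⟩ := hkey p hp
      refine ⟨⟨aeval (algebraMap R K a / algebraMap R K b) r,
        Polynomial.aeval_mem_adjoin_singleton _ _⟩, ?_⟩
      apply Subtype.ext
      change (v : K) = algebraMap R K c * aeval (algebraMap R K a / algebraMap R K b) r
      rw [hv, hr]
    rcases mul_eq_zero.1 h3 with h5 | h5
    · exact Or.inl (hfin s f hf h5)
    · exact Or.inr (hfin s' g hg h5)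


private theorem F1B_adjoin_mem {R : Type} [CommRing R] [Algebra R K] {B : Subring K}
    (hR : ∀ r : R, algebraMap R K r ∈ B) {c : K} (hc : c ∈ B) (s : Algebra.adjoin R {c}) :
    algebraMap (Algebra.adjoin R {c}) K s ∈ B := by
  have h : ∀ u : K, u ∈ Algebra.adjoin R {c} → u ∈ B := by
    intro u hu
    induction hu using Algebra.adjoin_induction with
    | mem v hv => rw [Set.mem_singleton_iff] at hv; rw [hv]; exact hc
    | algebraMap r => exact hR r
    | add u v _ _ hu hv => exact B.add_mem hu hv
    | mul u v _ _ hu hv => exact B.mul_mem hu hv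
  exact h s.1 s.2

private theorem F1B_mem_locAt {S : Type} [CommRing S] [Algebra S K] {V : Subring K} {q : K}
    (h : ∃ a : S, algebraMap S K a = q) : q ∈ locAt S V := by
  obtain ⟨a, ha⟩ := h
  exact ⟨a, 1, by rw [map_one]; exact one_ne_zero, by rw [map_one, inv_one]; exact V.one_mem,
    by rw [map_one, mul_one, ha]⟩

private theorem F1B_mem_locAt' {S : Type} [CommRing S] [Algebra S K] {V : Subring K} {q : K}
    (s : S) (hs : Un V (algebraMap S K s)) (h : ∃ a : S, algebraMap S K a = q * algebraMap S K s) :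
    q ∈ locAt S V := by
  obtain ⟨a, ha⟩ := h
  exact ⟨a, s, hs.1, hs.2.2, ha.symm⟩

/-- ROW F1B (`lemma_b`). The case `x, y, z, σ = z/x ∈ m_B` is impossible. Let `S = R[σ]` (`K2` with `(a,b) = (z,x)`). In `S`:
`σ` is prime (`isPrime_span_adjoin` with `J = 0`: `S/(σ) = R/(z)`), `y` is prime (`S/(y) = (R/(y))[z/x]` is a domain: apply `aeval_div_eq_zero` in
`R/(y)`; or directly), `(y, σ)` is a prime ideal (`isPrime_span_adjoin`, `J = (y)`), `σ ∤ y`, `y ∤ σ`, and `x ∉ (y, σ)` because `x ∉ (y,z)`.
By `ratios_mem` `xy/z = y/σ ∈ B` or `σ/y ∈ B`. In the first case `B` is a localization of `S[y/σ]`, in the second of `S[σ/y]` (F1a;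
`x'z/(xy) = x' σ/y`, `x'` a unit). `lemmaF1A` over `S` for `(a,b) = (y,σ)` resp. `(σ,y)` gives `m_B ∩ S = (y,σ)`, but `x ∈ m_B`. -/
theorem lemma_b (hpar : ParFacts (algebraMap O R t) x y z) {B : Subring K} (hD : DVR B)
    (hB : IsLR k (hYR K (algebraMap O R t) x y z w1 w2 w3) B)
    (hR : ∀ r : R, algebraMap R K r ∈ B) (hx : NU B (algebraMap R K x))
    (hy : NU B (algebraMap R K y)) (hz : NU B (algebraMap R K z))
    (hs : NU B (algebraMap R K z / algebraMap R K x)) : False := by
  have hinj : Function.Injective (algebraMap R K) := IsFractionRing.injective R K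
  have hfs : FaithfulSMul R K := (faithfulSMul_iff_algebraMap_injective R K).2 hinj
  have hne : ∀ r : R, r ≠ 0 → algebraMap R K r ≠ 0 := fun r hr h =>
    hr (hinj (by rw [h, map_zero]))
  have hx0 := hne x hpar.px.ne_zero
  have hy0 := hne y hpar.py.ne_zero
  have hz0 := hne z hpar.pz.ne_zero
  have hx'0 := hne (x - algebraMap O R t) hpar.px'.ne_zero
  have hT0 := hne (algebraMap O R t) hpar.pT.ne_zero
  -- `t` is a unit of `B`
  have hk : ∀ c : k, algebraMap k K c ∈ B := by
    obtain ⟨_, i, _, _, hloc⟩ := hB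
    intro c
    exact hloc.1 (algebraMap k _ c)
  have ht0 : algebraMap O k t ≠ 0 := by
    intro h
    apply hT0
    have h1 : algebraMap O K t = algebraMap k K (algebraMap O k t) :=
      IsScalarTower.algebraMap_apply O k K t
    rw [← IsScalarTower.algebraMap_apply O R K t, h1, h, map_zero]
  have hTun : Un B (algebraMap R K (algebraMap O R t)) := by
    refine ⟨hT0, hR _, ?_⟩
    rw [← IsScalarTower.algebraMap_apply O R K t, IsScalarTower.algebraMap_apply O k K t,
      ← map_inv₀]
    exact hk _
  have hx'un : Un B (algebraMap R K (x - algebraMap O R t)) := by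
    rcases (mem_iff_un_or_nu B _).1 (hR (x - algebraMap O R t)) with h | h
    · exact h
    · exfalso
      have h1 : NU B (algebraMap R K (x - algebraMap O R t) * (-1)) :=
        NU.mul h (B.neg_mem B.one_mem)
      have h2 := hD.loc _ _ hx h1
      have h3 : algebraMap R K x + algebraMap R K (x - algebraMap O R t) * (-1) =
          algebraMap R K (algebraMap O R t) := by
        rw [map_sub]; ring
      rw [h3] at h2
      exact not_un_of_nu h2 hTun
  -- the ring `S = R[z/x]`
  let S := Algebra.adjoin R {(algebraMap R K z / algebraMap R K x : K)}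
  have hfS : FaithfulSMul S K := (faithfulSMul_iff_algebraMap_injective S K).2
    Subtype.val_injective
  let c : S := ⟨algebraMap R K z / algebraMap R K x, Algebra.subset_adjoin rfl⟩
  have hc : (c : K) = algebraMap R K z / algebraMap R K x := rfl
  have hcK : algebraMap S K c = algebraMap R K z / algebraMap R K x := rfl
  have hrK : ∀ r : R, algebraMap S K (algebraMap R S r) = algebraMap R K r := fun r =>
    (IsScalarTower.algebraMap_apply R S K r).symm
  have hSB : ∀ s : S, algebraMap S K s ∈ B := F1B_adjoin_mem hR hs.1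
  have hc0 : c ≠ 0 := by
    intro h
    have h1 : (c : K) = 0 := by rw [h]; rfl
    rw [hc] at h1
    exact div_ne_zero hz0 hx0 h1
  have hzP : (Ideal.span {z} ⊔ ⊥ : Ideal R).IsPrime := by
    rw [sup_bot_eq]
    exact (Ideal.span_singleton_prime hpar.pz.ne_zero).2 hpar.pz
  have hcP : Prime c := by
    have h := isPrime_span_adjoin hpar.px hpar.z_nx ⊥ hzP c hc
    rw [Ideal.map_bot, sup_bot_eq] at h
    exact (Ideal.span_singleton_prime hc0).1 h
  have hcy : ¬ c ∣ algebraMap R S y := by
    intro h
    have h1 : algebraMap R S y ∈ (Ideal.span {c} ⊔ (⊥ : Ideal R).map (algebraMap R S)) := by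
      rw [Ideal.map_bot, sup_bot_eq]
      exact Ideal.mem_span_singleton.2 h
    have h2 := mem_of_mem_span_adjoin hpar.px hpar.z_nx ⊥ y c hc h1
    rw [sup_bot_eq, Ideal.mem_span_singleton] at h2
    exact hpar.y_nz h2
  have hzy : (Ideal.span {z} ⊔ Ideal.span {y} : Ideal R) = Ideal.span {z, y} :=
    (Ideal.span_insert z {y}).symm
  have hspan : (Ideal.span {c} ⊔ (Ideal.span {y}).map (algebraMap R S) : Ideal S) =
      Ideal.span {c, algebraMap R S y} := by
    rw [Ideal.map_span, Set.image_singleton, ← Ideal.span_insert]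
  have hPcy : (Ideal.span {c, algebraMap R S y} : Ideal S).IsPrime := by
    rw [← hspan]
    exact isPrime_span_adjoin hpar.px hpar.z_nx (Ideal.span {y}) (by rw [hzy]; exact hpar.zy) c hc
  have hxcy : algebraMap R S x ∉ (Ideal.span {c, algebraMap R S y} : Ideal S) := by
    intro h
    rw [← hspan] at h
    have h2 := mem_of_mem_span_adjoin hpar.px hpar.z_nx (Ideal.span {y}) x c hc h
    rw [hzy] at h2
    exact hpar.x_nzy h2
  have hyP : Prime (algebraMap R S y) :=
    prime_adjoin_of hpar.px hpar.z_nx hpar.py hpar.xy hpar.z_nxy hpar.x_ny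
  have hyc : ¬ algebraMap R S y ∣ c := by
    rintro ⟨s, h⟩
    rcases hcP.dvd_or_dvd (show c ∣ algebraMap R S y * s from ⟨1, by rw [mul_one, ← h]⟩) with
      h1 | ⟨u, hu⟩
    · exact hcy h1
    · apply hyP.not_isUnit
      apply IsUnit.of_mul_eq_one u
      apply mul_left_cancel₀ hc0
      rw [mul_one]
      calc c * (algebraMap R S y * u) = algebraMap R S y * (c * u) := by ring
        _ = c := by rw [← hu, ← h]
  rcases (ratios_mem hx0 hy0 hz0 hx'0 hB (hR x) (hR y) (hR z) (hR _)).2.1 with h2 | h2
  · -- `y/σ ∈ B`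
    have he : algebraMap S K (algebraMap R S y) / algebraMap S K c =
        algebraMap R K x * algebraMap R K y / algebraMap R K z := by
      rw [hrK, hcK]
      field_simp
    have hcB : algebraMap S K (algebraMap R S y) / algebraMap S K c ∈ B := by
      rw [he]; exact h2
    have hmem : ∀ s : S, ∃ s' : Algebra.adjoin S
        {(algebraMap S K (algebraMap R S y) / algebraMap S K c : K)},
        algebraMap _ K s' = algebraMap S K s := fun s =>
      ⟨algebraMap S _ s, (IsScalarTower.algebraMap_apply S _ K s).symm⟩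
    have hmemc : ∃ s' : Algebra.adjoin S
        {(algebraMap S K (algebraMap R S y) / algebraMap S K c : K)},
        algebraMap _ K s' = algebraMap R K x * algebraMap R K y / algebraMap R K z :=
      ⟨⟨_, Algebra.subset_adjoin rfl⟩, he⟩
    have hloc : IsLoc (Algebra.adjoin S
        {(algebraMap S K (algebraMap R S y) / algebraMap S K c : K)}) B := by
      apply isLoc_of_ratios hpar hB hR
      · exact F1B_adjoin_mem hSB hcB
      · intro r
        exact hmem (algebraMap R S r)
      · right
        exact F1B_mem_locAt (hmem c)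
      · left
        exact F1B_mem_locAt hmemc
      · right
        obtain ⟨s', hs'⟩ := hmem (algebraMap R S (x - algebraMap O R t))
        obtain ⟨a', ha'⟩ := hmemc
        apply F1B_mem_locAt' s'
        · rw [hs', hrK]; exact hx'un
        · refine ⟨a', ?_⟩
          rw [ha', hs', hrK]
          field_simp
    have hP2 : (Ideal.span {algebraMap R S y, c} : Ideal S).IsPrime := by
      rw [Ideal.span_pair_comm]; exact hPcy
    have h := (lemmaF1A hcP hcy hP2 hD hloc (by rw [hcK]; exact hs)).2.1 (algebraMap R S x)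
    have h3 := h.1 (by rw [hrK]; exact hx)
    rw [Ideal.span_pair_comm] at h3
    exact hxcy h3
  · -- `σ/y ∈ B`
    have he : algebraMap S K c / algebraMap S K (algebraMap R S y) =
        algebraMap R K z / (algebraMap R K x * algebraMap R K y) := by
      rw [hrK, hcK]
      field_simp
    have hcB : algebraMap S K c / algebraMap S K (algebraMap R S y) ∈ B := by
      rw [he]; exact h2
    have hmem : ∀ s : S, ∃ s' : Algebra.adjoin S
        {(algebraMap S K c / algebraMap S K (algebraMap R S y) : K)},
        algebraMap _ K s' = algebraMap S K s := fun s =>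
      ⟨algebraMap S _ s, (IsScalarTower.algebraMap_apply S _ K s).symm⟩
    have hmemc : ∃ s' : Algebra.adjoin S
        {(algebraMap S K c / algebraMap S K (algebraMap R S y) : K)},
        algebraMap _ K s' = algebraMap R K z / (algebraMap R K x * algebraMap R K y) :=
      ⟨⟨_, Algebra.subset_adjoin rfl⟩, he⟩
    have hloc : IsLoc (Algebra.adjoin S
        {(algebraMap S K c / algebraMap S K (algebraMap R S y) : K)}) B := by
      apply isLoc_of_ratios hpar hB hR
      · exact F1B_adjoin_mem hSB hcB
      · intro r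
        exact hmem (algebraMap R S r)
      · right
        exact F1B_mem_locAt (hmem c)
      · right
        exact F1B_mem_locAt hmemc
      · left
        obtain ⟨s', hs'⟩ := hmem (algebraMap R S (x - algebraMap O R t))
        obtain ⟨a', ha'⟩ := hmemc
        apply F1B_mem_locAt
        refine ⟨s' * a', ?_⟩
        rw [map_mul, ha', hs', hrK, mul_div_assoc]
    have h := (lemmaF1A hyP hyc hPcy hD hloc (by rw [hrK]; exact hy)).2.1 (algebraMap R S x)
    exact hxcy (h.1 (by rw [hrK]; exact hx))


/-- `R ⊆ B` and `c ∈ B` imply `R[c] ⊆ B`. -/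
theorem F1A_adjoin_le {R' : Type} [CommRing R'] [Algebra R' K] {B : Subring K} {c : K}
    (hR : ∀ r : R', algebraMap R' K r ∈ B) (hc : c ∈ B)
    (s : Algebra.adjoin R' {c}) : algebraMap (Algebra.adjoin R' {c}) K s ∈ B := by
  have key : ∀ u ∈ Algebra.adjoin R' {c}, u ∈ B := by
    intro u hu
    induction hu using Algebra.adjoin_induction with
    | mem v hv => rw [Set.mem_singleton_iff.1 hv]; exact hc
    | algebraMap r => exact hR r
    | add p q _ _ h1 h2 => exact B.add_mem h1 h2
    | mul p q _ _ h1 h2 => exact B.mul_mem h1 h2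
  exact key _ s.2

theorem F1A_locAt_self {S : Type} [CommRing S] [Algebra S K] {B : Subring K} (s : S) :
    algebraMap S K s ∈ locAt S B :=
  ⟨s, 1, by simp, by simp [B.one_mem], by simp⟩

theorem F1A_locAt_inv {S : Type} [CommRing S] [Algebra S K] {B : Subring K} {s : S}
    (h : Un B (algebraMap S K s)) : (algebraMap S K s)⁻¹ ∈ locAt S B :=
  ⟨1, s, h.1, h.2.2, by rw [inv_mul_cancel₀ h.1, map_one]⟩

theorem F1A_nu_neg {B : Subring K} {a : K} (h : NU B a) : NU B (-a) := by
  refine ⟨B.neg_mem h.1, fun h0 h1 => h.2 (neg_ne_zero.1 h0) ?_⟩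
  have := B.neg_mem h1
  rwa [inv_neg, neg_neg] at this

/-- the uniformizer is a unit of every local ring of the generic fibre -/
theorem F1A_unT (hpar : ParFacts (algebraMap O R t) x y z) {B : Subring K}
    (hB : IsLR k (hYR K (algebraMap O R t) x y z w1 w2 w3) B) :
    Un B (algebraMap R K (algebraMap O R t)) := by
  have hT0 : algebraMap R K (algebraMap O R t) ≠ 0 := by
    intro h0
    exact hpar.pT.ne_zero ((IsFractionRing.injective R K) (by rw [h0, map_zero]))
  have hk : ∀ c : k, algebraMap k K c ∈ B := by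
    obtain ⟨_, i, _, _, hloc⟩ := hB
    intro c
    have := hloc.1 (algebraMap k _ c)
    rwa [← IsScalarTower.algebraMap_apply] at this
  have hT : algebraMap R K (algebraMap O R t) = algebraMap k K (algebraMap O k t) := by
    rw [← IsScalarTower.algebraMap_apply O R K, ← IsScalarTower.algebraMap_apply O k K]
  refine ⟨hT0, ?_, ?_⟩
  · rw [hT]; exact hk _
  · rw [hT, ← map_inv₀]; exact hk _

/-- `x ∈ m_B` implies that `x' = x - t` is a unit of `B` -/
theorem F1A_unx' (hpar : ParFacts (algebraMap O R t) x y z) {B : Subring K} (hD : DVR B)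
    (hB : IsLR k (hYR K (algebraMap O R t) x y z w1 w2 w3) B)
    (hR : ∀ r : R, algebraMap R K r ∈ B) (hx : NU B (algebraMap R K x)) :
    Un B (algebraMap R K (x - algebraMap O R t)) := by
  rcases (mem_iff_un_or_nu B _).1 (hR (x - algebraMap O R t)) with h | h
  · exact h
  · exfalso
    have h1 := hD.loc _ _ hx (F1A_nu_neg h)
    have h2 : algebraMap R K x + -algebraMap R K (x - algebraMap O R t) =
        algebraMap R K (algebraMap O R t) := by rw [map_sub]; ring
    rw [h2] at h1
    exact not_un_of_nu h1 (F1A_unT hpar hB)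

/-- ROW F1A. Case `x, z ∈ m_B`. `x' = x - t` is a unit of `B` (`t` is one).
If `x/z ∈ B` then `B` is a localization of `R[x/z]` (F1a: `xy/z = y (x/z)`, `xy/(x'z) = y (x/z) / x'`), so `B = E(x,z)` by `lemmaF1A`.
If not, `σ = z/x ∈ m_B`. If `y` is a unit of `B`: `z/(xy) = σ / y`, `x'z/(xy) = x' σ/y`, so `B` is a localization of `R[z/x]`, and `lemmaF1A` for
`(a,b) = (z,x)` says that `z/x` is a unit. Contradiction. If `y ∈ m_B`: this is `lemma_b`. -/
theorem F1_xz (hpar : ParFacts (algebraMap O R t) x y z) {B : Subring K} (hD : DVR B)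
    (hB : IsLR k (hYR K (algebraMap O R t) x y z w1 w2 w3) B)
    (hR : ∀ r : R, algebraMap R K r ∈ B) (hx : NU B (algebraMap R K x))
    (hz : NU B (algebraMap R K z)) : IsE x z B := by
  have hx' := F1A_unx' hpar hD hB hR hx
  have hinj := IsFractionRing.injective R K
  have hx0 : algebraMap R K x ≠ 0 := fun h0 =>
    hpar.px.ne_zero (hinj (by rw [h0, map_zero]))
  have hy0 : algebraMap R K y ≠ 0 := fun h0 =>
    hpar.py.ne_zero (hinj (by rw [h0, map_zero]))
  have hz0 : algebraMap R K z ≠ 0 := fun h0 =>
    hpar.pz.ne_zero (hinj (by rw [h0, map_zero]))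
  have hx'0 := hx'.1
  by_cases hq : algebraMap R K x / algebraMap R K z ∈ B
  · -- `B` is a localization of `R[x/z]`
    have hS := F1A_adjoin_le (B := B) hR hq
    let S := Algebra.adjoin R {(algebraMap R K x / algebraMap R K z : K)}
    have hc : algebraMap R K x / algebraMap R K z ∈ locAt S B :=
      F1A_locAt_self (⟨_, Algebra.subset_adjoin rfl⟩ : S)
    have hRS : ∀ r : R, algebraMap R K r ∈ locAt S B := fun r => F1A_locAt_self (algebraMap R S r)
    have hi : (algebraMap R K (x - algebraMap O R t))⁻¹ ∈ locAt S B :=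
      F1A_locAt_inv (s := algebraMap R S (x - algebraMap O R t)) hx'
    have hloc : IsLoc S B := by
      refine isLoc_of_ratios hpar hB hR hS (fun r => ⟨algebraMap R S r, rfl⟩) (Or.inl hc)
        (Or.inl ?_) (Or.inr ?_)
      · have := (locAt S B).mul_mem (hRS y) hc
        rwa [show algebraMap R K y * (algebraMap R K x / algebraMap R K z) =
          algebraMap R K x * algebraMap R K y / algebraMap R K z by ring] at this
      · have := (locAt S B).mul_mem ((locAt S B).mul_mem (hRS y) hc) hi
        rwa [show algebraMap R K y * (algebraMap R K x / algebraMap R K z) *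
          (algebraMap R K (x - algebraMap O R t))⁻¹ =
          algebraMap R K x * algebraMap R K y /
            (algebraMap R K (x - algebraMap O R t) * algebraMap R K z) by
          field_simp] at this
    exact (lemmaF1A hpar.pz hpar.x_nz hpar.xz hD hloc hz).1
  · exfalso
    have hq' := (hD.mem_or_inv_mem (algebraMap R K x / algebraMap R K z)).resolve_left hq
    rw [inv_div] at hq'
    have hs : NU B (algebraMap R K z / algebraMap R K x) :=
      ⟨hq', fun _ h => hq (by rwa [inv_div] at h)⟩
    rcases (mem_iff_un_or_nu B _).1 (hR y) with hy | hy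
    · have hS := F1A_adjoin_le (B := B) hR hq'
      let S := Algebra.adjoin R {(algebraMap R K z / algebraMap R K x : K)}
      have hc : algebraMap R K z / algebraMap R K x ∈ locAt S B :=
        F1A_locAt_self (⟨_, Algebra.subset_adjoin rfl⟩ : S)
      have hRS : ∀ r : R, algebraMap R K r ∈ locAt S B :=
        fun r => F1A_locAt_self (algebraMap R S r)
      have hi : (algebraMap R K y)⁻¹ ∈ locAt S B :=
        F1A_locAt_inv (s := algebraMap R S y) hy
      have hloc : IsLoc S B := by
        refine isLoc_of_ratios hpar hB hR hS (fun r => ⟨algebraMap R S r, rfl⟩) (Or.inr hc)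
          (Or.inr ?_) (Or.inl ?_)
        · have := (locAt S B).mul_mem hc hi
          rwa [show algebraMap R K z / algebraMap R K x * (algebraMap R K y)⁻¹ =
            algebraMap R K z / (algebraMap R K x * algebraMap R K y) by field_simp] at this
        · have := (locAt S B).mul_mem
            ((locAt S B).mul_mem (hRS (x - algebraMap O R t)) hc) hi
          rwa [show algebraMap R K (x - algebraMap O R t) *
            (algebraMap R K z / algebraMap R K x) * (algebraMap R K y)⁻¹ =
            algebraMap R K (x - algebraMap O R t) * algebraMap R K z /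
              (algebraMap R K x * algebraMap R K y) by field_simp] at this
      exact not_un_of_nu hs (lemmaF1A hpar.px hpar.z_nx hpar.zx hD hloc hx).2.2
    · exact lemma_b hpar hD hB hR hx hy hz hs


private theorem F1D_k_mem {K : Type} [Field K] {k : Type} [Field k] [Algebra k K] {ι : Type}
    {h : ι → K} {B : Subring K} (hB : IsLR k h B) (c : k) : algebraMap k K c ∈ B := by
  obtain ⟨_, i, _, _, hloc⟩ := hB
  have := hloc.1 (algebraMap k _ c)
  rwa [← IsScalarTower.algebraMap_apply] at this

private theorem F1D_mem_adj {K : Type} [Field K] {S : Type} [CommRing S] [Algebra S K]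
    {B : Subring K} (hS : ∀ s : S, algebraMap S K s ∈ B) {c : K} (hc : c ∈ B)
    (s : Algebra.adjoin S {c}) : algebraMap (Algebra.adjoin S {c}) K s ∈ B := by
  obtain ⟨s, hs⟩ := s
  show s ∈ B
  induction hs using Algebra.adjoin_induction with
  | mem x hx => rw [Set.mem_singleton_iff.1 hx]; exact hc
  | algebraMap r => exact hS r
  | add x y _ _ hx hy => exact B.add_mem hx hy
  | mul x y _ _ hx hy => exact B.mul_mem hx hy

private theorem F1D_locAt {K : Type} [Field K] {S : Type} [CommRing S] [Algebra S K]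
    {B : Subring K} {q : K} (a s : S) (hs : Un B (algebraMap S K s))
    (h : q * algebraMap S K s = algebraMap S K a) : q ∈ locAt S B :=
  ⟨a, s, hs.1, hs.2.2, h⟩

/-- ROW F1D (`lemma_c`). The case `x', y, z, ρ = y/z ∈ m_B` is impossible. `S = R[ρ]`; `ρ` is prime in `S`, `x'` is prime in `S`
(`prime_adjoin_of`), `(x', ρ)` is prime, `ρ ∤ x'`, `x' ∤ ρ`, `z ∉ (x', ρ)` (because `z ∉ (x',y)`). By `ratios_mem` (`x` is a unit because `t` is)
`x'z/(xy) = (x'/ρ)/x ∈ B` or `ρ/x' ∈ B`; `lemmaF1A` over `S` for `(x',ρ)` resp. `(ρ,x')`: `z ∈ m_B ∩ S = (x',ρ)`. Contradiction. -/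
theorem lemma_c (hpar : ParFacts (algebraMap O R t) x y z) {B : Subring K} (hD : DVR B)
    (hB : IsLR k (hYR K (algebraMap O R t) x y z w1 w2 w3) B)
    (hR : ∀ r : R, algebraMap R K r ∈ B)
    (hx' : NU B (algebraMap R K (x - algebraMap O R t)))
    (hy : NU B (algebraMap R K y)) (hz : NU B (algebraMap R K z))
    (hs : NU B (algebraMap R K y / algebraMap R K z)) : False := by
  classical
  have hinj : Function.Injective (algebraMap R K) := IsFractionRing.injective R K
  have : FaithfulSMul R K := (faithfulSMul_iff_algebraMap_injective R K).2 hinj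
  have h0 : ∀ r : R, r ≠ 0 → algebraMap R K r ≠ 0 := fun r hr h =>
    hr (hinj (by rw [h, map_zero]))
  have hx0 := h0 x hpar.px.ne_zero
  have hy0 := h0 y hpar.py.ne_zero
  have hz0 := h0 z hpar.pz.ne_zero
  have hT0 := h0 _ hpar.pT.ne_zero
  have hx'0 := h0 _ hpar.px'.ne_zero
  -- t is a unit
  have hTk : algebraMap R K (algebraMap O R t) = algebraMap k K (algebraMap O k t) := by
    rw [← IsScalarTower.algebraMap_apply, ← IsScalarTower.algebraMap_apply]
  have hTun : Un B (algebraMap R K (algebraMap O R t)) := by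
    refine ⟨hT0, hR _, ?_⟩
    rw [hTk, ← map_inv₀]
    exact F1D_k_mem hB _
  -- x is a unit
  have hxun : Un B (algebraMap R K x) := by
    rcases (mem_iff_un_or_nu B _).1 (hR x) with h | h
    · exact h
    · exfalso
      have hneg : NU B (-(algebraMap R K (x - algebraMap O R t))) := by
        have := NU.mul hx' (B.neg_mem B.one_mem)
        rwa [mul_neg, mul_one] at this
      have h1 := hD.loc _ _ h hneg
      have h2 : algebraMap R K x + -(algebraMap R K (x - algebraMap O R t))
          = algebraMap R K (algebraMap O R t) := by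
        rw [map_sub]; ring
      rw [h2] at h1
      exact not_un_of_nu h1 hTun
  -- the ring S
  let ρK : K := algebraMap R K y / algebraMap R K z
  let S := Algebra.adjoin R {ρK}
  have hρ0 : ρK ≠ 0 := div_ne_zero hy0 hz0
  let ρ : S := ⟨ρK, Algebra.subset_adjoin rfl⟩
  let X' : S := algebraMap R S (x - algebraMap O R t)
  let Z : S := algebraMap R S z
  have hρK : algebraMap S K ρ = ρK := rfl
  have hX'K : algebraMap S K X' = algebraMap R K (x - algebraMap O R t) := rfl
  have hZK : algebraMap S K Z = algebraMap R K z := rfl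
  have hinjS : Function.Injective (algebraMap S K) := Subtype.val_injective
  have : FaithfulSMul S K := (faithfulSMul_iff_algebraMap_injective S K).2 hinjS
  have hSB : ∀ s : S, algebraMap S K s ∈ B := F1D_mem_adj hR hs.1
  have hρne : ρ ≠ 0 := fun h => hρ0 (by
    have := congrArg (algebraMap S K) h
    rwa [map_zero, hρK] at this)
  -- ρ is prime
  have hpρ : Prime ρ := by
    have h1 : (Ideal.span {y} ⊔ (⊥ : Ideal R)).IsPrime := by
      rw [sup_bot_eq]
      exact (Ideal.span_singleton_prime hpar.py.ne_zero).2 hpar.py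
    have h2 := isPrime_span_adjoin (K := K) hpar.pz hpar.y_nz ⊥ h1 ρ rfl
    rw [Ideal.map_bot, sup_bot_eq] at h2
    exact (Ideal.span_singleton_prime hρne).1 h2
  have hpX' : Prime X' :=
    prime_adjoin_of (K := K) hpar.pz hpar.y_nz hpar.px' hpar.zx' hpar.y_nzx' hpar.z_nx'
  have hP : (Ideal.span {ρ} ⊔ (Ideal.span {x - algebraMap O R t}).map (algebraMap R S)).IsPrime := by
    refine isPrime_span_adjoin (K := K) hpar.pz hpar.y_nz _ ?_ ρ rfl
    rw [← Ideal.span_union, Set.singleton_union]
    exact hpar.yx'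
  have hPe : Ideal.span {ρ} ⊔ (Ideal.span {x - algebraMap O R t}).map (algebraMap R S)
      = Ideal.span {ρ, X'} := by
    rw [Ideal.map_span, Set.image_singleton, ← Ideal.span_union, Set.singleton_union]
  have hPρX : (Ideal.span {ρ, X'}).IsPrime := hPe ▸ hP
  have hPXρ : (Ideal.span {X', ρ}).IsPrime := by
    rw [Set.pair_comm]; exact hPρX
  have hρX : ¬ ρ ∣ X' := by
    intro h
    have h1 : algebraMap R S (x - algebraMap O R t) ∈
        Ideal.span {ρ} ⊔ (⊥ : Ideal R).map (algebraMap R S) := by
      rw [Ideal.map_bot, sup_bot_eq]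
      exact Ideal.mem_span_singleton.2 h
    have h2 := mem_of_mem_span_adjoin (K := K) hpar.pz hpar.y_nz ⊥ _ ρ rfl h1
    rw [sup_bot_eq] at h2
    exact hpar.x'_ny (Ideal.mem_span_singleton.1 h2)
  have hXρ : ¬ X' ∣ ρ := by
    intro h
    exact hρX ((hpX'.associated_of_dvd hpρ h).symm.dvd)
  have hZ : Z ∉ Ideal.span {ρ, X'} := by
    intro h
    rw [← hPe] at h
    have h2 := mem_of_mem_span_adjoin (K := K) hpar.pz hpar.y_nz _ _ ρ rfl h
    rw [← Ideal.span_union, Set.singleton_union, Set.pair_comm] at h2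
    exact hpar.z_nx'y h2
  have hrat := (ratios_mem hx0 hy0 hz0 hx'0 hB (hR x) (hR y) (hR z) (hR _)).2.2
  rcases hrat with hq | hq
  · -- case x'/ρ ∈ B
    let c : K := algebraMap S K X' / algebraMap S K ρ
    have hc : c ∈ B := by
      have h1 := B.mul_mem (hR x) hq
      have h2 : algebraMap R K x * (algebraMap R K (x - algebraMap O R t) * algebraMap R K z /
          (algebraMap R K x * algebraMap R K y)) = c := by
        show _ = algebraMap R K (x - algebraMap O R t) / (algebraMap R K y / algebraMap R K z)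
        field_simp
      rwa [h2] at h1
    have hS' := F1D_mem_adj hSB hc
    have hloc : IsLoc (Algebra.adjoin S {c}) B := by
      refine isLoc_of_ratios hpar hB hR hS' ?_ ?_ ?_ ?_
      · intro r
        exact ⟨algebraMap S _ (algebraMap R S r), rfl⟩
      · refine Or.inr (F1D_locAt (algebraMap S _ Z) (algebraMap S _ (algebraMap R S x)) hxun ?_)
        show algebraMap R K z / algebraMap R K x * algebraMap R K x = algebraMap R K z
        field_simp
      · refine Or.inl (F1D_locAt (algebraMap S _ (algebraMap R S x * ρ)) 1 ?_ ?_)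
        · rw [map_one]; exact ⟨one_ne_zero, B.one_mem, by rw [inv_one]; exact B.one_mem⟩
        · rw [map_one, mul_one]
          show algebraMap R K x * algebraMap R K y / algebraMap R K z =
            algebraMap R K x * (algebraMap R K y / algebraMap R K z)
          ring
      · refine Or.inl (F1D_locAt (⟨c, Algebra.subset_adjoin rfl⟩)
          (algebraMap S _ (algebraMap R S x)) hxun ?_)
        show algebraMap R K (x - algebraMap O R t) * algebraMap R K z /
          (algebraMap R K x * algebraMap R K y) * algebraMap R K x =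
          algebraMap R K (x - algebraMap O R t) / (algebraMap R K y / algebraMap R K z)
        field_simp
    have h3 := (lemmaF1A (K := K) hpρ hρX hPXρ hD hloc hs).2.1 Z
    have h4 := h3.1 hz
    rw [Set.pair_comm] at h4
    exact hZ h4
  · -- case ρ/x' ∈ B
    let c : K := algebraMap S K ρ / algebraMap S K X'
    have hc : c ∈ B := by
      have h1 := B.mul_mem hxun.2.2 hq
      have h2 : (algebraMap R K x)⁻¹ * (algebraMap R K x * algebraMap R K y /
          (algebraMap R K (x - algebraMap O R t) * algebraMap R K z)) = c := by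
        show _ = (algebraMap R K y / algebraMap R K z) / algebraMap R K (x - algebraMap O R t)
        field_simp
      rwa [h2] at h1
    have hS' := F1D_mem_adj hSB hc
    have hloc : IsLoc (Algebra.adjoin S {c}) B := by
      refine isLoc_of_ratios hpar hB hR hS' ?_ ?_ ?_ ?_
      · intro r
        exact ⟨algebraMap S _ (algebraMap R S r), rfl⟩
      · refine Or.inr (F1D_locAt (algebraMap S _ Z) (algebraMap S _ (algebraMap R S x)) hxun ?_)
        show algebraMap R K z / algebraMap R K x * algebraMap R K x = algebraMap R K z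
        field_simp
      · refine Or.inl (F1D_locAt (algebraMap S _ (algebraMap R S x * ρ)) 1 ?_ ?_)
        · rw [map_one]; exact ⟨one_ne_zero, B.one_mem, by rw [inv_one]; exact B.one_mem⟩
        · rw [map_one, mul_one]
          show algebraMap R K x * algebraMap R K y / algebraMap R K z =
            algebraMap R K x * (algebraMap R K y / algebraMap R K z)
          ring
      · refine Or.inr (F1D_locAt (algebraMap S _ (algebraMap R S x) *
          (⟨c, Algebra.subset_adjoin rfl⟩)) 1 ?_ ?_)
        · rw [map_one]; exact ⟨one_ne_zero, B.one_mem, by rw [inv_one]; exact B.one_mem⟩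
        · rw [map_one, mul_one]
          show algebraMap R K x * algebraMap R K y /
            (algebraMap R K (x - algebraMap O R t) * algebraMap R K z) =
            algebraMap R K x *
              ((algebraMap R K y / algebraMap R K z) / algebraMap R K (x - algebraMap O R t))
          field_simp
    have h3 := (lemmaF1A (K := K) hpX' hXρ hPρX hD hloc hx').2.1 Z
    exact hZ (h3.1 hz)


private theorem F1C_adj_mem {B : Subring K} (hR : ∀ r : R, algebraMap R K r ∈ B) {c : K}
    (hc : c ∈ B) (s : Algebra.adjoin R {c}) : algebraMap (Algebra.adjoin R {c}) K s ∈ B := by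
  have h : ∀ u ∈ Algebra.adjoin R ({c} : Set K), u ∈ B := by
    intro u hu
    induction hu using Algebra.adjoin_induction with
    | mem v hv => rw [Set.mem_singleton_iff.1 hv]; exact hc
    | algebraMap r => exact hR r
    | add u v _ _ h1 h2 => exact B.add_mem h1 h2
    | mul u v _ _ h1 h2 => exact B.mul_mem h1 h2
  exact h _ s.2

private theorem F1C_loc {B : Subring K} {c u : K} (a s : Algebra.adjoin R {c})
    (hs : Un B (algebraMap (Algebra.adjoin R {c}) K s))
    (h : u * algebraMap (Algebra.adjoin R {c}) K s = algebraMap (Algebra.adjoin R {c}) K a) :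
    u ∈ locAt (Algebra.adjoin R {c}) B :=
  ⟨a, s, hs.1, hs.2.2, h⟩

/-- ROW F1C. Case `z, y ∈ m_B`, `x` a unit. If `z/y ∈ B`: `B` is a localization of `R[z/y]` (`z/x`, `z/(xy)`, `x'z/(xy)`), `lemmaF1A` gives `E(z,y)`.
Otherwise `ρ = y/z ∈ m_B`. If `x'` is a unit: `B` is a localization of `R[y/z]` (`xy/z`, `xy/(x'z)`), `lemmaF1A` for `(y,z)` makes `ρ` a unit,
contradiction. If `x' ∈ m_B`: `lemma_c`. -/
theorem F1_zy (hpar : ParFacts (algebraMap O R t) x y z) {B : Subring K} (hD : DVR B)
    (hB : IsLR k (hYR K (algebraMap O R t) x y z w1 w2 w3) B)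
    (hR : ∀ r : R, algebraMap R K r ∈ B) (hx : Un B (algebraMap R K x))
    (hy : NU B (algebraMap R K y)) (hz : NU B (algebraMap R K z)) : IsE z y B := by
  have hinj : Function.Injective (algebraMap R K) := IsFractionRing.injective R K
  have hX : algebraMap R K x ≠ 0 := hx.1
  have hY : algebraMap R K y ≠ 0 := (map_ne_zero_iff _ hinj).2 hpar.py.ne_zero
  have hZ : algebraMap R K z ≠ 0 := (map_ne_zero_iff _ hinj).2 hpar.pz.ne_zero
  by_cases hc : algebraMap R K z / algebraMap R K y ∈ B
  · have hloc : IsLoc (Algebra.adjoin R {(algebraMap R K z / algebraMap R K y : K)}) B := by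
      refine isLoc_of_ratios hpar hB hR (F1C_adj_mem hR hc)
        (fun r => ⟨algebraMap R _ r, rfl⟩) (Or.inr ?_) (Or.inr ?_) (Or.inl ?_)
      · refine F1C_loc (algebraMap R _ z) (algebraMap R _ x) hx ?_
        change algebraMap R K z / algebraMap R K x * algebraMap R K x = algebraMap R K z
        exact div_mul_cancel₀ _ hX
      · refine F1C_loc ⟨algebraMap R K z / algebraMap R K y,
          Algebra.self_mem_adjoin_singleton R _⟩ (algebraMap R _ x) hx ?_
        change algebraMap R K z / (algebraMap R K x * algebraMap R K y) * algebraMap R K x =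
          algebraMap R K z / algebraMap R K y
        field_simp
      · refine F1C_loc (algebraMap R _ (x - algebraMap O R t) *
          ⟨algebraMap R K z / algebraMap R K y, Algebra.self_mem_adjoin_singleton R _⟩)
          (algebraMap R _ x) hx ?_
        change algebraMap R K (x - algebraMap O R t) * algebraMap R K z /
          (algebraMap R K x * algebraMap R K y) * algebraMap R K x =
          algebraMap R K (x - algebraMap O R t) * (algebraMap R K z / algebraMap R K y)
        field_simp
    exact (lemmaF1A hpar.py hpar.z_ny hpar.zy hD hloc hy).1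
  · exfalso
    have hc' : algebraMap R K y / algebraMap R K z ∈ B := by
      rcases hD.mem_or_inv_mem (algebraMap R K z / algebraMap R K y) with h | h
      · exact absurd h hc
      · rwa [inv_div] at h
    have hs : NU B (algebraMap R K y / algebraMap R K z) :=
      ⟨hc', fun _ h => hc (by rwa [inv_div] at h)⟩
    rcases (mem_iff_un_or_nu B _).1 (hR (x - algebraMap O R t)) with hx' | hx'
    · have hloc : IsLoc (Algebra.adjoin R {(algebraMap R K y / algebraMap R K z : K)}) B := by
        refine isLoc_of_ratios hpar hB hR (F1C_adj_mem hR hc')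
          (fun r => ⟨algebraMap R _ r, rfl⟩) (Or.inr ?_) (Or.inl ?_) (Or.inr ?_)
        · refine F1C_loc (algebraMap R _ z) (algebraMap R _ x) hx ?_
          change algebraMap R K z / algebraMap R K x * algebraMap R K x = algebraMap R K z
          exact div_mul_cancel₀ _ hX
        · refine F1C_loc (algebraMap R _ (x * x) * ⟨algebraMap R K y / algebraMap R K z,
            Algebra.self_mem_adjoin_singleton R _⟩) (algebraMap R _ x) hx ?_
          change algebraMap R K x * algebraMap R K y / algebraMap R K z * algebraMap R K x =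
            algebraMap R K (x * x) * (algebraMap R K y / algebraMap R K z)
          rw [map_mul]
          ring
        · refine F1C_loc (algebraMap R _ x * ⟨algebraMap R K y / algebraMap R K z,
            Algebra.self_mem_adjoin_singleton R _⟩) (algebraMap R _ (x - algebraMap O R t)) hx' ?_
          change algebraMap R K x * algebraMap R K y /
            (algebraMap R K (x - algebraMap O R t) * algebraMap R K z) *
            algebraMap R K (x - algebraMap O R t) =
            algebraMap R K x * (algebraMap R K y / algebraMap R K z)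
          have hX' : algebraMap R K (x - algebraMap O R t) ≠ 0 := hx'.1
          field_simp
      exact not_un_of_nu hs (lemmaF1A hpar.pz hpar.y_nz hpar.yz hD hloc hz).2.2
    · exact lemma_c hpar hD hB hR hx' hy hz hs


theorem F1E_k {K k : Type} [Field K] [Field k] [Algebra k K] {B : Subring K} {ι : Type}
    {h : ι → K} (hB : IsLR k h B) (c : k) : algebraMap k K c ∈ B := by
  obtain ⟨_, i, _, _, hloc⟩ := hB
  exact hloc.1 (algebraMap k _ c)

/-- the uniformizer is a unit of `B` -/
theorem F1E_t {K O k R : Type} [Field K] [CommRing O] [Field k] [Algebra O k] [CommRing R]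
    [Algebra O R] [Algebra R K] [FaithfulSMul R K] [Algebra O K] [IsScalarTower O R K]
    [Algebra k K] [IsScalarTower O k K] {t : O} (ht : algebraMap O R t ≠ 0)
    {B : Subring K} {ι : Type} {h : ι → K} (hB : IsLR k h B) :
    Un B (algebraMap R K (algebraMap O R t)) := by
  have h0 : algebraMap R K (algebraMap O R t) ≠ 0 := fun h =>
    ht (FaithfulSMul.algebraMap_injective R K (by rw [h, map_zero]))
  have h1 : algebraMap R K (algebraMap O R t) = algebraMap k K (algebraMap O k t) := by
    rw [← IsScalarTower.algebraMap_apply, ← IsScalarTower.algebraMap_apply]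
  refine ⟨h0, ?_, ?_⟩
  · rw [h1]; exact F1E_k hB _
  · rw [h1, ← map_inv₀]; exact F1E_k hB _

/-- a unit plus a non-unit is a unit -/
theorem F1E_add {K : Type} [Field K] {B : Subring K} (hB : Loc B) {u v : K} (hu : Un B u)
    (hv : NU B v) : Un B (u + v) := by
  rcases (mem_iff_un_or_nu B (u + v)).1 (B.add_mem hu.2.1 hv.1) with h | h
  · exact h
  · exfalso
    have h1 : NU B (-v) := by
      refine ⟨B.neg_mem hv.1, fun h0 h2 => hv.2 (fun h3 => h0 (by rw [h3, neg_zero])) ?_⟩
      have h4 := B.neg_mem h2
      rw [inv_neg, neg_neg] at h4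
      exact h4
    have h2 := hB _ _ h h1
    rw [add_neg_cancel_right] at h2
    exact not_un_of_nu h2 hu

theorem F1E_neg {K : Type} [Field K] {B : Subring K} {u : K} (hu : Un B u) : Un B (-u) := by
  refine ⟨neg_ne_zero.2 hu.1, B.neg_mem hu.2.1, ?_⟩
  rw [inv_neg]
  exact B.neg_mem hu.2.2

theorem F1E_div {K S : Type} [Field K] [CommRing S] [Algebra S K] {B : Subring K} {p q : K}
    (hp : ∃ s : S, algebraMap S K s = p) (hq : ∃ s : S, algebraMap S K s = q) (hu : Un B q) :
    p / q ∈ locAt S B := by
  obtain ⟨a, rfl⟩ := hp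
  obtain ⟨s, rfl⟩ := hq
  exact ⟨a, s, hu.1, hu.2.2, div_mul_cancel₀ _ hu.1⟩

theorem F1E_mul {K S : Type} [Field K] [CommRing S] [Algebra S K] {p q : K}
    (hp : ∃ s : S, algebraMap S K s = p) (hq : ∃ s : S, algebraMap S K s = q) :
    ∃ s : S, algebraMap S K s = p * q := by
  obtain ⟨a, rfl⟩ := hp
  obtain ⟨s, rfl⟩ := hq
  exact ⟨a * s, map_mul _ _ _⟩

/-- elements of `R[c]` are in `B` -/
theorem F1E_adjoin {K R : Type} [Field K] [CommRing R] [Algebra R K] {B : Subring K} {c : K}
    (hR : ∀ r : R, algebraMap R K r ∈ B) (hc : c ∈ B) (s : Algebra.adjoin R ({c} : Set K)) :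
    algebraMap (Algebra.adjoin R ({c} : Set K)) K s ∈ B := by
  obtain ⟨s, hs⟩ := s
  change s ∈ B
  induction hs using Algebra.adjoin_induction with
  | mem x hx =>
    rw [Set.mem_singleton_iff] at hx
    rw [hx]; exact hc
  | algebraMap r => exact hR r
  | add a b _ _ ha hb => exact B.add_mem ha hb
  | mul a b _ _ ha hb => exact B.mul_mem ha hb

theorem F1E_R {K R : Type} [Field K] [CommRing R] [Algebra R K] (c : K) (r : R) :
    ∃ s : Algebra.adjoin R ({c} : Set K), algebraMap (Algebra.adjoin R ({c} : Set K)) K s =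
      algebraMap R K r :=
  ⟨algebraMap R _ r, rfl⟩

theorem F1E_c {K R : Type} [Field K] [CommRing R] [Algebra R K] (c : K) :
    ∃ s : Algebra.adjoin R ({c} : Set K), algebraMap (Algebra.adjoin R ({c} : Set K)) K s = c :=
  ⟨⟨c, Algebra.self_mem_adjoin_singleton R c⟩, rfl⟩

/-- ROW F1E. Case `x', y ∈ m_B`, `z` a unit (so `x` is a unit). If `x'/y ∈ B`: `B` is a localization of `R[x'/y]`, so `E(x',y)`. Otherwise
`y/x' ∈ m_B`, `B` is a localization of `R[y/x']`, and `lemmaF1A` for `(y,x')` makes `y/x'` a unit. Contradiction. -/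
theorem F1_x'y (hpar : ParFacts (algebraMap O R t) x y z) {B : Subring K} (hD : DVR B)
    (hB : IsLR k (hYR K (algebraMap O R t) x y z w1 w2 w3) B)
    (hR : ∀ r : R, algebraMap R K r ∈ B)
    (hx' : NU B (algebraMap R K (x - algebraMap O R t)))
    (hy : NU B (algebraMap R K y)) (hz : Un B (algebraMap R K z)) :
    IsE (x - algebraMap O R t) y B := by
  have hinj : Function.Injective (algebraMap R K) := IsFractionRing.injective R K
  have hfs : FaithfulSMul R K := (faithfulSMul_iff_algebraMap_injective R K).2 hinj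
  have ht : Un B (algebraMap R K (algebraMap O R t)) := F1E_t hpar.pT.ne_zero hB
  have hx : Un B (algebraMap R K x) := by
    have h1 := F1E_add hB.1 ht hx'
    rw [← map_add, add_sub_cancel] at h1
    exact h1
  have hy0 : algebraMap R K y ≠ 0 := fun h => hpar.py.ne_zero (hinj (by rw [h, map_zero]))
  have hx'0 : algebraMap R K (x - algebraMap O R t) ≠ 0 := fun h =>
    hpar.px'.ne_zero (hinj (by rw [h, map_zero]))
  by_cases hc : algebraMap R K (x - algebraMap O R t) / algebraMap R K y ∈ B
  · have hloc := isLoc_of_ratios (k := k)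
      (S := Algebra.adjoin R {(algebraMap R K (x - algebraMap O R t) / algebraMap R K y : K)})
      hpar hB hR (F1E_adjoin hR hc) (F1E_R _)
      (Or.inl (F1E_div (F1E_R _ x) (F1E_R _ z) hz))
      (Or.inl (F1E_div (F1E_mul (F1E_R _ x) (F1E_R _ y)) (F1E_R _ z) hz))
      (Or.inl (by
        have h1 : algebraMap R K (x - algebraMap O R t) * algebraMap R K z /
            (algebraMap R K x * algebraMap R K y) =
            (algebraMap R K (x - algebraMap O R t) / algebraMap R K y * algebraMap R K z) /
              algebraMap R K x := by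
          field_simp
        rw [h1]
        exact F1E_div (F1E_mul (F1E_c _) (F1E_R _ z)) (F1E_R _ x) hx))
    exact (lemmaF1A hpar.py hpar.x'_ny hpar.x'y hD hloc hy).1
  · exfalso
    have hc' : algebraMap R K y / algebraMap R K (x - algebraMap O R t) ∈ B := by
      rcases hD.mem_or_inv_mem (algebraMap R K (x - algebraMap O R t) / algebraMap R K y) with h | h
      · exact absurd h hc
      · rw [inv_div] at h; exact h
    have hloc := isLoc_of_ratios (k := k)
      (S := Algebra.adjoin R {(algebraMap R K y / algebraMap R K (x - algebraMap O R t) : K)})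
      hpar hB hR (F1E_adjoin hR hc') (F1E_R _)
      (Or.inl (F1E_div (F1E_R _ x) (F1E_R _ z) hz))
      (Or.inl (F1E_div (F1E_mul (F1E_R _ x) (F1E_R _ y)) (F1E_R _ z) hz))
      (Or.inr (by
        have h1 : algebraMap R K x * algebraMap R K y /
            (algebraMap R K (x - algebraMap O R t) * algebraMap R K z) =
            (algebraMap R K y / algebraMap R K (x - algebraMap O R t) * algebraMap R K x) /
              algebraMap R K z := by
          rw [div_mul_eq_mul_div, div_div, mul_comm (algebraMap R K x)]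
        rw [h1]
        exact F1E_div (F1E_mul (F1E_c _) (F1E_R _ x)) (F1E_R _ z) hz))
    have h2 := (lemmaF1A hpar.px' hpar.y_nx' hpar.yx' hD hloc hx').2.2
    apply hc
    have h3 := h2.2.2
    rw [inv_div] at h3
    exact h3

/-- ROW F1F. The remaining cases: `B` is a localization of `R`. (`z ∈ m_B`, `x, y` units; or `z` a unit and `x ∈ m_B`; or `z`, `x` units and `x'` or `y` a
unit.) `isLoc_of_ratios` with `S = R`. -/
theorem F1_rest (hpar : ParFacts (algebraMap O R t) x y z) {B : Subring K} (hD : DVR B)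
    (hB : IsLR k (hYR K (algebraMap O R t) x y z w1 w2 w3) B)
    (hR : ∀ r : R, algebraMap R K r ∈ B)
    (h : (Un B (algebraMap R K x) ∧ Un B (algebraMap R K y)) ∨
      (Un B (algebraMap R K z) ∧ NU B (algebraMap R K x)) ∨
      (Un B (algebraMap R K z) ∧ Un B (algebraMap R K x) ∧
        (Un B (algebraMap R K y) ∨ Un B (algebraMap R K (x - algebraMap O R t))))) :
    IsLoc R B := by
  have hinj : Function.Injective (algebraMap R K) := IsFractionRing.injective R K
  have hfs : FaithfulSMul R K := (faithfulSMul_iff_algebraMap_injective R K).2 hinj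
  have ht : Un B (algebraMap R K (algebraMap O R t)) := F1E_t hpar.pT.ne_zero hB
  have hRR : ∀ r : R, ∃ s : R, algebraMap R K s = algebraMap R K r := fun r => ⟨r, rfl⟩
  rcases h with ⟨hx, hy⟩ | ⟨hz, hx⟩ | ⟨hz, hx, hyx⟩
  · exact isLoc_of_ratios (k := k) (S := R) hpar hB hR hR hRR
      (Or.inr (F1E_div (hRR z) (hRR x) hx))
      (Or.inr (F1E_div (hRR z) (F1E_mul (hRR x) (hRR y)) (hx.mul hy)))
      (Or.inl (F1E_div (F1E_mul (hRR _) (hRR z)) (F1E_mul (hRR x) (hRR y)) (hx.mul hy)))
  · have hx' : Un B (algebraMap R K (x - algebraMap O R t)) := by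
      have h1 := F1E_add hB.1 (F1E_neg ht) hx
      rw [neg_add_eq_sub, ← map_sub] at h1
      exact h1
    exact isLoc_of_ratios (k := k) (S := R) hpar hB hR hR hRR
      (Or.inl (F1E_div (hRR x) (hRR z) hz))
      (Or.inl (F1E_div (F1E_mul (hRR x) (hRR y)) (hRR z) hz))
      (Or.inr (F1E_div (F1E_mul (hRR x) (hRR y)) (F1E_mul (hRR _) (hRR z)) (hx'.mul hz)))
  · refine isLoc_of_ratios (k := k) (S := R) hpar hB hR hR hRR
      (Or.inl (F1E_div (hRR x) (hRR z) hz))
      (Or.inl (F1E_div (F1E_mul (hRR x) (hRR y)) (hRR z) hz)) ?_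
    rcases hyx with hy | hx'
    · exact Or.inl (F1E_div (F1E_mul (hRR _) (hRR z)) (F1E_mul (hRR x) (hRR y)) (hx.mul hy))
    · exact Or.inr (F1E_div (F1E_mul (hRR x) (hRR y)) (F1E_mul (hRR _) (hRR z)) (hx'.mul hz))



/-- F1. (proved from the rows) -/
theorem F1 (hpar : ParFacts (algebraMap O R t) x y z) {B : Subring K} (hD : DVR B)
    (hB : IsLR k (hYR K (algebraMap O R t) x y z w1 w2 w3) B)
    (hR : ∀ r : R, algebraMap R K r ∈ B) :
    IsLoc R B ∨ IsE x z B ∨ IsE z y B ∨ IsE (x - algebraMap O R t) y B := by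
  have hx := (mem_iff_un_or_nu B _).1 (hR x)
  have hy := (mem_iff_un_or_nu B _).1 (hR y)
  have hz := (mem_iff_un_or_nu B _).1 (hR z)
  have hx' := (mem_iff_un_or_nu B _).1 (hR (x - algebraMap O R t))
  rcases hz with hz | hz
  · rcases hx with hx | hx
    · rcases hy with hy | hy
      · exact Or.inl (F1_rest hpar hD hB hR (Or.inl ⟨hx, hy⟩))
      · rcases hx' with hx' | hx'
        · exact Or.inl (F1_rest hpar hD hB hR (Or.inr (Or.inr ⟨hz, hx, Or.inr hx'⟩)))
        · exact Or.inr (Or.inr (Or.inr (F1_x'y hpar hD hB hR hx' hy hz)))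
    · exact Or.inl (F1_rest hpar hD hB hR (Or.inr (Or.inl ⟨hz, hx⟩)))
  · rcases hx with hx | hx
    · rcases hy with hy | hy
      · exact Or.inl (F1_rest hpar hD hB hR (Or.inl ⟨hx, hy⟩))
      · exact Or.inr (Or.inr (Or.inl (F1_zy hpar hD hB hR hx hy hz)))
    · exact Or.inr (Or.inl (F1_xz hpar hD hB hR hx hz))



omit [IsRegularLocalRing R] [UniqueFactorizationMonoid R] [IsFractionRing R K] in
/-- values of polynomials with coefficients outside the prime are units -/
theorem F2a_un [FaithfulSMul R K] {a b : R} (hb : Prime b) (hba : ¬ b ∣ a) {q : Ideal R}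
    [hq : q.IsPrime] (ha : a ∈ q) (hbq : b ∈ q) {B : Subring K}
    (hB : IsEE q (algebraMap R K a / algebraMap R K b) B) {r : R} (hr : r ∉ q) :
    Un B (algebraMap R K r) := by
  rcases (mem_iff_un_or_nu B _).1 (IsEE.algebraMap_mem hB r) with h | h
  · exact h
  · exact absurd ((IsEE.nu_algebraMap_iff hb hba ha hbq hB r).1 h) hr

theorem F2a_k [FaithfulSMul R K] {a b : R} (ht : Irreducible t) (hb : Prime b) (hba : ¬ b ∣ a)
    {q : Ideal R} [hq : q.IsPrime] (ha : a ∈ q) (hbq : b ∈ q) (htq : algebraMap O R t ∉ q)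
    {B : Subring K} (hB : IsEE q (algebraMap R K a / algebraMap R K b) B) (c : k) :
    algebraMap k K c ∈ B := by
  refine algebraMap_mem_of_uniformizer (O := O) ht (fun o => ?_) ?_ c
  · rw [IsScalarTower.algebraMap_apply O R K]
    exact IsEE.algebraMap_mem hB _
  · rw [IsScalarTower.algebraMap_apply O R K]
    exact (F2a_un hb hba ha hbq hB htq).2.2

theorem F2a_gen [FaithfulSMul R K] {a b : R} (hd : RData t x y z w1 w2 w3) (hb : Prime b)
    (hba : ¬ b ∣ a) {q : Ideal R} [hq : q.IsPrime] (ha : a ∈ q) (hbq : b ∈ q)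
    {B : Subring K} (hB : IsEE q (algebraMap R K a / algebraMap R K b) B)
    (C : Subring K) (hCu : ∀ u ∈ C, Un B u → u⁻¹ ∈ C)
    (hk : ∀ c : k, algebraMap k K c ∈ C) (hx : algebraMap R K x ∈ C) (hy : algebraMap R K y ∈ C)
    (hz : algebraMap R K z ∈ C) (hw1 : algebraMap R K w1 ∈ C) (hw2 : algebraMap R K w2 ∈ C)
    (hw3 : algebraMap R K w3 ∈ C) (hc : algebraMap R K a / algebraMap R K b ∈ C) : B ≤ C := by
  have hO : ∀ o : O, algebraMap R K (algebraMap O R o) ∈ C := by
    intro o
    rw [← IsScalarTower.algebraMap_apply O R K, IsScalarTower.algebraMap_apply O k K]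
    exact hk _
  have hadj : ∀ r ∈ Algebra.adjoin O ({x, y, z, w1, w2, w3} : Set R), algebraMap R K r ∈ C := by
    intro r hr
    refine Algebra.adjoin_induction (p := fun r _ => algebraMap R K r ∈ C) ?_ ?_ ?_ ?_ hr
    · intro s hs
      simp only [Set.mem_insert_iff, Set.mem_singleton_iff] at hs
      rcases hs with rfl | rfl | rfl | rfl | rfl | rfl <;> assumption
    · intro o
      exact hO o
    · intro s s' _ _ h h'
      rw [map_add]; exact C.add_mem h h'
    · intro s s' _ _ h h'
      rw [map_mul]; exact C.mul_mem h h'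
  have hR : ∀ r : R, algebraMap R K r ∈ C := by
    intro r
    obtain ⟨n, m, hn, hm, hu, hrm⟩ := hd.gen r
    have hmne : algebraMap R K m ≠ 0 := by
      have : m ≠ 0 := hu.ne_zero
      exact (map_ne_zero_iff _ (IsFractionRing.injective R K)).2 this
    have hmu : Un B (algebraMap R K m) := by
      refine ⟨hmne, IsEE.algebraMap_mem hB m, ?_⟩
      obtain ⟨v, hv⟩ := hu
      have h1 : (algebraMap R K m)⁻¹ = algebraMap R K ((v⁻¹ : Rˣ) : R) := by
        refine inv_eq_of_mul_eq_one_right ?_
        rw [← map_mul, ← hv]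
        simp
      rw [h1]
      exact IsEE.algebraMap_mem hB _
    have h2 : algebraMap R K r = algebraMap R K n * (algebraMap R K m)⁻¹ := by
      rw [← hrm, map_mul, mul_assoc, mul_inv_cancel₀ hmne, mul_one]
    rw [h2]
    exact C.mul_mem (hadj n hn) (hCu _ (hadj m hm) hmu)
  have hev : ∀ f : R[X], aeval (algebraMap R K a / algebraMap R K b) f ∈ C := by
    intro f
    rw [aeval_eq_sum_range]
    refine C.sum_mem fun i _ => ?_
    rw [Algebra.smul_def]
    exact C.mul_mem (hR _) (C.pow_mem hc i)
  intro u hu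
  obtain ⟨f, g, ⟨i, hi⟩, hfg⟩ := (hB u).1 hu
  have hgB : aeval (algebraMap R K a / algebraMap R K b) g ∈ B := by
    rw [aeval_eq_sum_range]
    refine B.sum_mem fun i _ => ?_
    rw [Algebra.smul_def]
    exact B.mul_mem (IsEE.algebraMap_mem hB _) (B.pow_mem (IsEE.c_mem hB) i)
  have hgu : Un B (aeval (algebraMap R K a / algebraMap R K b) g) := by
    rcases (mem_iff_un_or_nu B _).1 hgB with h | h
    · exact h
    · exact absurd ((IsEE.nu_iff hb hba ha hbq hB g).1 h i) hi
  have h3 : u = aeval (algebraMap R K a / algebraMap R K b) f *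
      (aeval (algebraMap R K a / algebraMap R K b) g)⁻¹ := by
    rw [← hfg, mul_assoc, mul_inv_cancel₀ hgu.1, mul_one]
  rw [h3]
  exact C.mul_mem (hev f) (hCu _ (hev g) hgu)

/-- ROW F2. The three local rings of `Y` that are needed: `E(x,z)`, `E(x',y)` and the local ring `B_F` of the flopped curve
(ideal `(x,y,z)`, ratio `x/z`). By `isLR_of_xz`, `isLR_of_x'y`. `k ⊆ B`: `algebraMap_mem_of_uniformizer`, `t` is not in the ideal so it is a unit. For `hgen`: the
subring `C` contains `O`, `x, y, z, w_i`, so `R` (`RData.gen`; units of `R` are units of `B`, `hCu`), so `R[x/z]`, so all fractions. -/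
theorem isLR_E_xz (hd : RData t x y z w1 w2 w3) (hpar : ParFacts (algebraMap O R t) x y z)
    {E : Subring K} (hE : IsE x z E) :
    IsLR k (hYR K (algebraMap O R t) x y z w1 w2 w3) E := by
  have hinj : Function.Injective (algebraMap R K) := IsFractionRing.injective R K
  have : FaithfulSMul R K := (faithfulSMul_iff_algebraMap_injective R K).2 hinj
  have : (Ideal.span {x, z}).IsPrime := hpar.xz
  have hE' : IsEE (Ideal.span {x, z}) (algebraMap R K x / algebraMap R K z) E := hE
  have hxq : x ∈ Ideal.span {x, z} := Ideal.subset_span (by simp)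
  have hzq : z ∈ Ideal.span {x, z} := Ideal.subset_span (by simp)
  have hle : Ideal.span {x, z} ≤ Ideal.span {x, y, z} := Ideal.span_mono (by
    intro r hr
    simp only [Set.mem_insert_iff, Set.mem_singleton_iff] at hr ⊢
    tauto)
  have hTq : algebraMap O R t ∉ Ideal.span {x, z} := fun h => hpar.T_nxyz (hle h)
  have hx'q : x - algebraMap O R t ∉ Ideal.span {x, z} := fun h => hpar.x'_nxyz (hle h)
  have ne : ∀ {r : R}, r ≠ 0 → algebraMap R K r ≠ 0 := fun h => (map_ne_zero_iff _ hinj).2 h
  exact isLR_of_xz (ne hpar.px.ne_zero) (ne hpar.py.ne_zero) (ne hpar.pz.ne_zero)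
    (ne hpar.px'.ne_zero) (IsEE.loc hpar.pz hpar.x_nz hxq hzq hE')
    (F2a_k hd.ht hpar.pz hpar.x_nz hxq hzq hTq hE') (IsEE.algebraMap_mem hE' _)
    (IsEE.algebraMap_mem hE' _) (IsEE.algebraMap_mem hE' _) (IsEE.algebraMap_mem hE' _)
    (IsEE.algebraMap_mem hE' _) (IsEE.algebraMap_mem hE' _)
    (F2a_un hpar.pz hpar.x_nz hxq hzq hE' hx'q) (IsEE.c_mem hE')
    (fun C _ hCu hk h1 h2 h3 h4 h5 h6 h7 =>
      F2a_gen hd hpar.pz hpar.x_nz hxq hzq hE' C hCu hk h1 h2 h3 h4 h5 h6 h7)

theorem isLR_E_x'y (hd : RData t x y z w1 w2 w3) (hpar : ParFacts (algebraMap O R t) x y z)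
    {E : Subring K} (hE : IsE (x - algebraMap O R t) y E) :
    IsLR k (hYR K (algebraMap O R t) x y z w1 w2 w3) E := by
  have hinj : Function.Injective (algebraMap R K) := IsFractionRing.injective R K
  have : FaithfulSMul R K := (faithfulSMul_iff_algebraMap_injective R K).2 hinj
  have : (Ideal.span {x - algebraMap O R t, y}).IsPrime := hpar.x'y
  have hE' : IsEE (Ideal.span {x - algebraMap O R t, y})
    (algebraMap R K (x - algebraMap O R t) / algebraMap R K y) E := hE
  have hxq : x - algebraMap O R t ∈ Ideal.span {x - algebraMap O R t, y} :=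
    Ideal.subset_span (by simp)
  have hyq : y ∈ Ideal.span {x - algebraMap O R t, y} := Ideal.subset_span (by simp)
  have hle : Ideal.span {x - algebraMap O R t, y} ≤ Ideal.span {x - algebraMap O R t, y, z} :=
    Ideal.span_mono (by
      intro r hr
      simp only [Set.mem_insert_iff, Set.mem_singleton_iff] at hr ⊢
      tauto)
  have hTq : algebraMap O R t ∉ Ideal.span {x - algebraMap O R t, y} :=
    fun h => hpar.T_nx'yz (hle h)
  have hx : x ∉ Ideal.span {x - algebraMap O R t, y} := fun h => hpar.x_nx'yz (hle h)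
  have ne : ∀ {r : R}, r ≠ 0 → algebraMap R K r ≠ 0 := fun h => (map_ne_zero_iff _ hinj).2 h
  exact isLR_of_x'y (ne hpar.px.ne_zero) (ne hpar.py.ne_zero) (ne hpar.pz.ne_zero)
    (ne hpar.px'.ne_zero) (IsEE.loc hpar.py hpar.x'_ny hxq hyq hE')
    (F2a_k hd.ht hpar.py hpar.x'_ny hxq hyq hTq hE')
    (F2a_un hpar.py hpar.x'_ny hxq hyq hE' hx)
    (IsEE.algebraMap_mem hE' _) (F2a_un hpar.py hpar.x'_ny hxq hyq hE' hpar.z_nx'y)
    (IsEE.algebraMap_mem hE' _) (IsEE.algebraMap_mem hE' _) (IsEE.algebraMap_mem hE' _)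
    (IsEE.algebraMap_mem hE' _) (IsEE.c_mem hE')
    (fun C _ hCu hk h1 h2 h3 h4 h5 h6 h7 =>
      F2a_gen hd hpar.py hpar.x'_ny hxq hyq hE' C hCu hk h1 h2 h3 h4 h5 h6 h7)



theorem F2b_un {B : Subring K} {a : K} (h : a ∈ B) (h' : ¬ NU B a) : Un B a :=
  ((mem_iff_un_or_nu B a).1 h).resolve_right h'

theorem F2b_R_mem (hd : RData t x y z w1 w2 w3) {B C : Subring K}
    (hRB : ∀ r : R, algebraMap R K r ∈ B)
    (hCu : ∀ u ∈ C, Un B u → u⁻¹ ∈ C) (hk : ∀ c : k, algebraMap k K c ∈ C)
    (hx : algebraMap R K x ∈ C) (hy : algebraMap R K y ∈ C) (hz : algebraMap R K z ∈ C)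
    (h1 : algebraMap R K w1 ∈ C) (h2 : algebraMap R K w2 ∈ C) (h3 : algebraMap R K w3 ∈ C)
    (r : R) : algebraMap R K r ∈ C := by
  have hA : ∀ a ∈ Algebra.adjoin O {x, y, z, w1, w2, w3}, algebraMap R K a ∈ C := by
    intro a ha
    induction ha using Algebra.adjoin_induction with
    | mem v hv =>
      simp only [Set.mem_insert_iff, Set.mem_singleton_iff] at hv
      rcases hv with rfl | rfl | rfl | rfl | rfl | rfl <;> assumption
    | algebraMap o =>
      rw [← IsScalarTower.algebraMap_apply O R K o, IsScalarTower.algebraMap_apply O k K o]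
      exact hk _
    | add u v _ _ hu hv => rw [map_add]; exact C.add_mem hu hv
    | mul u v _ _ hu hv => rw [map_mul]; exact C.mul_mem hu hv
  obtain ⟨a, b, ha, hb, hu, hr⟩ := hd.gen r
  obtain ⟨b', hb'⟩ := hu.exists_right_inv
  have h0 : algebraMap R K b * algebraMap R K b' = 1 := by
    rw [← map_mul, hb', map_one]
  have hne : algebraMap R K b ≠ 0 := left_ne_zero_of_mul_eq_one h0
  have hinv : (algebraMap R K b)⁻¹ = algebraMap R K b' := inv_eq_of_mul_eq_one_right h0
  have hUn : Un B (algebraMap R K b) := ⟨hne, hRB b, by rw [hinv]; exact hRB b'⟩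
  have h := C.mul_mem (hA a ha) (hCu _ (hA b hb) hUn)
  have he : algebraMap R K r = algebraMap R K a * (algebraMap R K b)⁻¹ := by
    rw [← hr, map_mul, mul_assoc, mul_inv_cancel₀ hne, mul_one]
  rw [he]; exact h

theorem F2b_aeval_mem {C : Subring K} (hR : ∀ r : R, algebraMap R K r ∈ C) {c : K} (hc : c ∈ C)
    (f : R[X]) : aeval c f ∈ C := by
  rw [aeval_eq_sum_range]
  refine C.sum_mem fun i _ => ?_
  rw [Algebra.smul_def]
  exact C.mul_mem (hR _) (C.pow_mem hc i)

theorem isLR_BF (hd : RData t x y z w1 w2 w3) (hpar : ParFacts (algebraMap O R t) x y z)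
    {B : Subring K}
    (hB : IsEE (Ideal.span {x, y, z}) (algebraMap R K x / algebraMap R K z) B) :
    IsLR k (hYR K (algebraMap O R t) x y z w1 w2 w3) B := by
  haveI hq : (Ideal.span {x, y, z}).IsPrime := hpar.xyz
  have hinj : Function.Injective (algebraMap R K) := IsFractionRing.injective R K
  haveI : FaithfulSMul R K := (faithfulSMul_iff_algebraMap_injective R K).2 hinj
  have hne : ∀ r : R, r ≠ 0 → algebraMap R K r ≠ 0 := fun r hr => by
    rwa [Ne, map_eq_zero_iff _ hinj]
  have hxq : x ∈ Ideal.span {x, y, z} := Ideal.subset_span (by simp)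
  have hzq : z ∈ Ideal.span {x, y, z} := Ideal.subset_span (by simp)
  have hRB : ∀ r : R, algebraMap R K r ∈ B := fun r => IsEE.algebraMap_mem hB r
  have hUnR : ∀ r : R, r ∉ Ideal.span {x, y, z} → Un B (algebraMap R K r) := fun r hr =>
    F2b_un (hRB r) fun h =>
      hr ((IsEE.nu_algebraMap_iff hpar.pz hpar.x_nz hxq hzq hB r).1 h)
  have hT : Un B (algebraMap R K (algebraMap O R t)) := hUnR _ hpar.T_nxyz
  unfold hYR
  refine isLR_of_xz (hne x hpar.px.ne_zero) (hne y hpar.py.ne_zero) (hne z hpar.pz.ne_zero)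
    (hne _ hpar.px'.ne_zero) (IsEE.loc hpar.pz hpar.x_nz hxq hzq hB) ?_ (hRB x) (hRB y) (hRB z)
    (hRB w1) (hRB w2) (hRB w3) (hUnR _ hpar.x'_nxyz) (IsEE.c_mem hB) ?_
  · refine algebraMap_mem_of_uniformizer hd.ht (fun o => ?_) ?_
    · rw [IsScalarTower.algebraMap_apply O R K o]; exact hRB _
    · rw [IsScalarTower.algebraMap_apply O R K t]; exact hT.2.2
  · intro C _ hCu hk hx hy hz h1 h2 h3 hc u hu
    have hRC : ∀ r : R, algebraMap R K r ∈ C :=
      F2b_R_mem hd hRB hCu hk hx hy hz h1 h2 h3
    obtain ⟨f, g, ⟨i, hg⟩, hfg⟩ := (hB u).1 hu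
    have hgB : aeval (algebraMap R K x / algebraMap R K z) g ∈ B :=
      F2b_aeval_mem hRB (IsEE.c_mem hB) g
    have hgU : Un B (aeval (algebraMap R K x / algebraMap R K z) g) :=
      F2b_un hgB fun h =>
        hg ((IsEE.nu_iff hpar.pz hpar.x_nz hxq hzq hB g).1 h i)
    have h := C.mul_mem (F2b_aeval_mem hRC hc f) (hCu _ (F2b_aeval_mem hRC hc g) hgU)
    rw [← hfg, mul_assoc, mul_inv_cancel₀ hgU.1, mul_one] at h
    exact h


end

end Pool.Agent.Lib.MP_55c1e7_ag.D
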