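import Pool.Agent.Lib.MP_55c1e7_ag.D.K2

set_option autoImplicit false

namespace Pool.Agent.Lib.MP_55c1e7_ag.D

open Polynomial

variable {K : Type} [Field K]

/-- ROW G0. Elementary facts. -/
theorem Un.mul {B : Subring K} {u v : K} (hu : Un B u) (hv : Un B v) : Un B (u * v) :=
  ⟨mul_ne_zero hu.1 hv.1, B.mul_mem hu.2.1 hv.2.1, by
    rw [mul_inv]; exact B.mul_mem hu.2.2 hv.2.2⟩

theorem Un.inv {B : Subring K} {u : K} (hu : Un B u) : Un B u⁻¹ :=
  ⟨inv_ne_zero hu.1, hu.2.2, by rw [inv_inv]; exact hu.2.1⟩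

theorem Un.div {B : Subring K} {u v : K} (hu : Un B u) (hv : Un B v) : Un B (u / v) := by
  rw [div_eq_mul_inv]; exact Un.mul hu (Un.inv hv)

theorem Un.pow {B : Subring K} {u : K} (hu : Un B u) (n : ℕ) : Un B (u ^ n) :=
  ⟨pow_ne_zero n hu.1, B.pow_mem hu.2.1 n, by rw [← inv_pow]; exact B.pow_mem hu.2.2 n⟩

theorem Un.of_mul {B : Subring K} {u v : K} (hu : u ∈ B) (hv : v ∈ B) (h : Un B (u * v)) :
    Un B u ∧ Un B v := by
  obtain ⟨h0, -, h2⟩ := h
  have hu0 : u ≠ 0 := left_ne_zero_of_mul h0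
  have hv0 : v ≠ 0 := right_ne_zero_of_mul h0
  refine ⟨⟨hu0, hu, ?_⟩, ⟨hv0, hv, ?_⟩⟩
  · have h3 := B.mul_mem hv h2
    have h4 : v * (u * v)⁻¹ = u⁻¹ := by field_simp
    rwa [h4] at h3
  · have h3 := B.mul_mem hu h2
    have h4 : u * (u * v)⁻¹ = v⁻¹ := by field_simp
    rwa [h4] at h3

theorem NU.mul {B : Subring K} {u v : K} (hu : NU B u) (hv : v ∈ B) : NU B (u * v) := by
  refine ⟨B.mul_mem hu.1 hv, fun h0 hi => ?_⟩
  exact hu.2 (left_ne_zero_of_mul h0)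
    (Un.of_mul hu.1 hv ⟨h0, B.mul_mem hu.1 hv, hi⟩).1.2.2

theorem mem_iff_un_or_nu (B : Subring K) (a : K) : a ∈ B ↔ Un B a ∨ NU B a := by
  constructor
  · intro ha
    by_cases h : a ≠ 0 ∧ a⁻¹ ∈ B
    · exact Or.inl ⟨h.1, ha, h.2⟩
    · exact Or.inr ⟨ha, fun h0 hi => h ⟨h0, hi⟩⟩
  · rintro (h | h)
    · exact h.2.1
    · exact h.1

theorem not_un_of_nu {B : Subring K} {a : K} (h : NU B a) : ¬ Un B a :=
  fun hu => h.2 hu.1 hu.2.2

private theorem G0_isUnit (B : Subring K) (a : B) : IsUnit a ↔ Un B (a : K) := by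
  constructor
  · rintro ⟨u, rfl⟩
    have h1 : ((u : B) : K) * ((u⁻¹ : Bˣ) : B) = 1 := by
      have := u.mul_inv
      exact_mod_cast congrArg (Subtype.val) this
    have h0 : ((u : B) : K) ≠ 0 := left_ne_zero_of_mul_eq_one h1
    refine ⟨h0, (u : B).2, ?_⟩
    rw [inv_eq_of_mul_eq_one_right h1]
    exact ((u⁻¹ : Bˣ) : B).2
  · rintro ⟨h0, h1, h2⟩
    refine IsUnit.of_mul_eq_one (⟨(a : K)⁻¹, h2⟩ : B) ?_
    apply Subtype.ext
    exact mul_inv_cancel₀ h0

private theorem G0_nonunit (B : Subring K) (a : B) : a ∈ nonunits B ↔ NU B (a : K) := by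
  rw [mem_nonunits_iff, G0_isUnit]
  constructor
  · intro h
    exact ((mem_iff_un_or_nu B a).1 a.2).resolve_left h
  · exact not_un_of_nu

theorem loc_iff (B : Subring K) : Loc B ↔ IsLocalRing B := by
  constructor
  · intro h
    refine IsLocalRing.of_nonunits_add fun a b ha hb => ?_
    rw [G0_nonunit] at ha hb ⊢
    exact h _ _ ha hb
  · intro h a b ha hb
    have h1 : (⟨a, ha.1⟩ : B) ∈ nonunits B := (G0_nonunit B _).2 ha
    have h2 : (⟨b, hb.1⟩ : B) ∈ nonunits B := (G0_nonunit B _).2 hb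
    exact (G0_nonunit B _).1 (IsLocalRing.nonunits_add h1 h2)

theorem isUnit_iff_un (B : Subring K) (a : B) : IsUnit a ↔ Un B (a : K) := G0_isUnit B a

private theorem G0_pow {B : Subring K} (h : DVR B) : ∃ p : K, NU B p ∧ ∀ q : K, q ≠ 0 →
    (∃ (n : ℕ) (u : K), Un B u ∧ q = p ^ n * u) ∨
      ∃ (n : ℕ) (u : K), Un B u ∧ q⁻¹ = p ^ n * u := by
  obtain ⟨p, hp0, hp, H⟩ := h
  refine ⟨p, hp, fun q hq => ?_⟩
  obtain ⟨n, hn⟩ := H q hq
  obtain ⟨m, rfl | rfl⟩ := n.eq_nat_or_neg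
  · left
    refine ⟨m, q / p ^ m, by simpa using hn, ?_⟩
    have : p ^ m ≠ 0 := pow_ne_zero m hp0
    field_simp
  · right
    have h1 := Un.inv hn
    refine ⟨m, _, h1, ?_⟩
    have : p ^ m ≠ 0 := pow_ne_zero m hp0
    rw [zpow_neg, zpow_natCast]
    field_simp

private theorem G0_dvd {B : Subring K} {p : K} (_ : NU B p)
    (H : ∀ q : K, q ≠ 0 → (∃ (n : ℕ) (u : K), Un B u ∧ q = p ^ n * u) ∨
      ∃ (n : ℕ) (u : K), Un B u ∧ q⁻¹ = p ^ n * u) {a : K} (hpB : p ∈ B) (ha : NU B a) :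
    ∃ c ∈ B, a = p * c := by
  by_cases h0 : a = 0
  · exact ⟨0, B.zero_mem, by rw [h0, mul_zero]⟩
  rcases H a h0 with ⟨n, u, hu, h⟩ | ⟨n, u, hu, h⟩
  · rcases n with _ | n
    · exfalso
      rw [pow_zero, one_mul] at h
      rw [h] at ha
      exact not_un_of_nu ha hu
    · exact ⟨p ^ n * u, B.mul_mem (B.pow_mem hpB n) hu.2.1, by rw [h, pow_succ]; ring⟩
  · exfalso
    refine ha.2 h0 ?_
    rw [h]
    exact B.mul_mem (B.pow_mem hpB n) hu.2.1

theorem DVR.loc {B : Subring K} (h : DVR B) : Loc B := by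
  obtain ⟨p, hp, H⟩ := G0_pow h
  intro a b ha hb
  obtain ⟨c, hc, rfl⟩ := G0_dvd hp H hp.1 ha
  obtain ⟨d, hd, rfl⟩ := G0_dvd hp H hp.1 hb
  rw [← mul_add]
  exact NU.mul hp (B.add_mem hc hd)

/-- a DVR is a valuation ring -/
theorem DVR.mem_or_inv_mem {B : Subring K} (h : DVR B) (q : K) : q ∈ B ∨ q⁻¹ ∈ B := by
  obtain ⟨p, hp, H⟩ := G0_pow h
  by_cases h0 : q = 0
  · left; rw [h0]; exact B.zero_mem
  rcases H q h0 with ⟨n, u, hu, h⟩ | ⟨n, u, hu, h⟩
  · left; rw [h]; exact B.mul_mem (B.pow_mem hp.1 n) hu.2.1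
  · right; rw [h]; exact B.mul_mem (B.pow_mem hp.1 n) hu.2.1













private theorem G1_factor {B : Subring K} {π : K} (hπ0 : π ≠ 0) (hπ : NU B π)
    (hf : ∀ q : K, q ≠ 0 → ∃ n : ℤ, Un B (q / π ^ n)) {x : K} (hx : NU B x) (hx0 : x ≠ 0) :
    ∃ (N : ℕ) (u : K), Un B u ∧ x = u * π ^ (N + 1) := by
  obtain ⟨n, hn⟩ := hf x hx0
  have hxu : x = x / π ^ n * π ^ n := by
    rw [div_mul_cancel₀]
    exact zpow_ne_zero n hπ0
  rcases le_or_gt n 0 with h | h
  · exfalso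
    obtain ⟨m, hm⟩ := Int.eq_ofNat_of_zero_le (neg_nonneg.2 h)
    have hm' : n = -(m : ℤ) := by
      omega
    rw [hm', zpow_neg, zpow_natCast, div_inv_eq_mul] at hn
    exact not_un_of_nu hx (Un.of_mul hx.1 (B.pow_mem hπ.1 m) hn).1
  · obtain ⟨m, hm⟩ := Int.eq_ofNat_of_zero_le (a := n - 1) (by omega)
    have hm' : n = ((m + 1 : ℕ) : ℤ) := by
      push_cast
      omega
    refine ⟨m, x / π ^ n, hn, ?_⟩
    rw [hm', zpow_natCast] at hxu ⊢
    exact hxu

/-- ROW G1 (Lemma G). `B` a DVR of `K` and a localization of the domain `S ⊆ K`, `b ∈ S` a prime element which is a non-unit of `B`.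
Then the non-units of `B` in `S` are the multiples of `b`, and `B = S_(b)`.
Proof. Let `π` be a uniformizer, `b = π^n u`, `n ≥ 1` (`b` is a non-unit), `π = p/q` with `p, q ∈ S`, `q` unit of `B`, `u⁻¹ = p'/q'`.
`q' p^n = b p' q^n`, so `b ∣ q'` or `b ∣ p` in `S`. The first would make `q'` a non-unit of `B`. So `p = b s`, `π q = b s`,
hence `π = b (s/q)`, `b ∣ π` in `B` and `n = 1`. If `f ∈ S` is a non-unit of `B` then `f = b c`, `c = p''/q'' ∈ B`, `q'' f = b p''`, so `b ∣ f`. -/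
theorem lemmaG {S : Type} [CommRing S] [IsDomain S] [Algebra S K] [FaithfulSMul S K] {b : S}
    (hb : Prime b) {B : Subring K} (hB : DVR B) (hloc : IsLoc S B)
    (hbB : NU B (algebraMap S K b)) :
    (∀ f : S, NU B (algebraMap S K f) ↔ b ∣ f) ∧
      ∀ q : K, q ∈ B ↔ ∃ f g : S, ¬ b ∣ g ∧ q * algebraMap S K g = algebraMap S K f := by
  have hinj : Function.Injective (algebraMap S K) := FaithfulSMul.algebraMap_injective S K
  have hb0 : algebraMap S K b ≠ 0 := (map_ne_zero_iff _ hinj).2 hb.ne_zero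
  obtain ⟨π, hπ0, hπ, hfac⟩ := hB
  -- multiples of `b` are non-units
  have hmul : ∀ f : S, b ∣ f → NU B (algebraMap S K f) := by
    rintro f ⟨c, rfl⟩
    rw [map_mul]
    exact NU.mul hbB (hloc.1 c)
  obtain ⟨N, u, hu, hbu⟩ := G1_factor hπ0 hπ hfac hbB hb0
  obtain ⟨p, q, hq, hpq⟩ := hloc.2 π hπ.1
  obtain ⟨p', q', hq', hpq'⟩ := hloc.2 u⁻¹ hu.2.2
  have h1 : q' * p ^ (N + 1) = b * (p' * q ^ (N + 1)) := by
    apply hinj
    rw [map_mul, map_mul, map_mul, map_pow, map_pow, ← hpq, ← hpq', hbu, mul_pow]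
    have hu0 : u ≠ 0 := hu.1
    field_simp
  have h2 : b ∣ q' * p ^ (N + 1) := ⟨_, h1⟩
  have h3 : ¬ b ∣ q' := fun h => not_un_of_nu (hmul q' h) hq'
  have h4 : b ∣ p := by
    rcases hb.dvd_or_dvd h2 with h | h
    · exact absurd h h3
    · exact hb.dvd_of_dvd_pow h
  obtain ⟨s, hs⟩ := h4
  have hq0 : algebraMap S K q ≠ 0 := hq.1
  have hπs : π = algebraMap S K b * (algebraMap S K s * (algebraMap S K q)⁻¹) := by
    rw [← mul_assoc, ← map_mul, ← hs, ← hpq, mul_assoc, mul_inv_cancel₀ hq0, mul_one]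
  have hsq : algebraMap S K s * (algebraMap S K q)⁻¹ ∈ B := B.mul_mem (hloc.1 s) hq.2.2
  have hiff : ∀ f : S, NU B (algebraMap S K f) ↔ b ∣ f := by
    intro f
    refine ⟨fun hf => ?_, hmul f⟩
    by_cases hf0 : f = 0
    · rw [hf0]
      exact dvd_zero b
    · obtain ⟨m, v, hv, hfv⟩ := G1_factor hπ0 hπ hfac hf ((map_ne_zero_iff _ hinj).2 hf0)
      have hc : v * π ^ m * (algebraMap S K s * (algebraMap S K q)⁻¹) ∈ B :=
        B.mul_mem (B.mul_mem hv.2.1 (B.pow_mem hπ.1 m)) hsq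
      obtain ⟨a, r, hr, har⟩ := hloc.2 _ hc
      have h5 : f * r = b * a := by
        apply hinj
        rw [map_mul, map_mul, ← har, hfv, pow_succ]
        nth_rewrite 2 [hπs]
        ring
      have h6 : b ∣ f * r := ⟨a, h5⟩
      rcases hb.dvd_or_dvd h6 with h | h
      · exact h
      · exact absurd hr (not_un_of_nu (hmul r h))
  refine ⟨hiff, fun c => ⟨fun hc => ?_, ?_⟩⟩
  · obtain ⟨a, r, hr, har⟩ := hloc.2 c hc
    exact ⟨a, r, fun h => not_un_of_nu (hmul r h) hr, har⟩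
  · rintro ⟨f, g, hg, hfg⟩
    rcases (mem_iff_un_or_nu B (algebraMap S K g)).1 (hloc.1 g) with h | h
    · have h7 : c = algebraMap S K f * (algebraMap S K g)⁻¹ := by
        rw [← hfg, mul_assoc, mul_inv_cancel₀ h.1, mul_one]
      rw [h7]
      exact B.mul_mem (hloc.1 f) h.2.2
    · exact absurd ((hiff g).1 h) hg


/-- ROW G2 (Lemma F1A). `S = R[a/b]` in Lemma G; uses K2. -/
theorem lemmaF1A {R : Type} [CommRing R] [IsDomain R] [Algebra R K] [FaithfulSMul R K] {a b : R}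
    (hb : Prime b) (hba : ¬ b ∣ a) (hP : (Ideal.span {a, b}).IsPrime) {B : Subring K}
    (hB : DVR B)
    (hloc : IsLoc (Algebra.adjoin R {(algebraMap R K a / algebraMap R K b : K)}) B)
    (hbB : NU B (algebraMap R K b)) :
    IsE a b B ∧ (∀ r : R, NU B (algebraMap R K r) ↔ r ∈ Ideal.span {a, b}) ∧
      Un B (algebraMap R K a / algebraMap R K b) := by
  set c : K := algebraMap R K a / algebraMap R K b with hc
  have hpr : Prime (algebraMap R (Algebra.adjoin R {c}) b) := prime_adjoin hb hba hP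
  obtain ⟨h1, h2⟩ := lemmaG hpr hB hloc hbB
  have hmem : ∀ F : R[X], aeval c F ∈ Algebra.adjoin R {c} := fun F => by
    rw [Algebra.adjoin_singleton_eq_range_aeval]; exact ⟨F, rfl⟩
  have hrep : ∀ s : Algebra.adjoin R {c}, ∃ F : R[X], (s : K) = aeval c F := fun s => by
    have h : (s : K) ∈ (aeval c : R[X] →ₐ[R] K).range := by
      rw [← Algebra.adjoin_singleton_eq_range_aeval]; exact s.2
    obtain ⟨F, hF⟩ := h
    exact ⟨F, hF.symm⟩
  have hNU : ∀ F : R[X], NU B (aeval c F) ↔ ∀ i, F.coeff i ∈ Ideal.span {a, b} := fun F =>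
    (h1 ⟨aeval c F, hmem F⟩).trans (dvd_adjoin_iff hb hba ⟨aeval c F, hmem F⟩ F rfl)
  refine ⟨?_, ?_, ?_⟩
  · intro u
    rw [h2 u]
    constructor
    · rintro ⟨f, g, hg, he⟩
      obtain ⟨F, hF⟩ := hrep f
      obtain ⟨G, hG⟩ := hrep g
      refine ⟨F, G, ?_, ?_⟩
      · rw [dvd_adjoin_iff hb hba g G hG] at hg
        exact not_forall.1 hg
      · have he' : u * (g : K) = (f : K) := he
        rw [hF, hG] at he'
        exact he'
    · rintro ⟨F, G, ⟨i, hi⟩, he⟩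
      refine ⟨⟨aeval c F, hmem F⟩, ⟨aeval c G, hmem G⟩, ?_, he⟩
      rw [dvd_adjoin_iff hb hba ⟨aeval c G, hmem G⟩ G rfl]
      exact fun h => hi (h i)
  · intro r
    have h := hNU (C r)
    rw [aeval_C] at h
    rw [h]
    constructor
    · intro h'
      have := h' 0
      rwa [coeff_C_zero] at this
    · intro hr i
      rw [coeff_C]
      split_ifs
      · exact hr
      · exact Ideal.zero_mem _
  · have hcB : c ∈ B := by
      have h := hloc.1 ⟨c, Algebra.self_mem_adjoin_singleton R c⟩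
      exact h
    rcases (mem_iff_un_or_nu B c).1 hcB with h | h
    · exact h
    · exfalso
      have h' := hNU X
      rw [aeval_X] at h'
      have h3 := h'.1 h 1
      rw [coeff_X_one] at h3
      exact hP.ne_top ((Ideal.eq_top_iff_one _).2 h3)


end Pool.Agent.Lib.MP_55c1e7_ag.D
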