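import Pool.Agent.Lib.MP_55c1e7_ag.D.Basic

set_option autoImplicit false

namespace Pool.Agent.Lib.MP_55c1e7_ag.D

open Polynomial

variable {K : Type} [Field K]

section
variable {R : Type} [CommRing R] [IsDomain R] [Algebra R K] [FaithfulSMul R K] {a b : R}

private lemma K1_dvd (hb : Prime b) (hba : ¬ b ∣ a) (f : R[X])
    (h : aeval (algebraMap R K a / algebraMap R K b) f = 0) :
    b ∣ f.coeff f.natDegree := by
  have h1 := scaleRoots_eval₂_eq_zero_of_eval₂_div_eq_zero (f := algebraMap R K)
    (FaithfulSMul.algebraMap_injective R K) (r := a) (s := b) (p := f) h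
    (mem_nonZeroDivisors_of_ne_zero hb.ne_zero)
  rw [eval₂_at_apply] at h1
  have h2 : (scaleRoots f b).IsRoot a := by
    rw [IsRoot]
    exact FaithfulSMul.algebraMap_injective R K (by rw [h1, map_zero])
  have h3 := dvd_term_of_isRoot_of_dvd_terms (p := b) f.natDegree h2 (by
    intro j hj
    rw [coeff_scaleRoots]
    rcases lt_or_gt_of_ne hj with hj | hj
    · refine Dvd.dvd.mul_right (Dvd.dvd.mul_left (dvd_pow_self b ?_) _) _
      omega
    · rw [coeff_eq_zero_of_natDegree_lt hj]
      simp)
  rw [coeff_scaleRoots, Nat.sub_self, pow_zero, mul_one] at h3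
  rcases hb.dvd_or_dvd h3 with h4 | h4
  · exact h4
  · exact absurd (hb.dvd_of_dvd_pow h4) hba

private lemma K1_val (hb : b ≠ 0) :
    aeval (algebraMap R K a / algebraMap R K b) (C b * X - C a : R[X]) = 0 := by
  have hb' : algebraMap R K b ≠ 0 := by
    rw [Ne, FaithfulSMul.algebraMap_eq_zero_iff]
    exact hb
  rw [map_sub, map_mul, aeval_C, aeval_C, aeval_X, mul_div_cancel₀ _ hb', sub_self]

/-- ROW K1. (a) If `b` is prime, `b ∤ a` and `f(a/b) = 0` then `f = (bX - a) g`. Induction on `natDegree f`: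
if `f ≠ 0`, `d = natDegree f`, multiply `f(a/b) = 0` by `b^d`: `b ∣ c_d a^d`, so `b ∣ c_d` (for `d = 0`: `f = c_0 = 0`);
`f - (bX - a) (c_d / b) X^(d-1)` has smaller degree and the same value at `a/b`. -/
theorem aeval_div_eq_zero (hb : Prime b) (hba : ¬ b ∣ a) (f : R[X])
    (h : aeval (algebraMap R K a / algebraMap R K b) f = 0) :
    ∃ g : R[X], f = (C b * X - C a) * g := by
  have key : ∀ (n : ℕ) (f : R[X]), f.natDegree ≤ n →
      aeval (algebraMap R K a / algebraMap R K b) f = 0 →
      ∃ g : R[X], f = (C b * X - C a) * g := by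
    intro n
    induction n with
    | zero =>
      intro f hf h
      rw [natDegree_le_iff_degree_le] at hf
      rw [eq_C_of_degree_le_zero hf, aeval_C, FaithfulSMul.algebraMap_eq_zero_iff] at h
      refine ⟨0, ?_⟩
      rw [eq_C_of_degree_le_zero hf, h]
      simp
    | succ n ih =>
      intro f hf h
      rcases Nat.lt_or_ge f.natDegree (n + 1) with h1 | h1
      · exact ih f (by omega) h
      · have h2 : f.natDegree = n + 1 := le_antisymm hf h1
        obtain ⟨e, he⟩ := K1_dvd hb hba f h
        rw [h2] at he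
        have h3 : (f - (C b * X - C a) * (C e * X ^ n)).natDegree ≤ n := by
          rw [natDegree_le_iff_coeff_eq_zero]
          intro N hN
          have h4 : (C b * X - C a) * (C e * X ^ n) = C (b * e) * X ^ (n + 1) -
              C (a * e) * X ^ n := by
            rw [map_mul, map_mul]
            ring
          rw [h4, coeff_sub, coeff_sub, coeff_C_mul_X_pow, coeff_C_mul_X_pow]
          rw [if_neg (show N ≠ n by omega)]
          by_cases h5 : N = n + 1
          · subst h5
            rw [if_pos rfl, he]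
            ring
          · rw [if_neg h5, coeff_eq_zero_of_natDegree_lt (by omega)]
            ring
        obtain ⟨g, hg⟩ := ih _ h3 (by rw [map_sub, h, map_mul, K1_val hb.ne_zero]; ring)
        refine ⟨g + C e * X ^ n, ?_⟩
        rw [mul_add, ← hg]
        ring
  exact key _ f le_rfl h

/-- (b) `f(a/b) = b g(a/b)` implies that all coefficients of `f` are in `(a,b)`
(by (a), `f - b g = (bX - a) q`). -/
theorem coeff_mem_of_aeval_eq (hb : Prime b) (hba : ¬ b ∣ a) (f g : R[X])
    (h : aeval (algebraMap R K a / algebraMap R K b) f =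
      algebraMap R K b * aeval (algebraMap R K a / algebraMap R K b) g) (i : ℕ) :
    f.coeff i ∈ Ideal.span {a, b} := by
  obtain ⟨q, hq⟩ := aeval_div_eq_zero (K := K) hb hba (f - C b * g)
    (by rw [map_sub, map_mul, aeval_C, h, sub_self])
  have ha : C a ∈ Ideal.map C (Ideal.span {a, b}) :=
    Ideal.mem_map_of_mem _ (Ideal.subset_span (by simp))
  have hb' : C b ∈ Ideal.map C (Ideal.span {a, b}) :=
    Ideal.mem_map_of_mem _ (Ideal.subset_span (by simp))
  have h1 : f ∈ Ideal.map C (Ideal.span {a, b}) := by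
    have h2 : f = C b * g + (C b * X - C a) * q := by
      rw [← hq]
      ring
    rw [h2]
    exact Ideal.add_mem _ (Ideal.mul_mem_right _ _ hb') (Ideal.mul_mem_right _ _
      (Ideal.sub_mem _ (Ideal.mul_mem_right _ _ hb') ha))
  exact Ideal.mem_map_C_iff.1 h1 i

/-- (c) conversely, if all coefficients of `f` are in `(a,b)` then `f(a/b) = b g(a/b)` for some `g`
(`c_i = a u_i + b v_i = b (u_i (a/b) + v_i)`, `g = ∑ (u_i X + v_i) X^i`). -/
theorem aeval_eq_of_coeff_mem (hb : b ≠ 0) (f : R[X]) (h : ∀ i, f.coeff i ∈ Ideal.span {a, b}) :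
    ∃ g : R[X], aeval (algebraMap R K a / algebraMap R K b) f =
      algebraMap R K b * aeval (algebraMap R K a / algebraMap R K b) g := by
  have h1 : f ∈ Ideal.map C (Ideal.span {a, b}) := Ideal.mem_map_C_iff.2 h
  rw [Ideal.map_span, Set.image_insert_eq, Set.image_singleton, Ideal.mem_span_pair] at h1
  obtain ⟨p, q, rfl⟩ := h1
  have hb' : algebraMap R K b ≠ 0 := by
    rw [Ne, FaithfulSMul.algebraMap_eq_zero_iff]
    exact hb
  refine ⟨X * p + q, ?_⟩
  rw [map_add, map_add, map_mul, map_mul, map_mul, aeval_C, aeval_C, aeval_X]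
  field_simp

/-- (d) if `f(a/b) = 0` and `a, b ∈ q` then all coefficients of `f` are in `q` (from (a)). -/
theorem coeff_mem_of_aeval_eq_zero (hb : Prime b) (hba : ¬ b ∣ a) (q : Ideal R) (ha : a ∈ q)
    (hbq : b ∈ q) (f : R[X]) (h : aeval (algebraMap R K a / algebraMap R K b) f = 0) (i : ℕ) :
    f.coeff i ∈ q := by
  obtain ⟨g, rfl⟩ := aeval_div_eq_zero hb hba f h
  have ha' : C a ∈ Ideal.map C q := Ideal.mem_map_of_mem _ ha
  have hb' : C b ∈ Ideal.map C q := Ideal.mem_map_of_mem _ hbq
  exact Ideal.mem_map_C_iff.1 (Ideal.mul_mem_right _ _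
      (Ideal.sub_mem _ (Ideal.mul_mem_right _ _ hb') ha')) i





end

end Pool.Agent.Lib.MP_55c1e7_ag.D
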