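import Pool.Agent.Lib.MP_55c1e7_ag.D.K1

set_option autoImplicit false

namespace Pool.Agent.Lib.MP_55c1e7_ag.D

open Polynomial

variable {K : Type} [Field K]

section
variable {R : Type} [CommRing R] [IsDomain R] [Algebra R K] [FaithfulSMul R K] {a b : R}

omit [IsDomain R] [FaithfulSMul R K] in
theorem K2a_exists_poly {c : K} (s : Algebra.adjoin R {c}) : ∃ f : R[X], (s : K) = aeval c f := by
  obtain ⟨s, h⟩ := s
  rw [Algebra.adjoin_singleton_eq_range_aeval] at h
  obtain ⟨f, hf⟩ := h
  exact ⟨f, hf.symm⟩

/-- ROW K2. `b` is prime in `R[a/b]` if `(a,b)` is a prime ideal of `R`, `b` prime, `b ∤ a`.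
Every element of `Algebra.adjoin R {c}` is `aeval c f` (`Algebra.adjoin_singleton_eq_range_aeval`). By K1 (b), (c):
`b ∣ f(c)` in `R[c]` iff all coefficients of `f` are in `(a,b)`; and `(a,b)R[X]` is a prime ideal (`Ideal.isPrime_map_C_of_isPrime`,
`Ideal.mem_map_C_iff`). `b` is not a unit of `R[c]`: otherwise `1 ∈ (a,b)`. -/
theorem dvd_adjoin_iff (hb : Prime b) (hba : ¬ b ∣ a)
    (s : Algebra.adjoin R {(algebraMap R K a / algebraMap R K b : K)}) (f : R[X])
    (hs : (s : K) = aeval (algebraMap R K a / algebraMap R K b) f) :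
    algebraMap R (Algebra.adjoin R {(algebraMap R K a / algebraMap R K b : K)}) b ∣ s ↔
      ∀ i, f.coeff i ∈ Ideal.span {a, b} := by
  constructor
  · rintro ⟨s', hs'⟩
    obtain ⟨g, hg⟩ := K2a_exists_poly s'
    refine coeff_mem_of_aeval_eq (K := K) hb hba f g ?_
    rw [← hs, ← hg, hs']
    rfl
  · intro h
    obtain ⟨g, hg⟩ := aeval_eq_of_coeff_mem (K := K) (a := a) hb.ne_zero f h
    refine ⟨⟨aeval (algebraMap R K a / algebraMap R K b) g,
      Polynomial.aeval_mem_adjoin_singleton _ _⟩, Subtype.ext ?_⟩
    rw [hs, hg]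
    rfl

theorem prime_adjoin (hb : Prime b) (hba : ¬ b ∣ a) (hP : (Ideal.span {a, b}).IsPrime) :
    Prime (algebraMap R (Algebra.adjoin R {(algebraMap R K a / algebraMap R K b : K)}) b) := by
  refine ⟨?_, ?_, ?_⟩
  · intro h
    have h1 : (algebraMap R (Algebra.adjoin R {(algebraMap R K a / algebraMap R K b : K)}) b : K)
        = 0 := by rw [h]; rfl
    have h2 : algebraMap R K b = 0 := h1
    exact hb.ne_zero ((FaithfulSMul.algebraMap_injective R K) (by rw [h2, map_zero]))
  · intro hu
    have h1 := (dvd_adjoin_iff (K := K) hb hba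
      (1 : Algebra.adjoin R {(algebraMap R K a / algebraMap R K b : K)}) (1 : R[X])
      (by rw [map_one]; rfl)).1 hu.dvd 0
    rw [Polynomial.coeff_one_zero] at h1
    exact hP.ne_top ((Ideal.eq_top_iff_one _).2 h1)
  · intro s t hst
    obtain ⟨f, hf⟩ := K2a_exists_poly s
    obtain ⟨g, hg⟩ := K2a_exists_poly t
    have h1 := (dvd_adjoin_iff (K := K) hb hba (s * t) (f * g)
      (by rw [map_mul, ← hf, ← hg]; rfl)).1 hst
    have h2 : f * g ∈ (Ideal.span {a, b}).map (C : R →+* R[X]) := Ideal.mem_map_C_iff.2 h1
    have hpr : ((Ideal.span {a, b}).map (C : R →+* R[X])).IsPrime :=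
      have := hP; Ideal.isPrime_map_C_of_isPrime
    rcases hpr.mem_or_mem h2 with h | h
    · exact Or.inl ((dvd_adjoin_iff (K := K) hb hba s f hf).2 (Ideal.mem_map_C_iff.1 h))
    · exact Or.inr ((dvd_adjoin_iff (K := K) hb hba t g hg).2 (Ideal.mem_map_C_iff.1 h))



private lemma K2b_surj (x : K) (c : Algebra.adjoin R {x}) (hc : (c : K) = x) :
    Function.Surjective (aeval (R := R) c) := by
  intro s
  have h1 : (s : K) ∈ (aeval (R := R) x).range := by
    rw [← Algebra.adjoin_singleton_eq_range_aeval]
    exact s.2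
  obtain ⟨f, hf⟩ := h1
  refine ⟨f, Subtype.ext ?_⟩
  rw [← Subalgebra.aeval_coe, hc]
  exact hf

private lemma K2b_map (x : K) (c : Algebra.adjoin R {x}) (J : Ideal R) :
    Ideal.span {c} ⊔ J.map (algebraMap R (Algebra.adjoin R {x})) =
      Ideal.map (aeval (R := R) c) (Ideal.span {X} ⊔ J.map C) := by
  have h1 : J.map (algebraMap R (Algebra.adjoin R {x})) =
      Ideal.map (aeval (R := R) c) (J.map C) := by
    have h2 : (algebraMap R (Algebra.adjoin R {x})) =
        (aeval (R := R) c : R[X] →ₐ[R] _).toRingHom.comp C := by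
      ext r
      simp
    rw [h2, ← Ideal.map_map]
    rfl
  rw [Ideal.map_sup, Ideal.map_span, Set.image_singleton, aeval_X, h1]

/-- The quotient of `R[a/b]` by an ideal that contains `a/b`: an element `r ∈ R` which lies in the ideal of `R[c]` generated by
`c = a/b` and (the image of) `J` lies in `(a) + J`. Proof: `r = c f(c) + ∑ j_i g_i(c)`, i.e. `r - X f - ∑ j_i g_i` vanishes at `c`,
so it is `(bX - a) g` by K1 (a); compare the coefficients at `X^0`: `r - ∑ j_i g_i(0) = - a g(0)`. -/
theorem mem_of_mem_span_adjoin (hb : Prime b) (hba : ¬ b ∣ a) (J : Ideal R) (r : R)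
    (c : Algebra.adjoin R {(algebraMap R K a / algebraMap R K b : K)})
    (hc : (c : K) = algebraMap R K a / algebraMap R K b)
    (h : algebraMap R (Algebra.adjoin R {(algebraMap R K a / algebraMap R K b : K)}) r ∈
      Ideal.span {c} ⊔ J.map (algebraMap R _)) :
    r ∈ Ideal.span {a} ⊔ J := by
  rw [K2b_map, Ideal.mem_map_iff_of_surjective _ (K2b_surj _ c hc)] at h
  obtain ⟨p, hp, hpr⟩ := h
  have h0 : aeval (algebraMap R K a / algebraMap R K b) (C r - p) = 0 := by
    rw [← hc, Subalgebra.aeval_coe, map_sub, hpr, aeval_C, sub_self]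
    rfl
  obtain ⟨g, hg⟩ := aeval_div_eq_zero hb hba (C r - p) h0
  have h1 : r = constantCoeff p + a * (- g.coeff 0) := by
    have h2 := congrArg constantCoeff hg
    simp only [map_sub, map_mul, constantCoeff_apply, coeff_C_zero, coeff_X_zero] at h2 ⊢
    linear_combination h2
  have h3 : constantCoeff p ∈ J := by
    have h4 : Ideal.span {X} ⊔ J.map C ≤ Ideal.comap constantCoeff J := by
      refine sup_le ?_ ?_
      · rw [Ideal.span_le, Set.singleton_subset_iff]
        simp
      · rw [Ideal.map_le_iff_le_comap]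
        intro j hj
        simpa using hj
    exact h4 hp
  rw [h1]
  exact Ideal.add_mem _ (Ideal.mem_sup_right h3) (Ideal.mem_sup_left
    (Ideal.mul_mem_right _ _ (Ideal.mem_span_singleton_self a)))

/-- The ideal of `R[c]`, `c = a/b`, generated by `c` and `J` is prime if `(a) + J` is a prime ideal of `R`:
every element of `R[c]` is congruent to an element of `R` modulo `c`; use `mem_of_mem_span_adjoin`. -/
theorem isPrime_span_adjoin (hb : Prime b) (hba : ¬ b ∣ a) (J : Ideal R)
    (hJ : (Ideal.span {a} ⊔ J).IsPrime)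
    (c : Algebra.adjoin R {(algebraMap R K a / algebraMap R K b : K)})
    (hc : (c : K) = algebraMap R K a / algebraMap R K b) :
    (Ideal.span {c} ⊔ J.map (algebraMap R _) :
      Ideal (Algebra.adjoin R {(algebraMap R K a / algebraMap R K b : K)})).IsPrime := by
  set I := (Ideal.span {c} ⊔ J.map (algebraMap R _) :
      Ideal (Algebra.adjoin R {(algebraMap R K a / algebraMap R K b : K)})) with hI
  have hcI : c ∈ I := Ideal.mem_sup_left (Ideal.mem_span_singleton_self c)
  have haI : ∀ r ∈ Ideal.span {a} ⊔ J, algebraMap R (Algebra.adjoin R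
      {(algebraMap R K a / algebraMap R K b : K)}) r ∈ I := by
    have h1 : Ideal.span {a} ⊔ J ≤ Ideal.comap (algebraMap R (Algebra.adjoin R
        {(algebraMap R K a / algebraMap R K b : K)})) I := by
      refine sup_le ?_ ?_
      · rw [Ideal.span_le, Set.singleton_subset_iff]
        have h2 : algebraMap R (Algebra.adjoin R
            {(algebraMap R K a / algebraMap R K b : K)}) a = algebraMap R _ b * c := by
          apply Subtype.ext
          have hb' : algebraMap R K b ≠ 0 := by
            rw [Ne, FaithfulSMul.algebraMap_eq_zero_iff]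
            exact hb.ne_zero
          have h3 : ((algebraMap R (Algebra.adjoin R
            {(algebraMap R K a / algebraMap R K b : K)}) b * c :
              Algebra.adjoin R {(algebraMap R K a / algebraMap R K b : K)}) : K) =
              algebraMap R K b * (c : K) := rfl
          rw [h3, hc, mul_div_cancel₀ _ hb']
          rfl
        change algebraMap R _ a ∈ I
        rw [h2]
        exact Ideal.mul_mem_left _ _ hcI
      · rw [← Ideal.map_le_iff_le_comap]
        exact le_sup_right
    exact fun r hr => h1 hr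
  have hrep : ∀ s : Algebra.adjoin R {(algebraMap R K a / algebraMap R K b : K)},
      ∃ r : R, s - algebraMap R _ r ∈ I := by
    intro s
    obtain ⟨f, rfl⟩ := K2b_surj _ c hc s
    refine ⟨f.coeff 0, ?_⟩
    have h1 : aeval c f - algebraMap R _ (f.coeff 0) = c * aeval c f.divX := by
      have h2 : aeval c f = aeval c f.divX * c + algebraMap R _ (f.coeff 0) := by
        have h3 := congrArg (aeval c) f.divX_mul_X_add
        rw [map_add, map_mul, aeval_X, aeval_C] at h3
        exact h3.symm
      rw [h2]
      ring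
    rw [h1]
    exact Ideal.mul_mem_right _ _ hcI
  refine ⟨?_, ?_⟩
  · intro h
    apply hJ.ne_top
    rw [Ideal.eq_top_iff_one]
    refine mem_of_mem_span_adjoin hb hba J 1 c hc ?_
    rw [← hI, h]
    trivial
  · intro s t hst
    obtain ⟨r, hr⟩ := hrep s
    obtain ⟨r', hr'⟩ := hrep t
    have h1 : algebraMap R (Algebra.adjoin R {(algebraMap R K a / algebraMap R K b : K)})
        (r * r') ∈ I := by
      have h2 : algebraMap R (Algebra.adjoin R {(algebraMap R K a / algebraMap R K b : K)})
          (r * r') = s * t - s * (t - algebraMap R _ r') -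
            algebraMap R _ r' * (s - algebraMap R _ r) := by
        rw [map_mul]
        ring
      rw [h2]
      exact I.sub_mem (I.sub_mem hst (I.mul_mem_left _ hr')) (I.mul_mem_left _ hr)
    have h3 := mem_of_mem_span_adjoin hb hba J (r * r') c hc h1
    rcases hJ.mem_or_mem h3 with h4 | h4
    · left
      have := I.add_mem hr (haI r h4)
      simpa using this
    · right
      have := I.add_mem hr' (haI r' h4)
      simpa using this



end

end Pool.Agent.Lib.MP_55c1e7_ag.D
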