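import Pool.Agent.Lib.MP_55c1e7_ag.D.G1

set_option autoImplicit false

namespace Pool.Agent.Lib.MP_55c1e7_ag.D

open Polynomial

variable {K : Type} [Field K]

/-- ROW LR1. Localizations of local rings of the model are local rings of the model. (`b = p/q`, `p, q ∈ B`, `p = a/s`, `q = a'/s'` with
`s, s'` units of `B`, so `b = a s' / (s a')`, and `a'` is a unit of `D` because `q` is.) -/
theorem IsLoc.trans {S : Type} [CommRing S] [Algebra S K] {B D : Subring K} (hB : IsLoc S B)
    (hD : IsLoc B D) : IsLoc S D := by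
  have hBD : ∀ u ∈ B, u ∈ D := fun u hu => hD.1 ⟨u, hu⟩
  have hUn : ∀ u : K, Un B u → Un D u := fun u hu => ⟨hu.1, hBD _ hu.2.1, hBD _ hu.2.2⟩
  refine ⟨fun s => hBD _ (hB.1 s), fun d hd => ?_⟩
  obtain ⟨p, q, hq, hdq⟩ := hD.2 d hd
  obtain ⟨a, s, hs, has⟩ := hB.2 (p : K) p.2
  obtain ⟨a', s', hs', has'⟩ := hB.2 (q : K) q.2
  have hq' : Un D (q : K) := hq
  have hdq' : d * (q : K) = (p : K) := hdq
  refine ⟨a * s', s * a', ?_, ?_⟩
  · rw [map_mul, ← has']
    exact (hUn _ hs).mul (hq'.mul (hUn _ hs'))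
  · rw [map_mul, map_mul, ← has', ← has, ← hdq']
    ring

theorem IsLR.trans {R : Type} [CommRing R] [Algebra R K] {ι : Type} {h : ι → K}
    {B D : Subring K} (hB : IsLR R h B) (hD : Loc D) (hloc : IsLoc B D) : IsLR R h D := by
  have hBD : ∀ u ∈ B, u ∈ D := fun u hu => hloc.1 ⟨u, hu⟩
  obtain ⟨i, hi, hj, hl⟩ := hB.2
  exact ⟨hD, i, hi, fun j => hBD _ (hj j), IsLoc.trans hl hloc⟩

/-- If `S → S'` (algebras over each other inside `K`), `B` a localization of `S` and `S' ⊆ B`, then `B` is a localization of `S'`. -/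
theorem IsLoc.mono {S S' : Type} [CommRing S] [Algebra S K] [CommRing S'] [Algebra S' K]
    {B : Subring K} (hB : IsLoc S B)
    (hS : ∀ s : S, ∃ s' : S', algebraMap S' K s' = algebraMap S K s)
    (hS' : ∀ s : S', algebraMap S' K s ∈ B) : IsLoc S' B := by
  refine ⟨hS', fun b hb => ?_⟩
  obtain ⟨a, s, hs, has⟩ := hB.2 b hb
  obtain ⟨a', ha'⟩ := hS a
  obtain ⟨s', hs'⟩ := hS s
  exact ⟨a', s', by rw [hs']; exact hs, by rw [hs', ha']; exact has⟩




/-- ROW LR2. Change of the base ring `O ⊆ k = Frac O`. -/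
theorem IsLR.base {O k : Type} [CommRing O] [Algebra O K] [Field k] [Algebra O k]
    [Algebra k K] [IsScalarTower O k K] {ι : Type} {h : ι → K} {B : Subring K}
    (hB : IsLR O h B) (hk : ∀ c : k, algebraMap k K c ∈ B) : IsLR k h B := by
  obtain ⟨hL, i, hi, hj, hloc⟩ := hB
  refine ⟨hL, i, hi, hj, hloc.mono ?_ ?_⟩
  · rintro ⟨s, hs⟩
    have h1 : Algebra.adjoin O (Set.range fun j => h j / h i) ≤
        (Algebra.adjoin k (Set.range fun j => h j / h i)).restrictScalars O := by
      apply Algebra.adjoin_le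
      intro x hx
      exact Algebra.subset_adjoin hx
    exact ⟨⟨s, h1 hs⟩, rfl⟩
  · rintro ⟨s, hs⟩
    change s ∈ B
    induction hs using Algebra.adjoin_induction with
    | mem x hx =>
      obtain ⟨j, rfl⟩ := hx
      exact hj j
    | algebraMap r => exact hk r
    | add x y _ _ hx hy => exact B.add_mem hx hy
    | mul x y _ _ hx hy => exact B.mul_mem hx hy

/-- elements of `k[h_j/h_i]` are elements of `O[h_j/h_i]` divided by nonzero elements of `O` (induction `Algebra.adjoin_induction`;
`IsFractionRing O k`). -/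
theorem IsLR.down {O k : Type} [CommRing O] [IsDomain O] [Algebra O K] [Field k] [Algebra O k]
    [IsFractionRing O k] [Algebra k K] [IsScalarTower O k K] {ι : Type} {h : ι → K}
    {B : Subring K} (hB : IsLR k h B) : IsLR O h B := by
  obtain ⟨hL, i, hi, hj, hloc⟩ := hB
  have hk : ∀ c : k, algebraMap k K c ∈ B := fun c =>
    hloc.1 (algebraMap k (Algebra.adjoin k (Set.range fun j => h j / h i)) c)
  have hOK : ∀ o : O, algebraMap O K o = algebraMap k K (algebraMap O k o) :=
    fun o => IsScalarTower.algebraMap_apply O k K o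
  have hO : ∀ o : O, algebraMap O K o ∈ B := fun o => by rw [hOK]; exact hk _
  have hOu : ∀ o : O, o ≠ 0 → Un B (algebraMap O K o) := by
    intro o ho
    have h1 : algebraMap O k o ≠ 0 := by
      intro h0
      exact ho ((IsFractionRing.injective O k) (by rw [h0, map_zero]))
    rw [hOK]
    refine ⟨?_, hk _, ?_⟩
    · intro h0
      exact h1 ((algebraMap k K).injective (by rw [h0, map_zero]))
    · rw [← map_inv₀]; exact hk _
  have hden : ∀ x ∈ Algebra.adjoin k (Set.range fun j => h j / h i),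
      ∃ o : O, o ≠ 0 ∧ algebraMap O K o * x ∈ Algebra.adjoin O (Set.range fun j => h j / h i) := by
    intro x hx
    induction hx using Algebra.adjoin_induction with
    | mem x hx => exact ⟨1, one_ne_zero, by rw [map_one, one_mul]; exact Algebra.subset_adjoin hx⟩
    | algebraMap r =>
      obtain ⟨x, y, hy, hxy⟩ := IsFractionRing.div_surjective (A := O) r
      refine ⟨y, nonZeroDivisors.ne_zero hy, ?_⟩
      have hy0 : algebraMap O k y ≠ 0 := by
        intro h0
        exact nonZeroDivisors.ne_zero hy ((IsFractionRing.injective O k) (by rw [h0, map_zero]))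
      have h2 : algebraMap O K y * algebraMap k K r = algebraMap O K x := by
        rw [hOK, hOK, ← map_mul, ← hxy, mul_div_cancel₀ _ hy0]
      rw [h2]
      exact Subalgebra.algebraMap_mem _ x
    | add x y _ _ hx hy =>
      obtain ⟨o1, h1, g1⟩ := hx
      obtain ⟨o2, h2, g2⟩ := hy
      refine ⟨o1 * o2, mul_ne_zero h1 h2, ?_⟩
      have h3 : algebraMap O K (o1 * o2) * (x + y) =
          algebraMap O K o2 * (algebraMap O K o1 * x) +
            algebraMap O K o1 * (algebraMap O K o2 * y) := by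
        rw [map_mul]; ring
      rw [h3]
      exact Subalgebra.add_mem _ (Subalgebra.mul_mem _ (Subalgebra.algebraMap_mem _ _) g1)
        (Subalgebra.mul_mem _ (Subalgebra.algebraMap_mem _ _) g2)
    | mul x y _ _ hx hy =>
      obtain ⟨o1, h1, g1⟩ := hx
      obtain ⟨o2, h2, g2⟩ := hy
      refine ⟨o1 * o2, mul_ne_zero h1 h2, ?_⟩
      have h3 : algebraMap O K (o1 * o2) * (x * y) =
          (algebraMap O K o1 * x) * (algebraMap O K o2 * y) := by
        rw [map_mul]; ring
      rw [h3]
      exact Subalgebra.mul_mem _ g1 g2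
  refine ⟨hL, i, hi, hj, ?_, ?_⟩
  · rintro ⟨s, hs⟩
    change s ∈ B
    induction hs using Algebra.adjoin_induction with
    | mem x hx =>
      obtain ⟨j, rfl⟩ := hx
      exact hj j
    | algebraMap r => exact hO r
    | add x y _ _ hx hy => exact B.add_mem hx hy
    | mul x y _ _ hx hy => exact B.mul_mem hx hy
  · intro b hb
    obtain ⟨a, s, hs, has⟩ := hloc.2 b hb
    obtain ⟨o1, h1, g1⟩ := hden (a : K) a.2
    obtain ⟨o2, h2, g2⟩ := hden (s : K) s.2
    have e1 : algebraMap O K o2 * (algebraMap O K o1 * (a : K)) ∈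
        Algebra.adjoin O (Set.range fun j => h j / h i) :=
      Subalgebra.mul_mem _ (Subalgebra.algebraMap_mem _ _) g1
    have e2 : algebraMap O K o1 * (algebraMap O K o2 * (s : K)) ∈
        Algebra.adjoin O (Set.range fun j => h j / h i) :=
      Subalgebra.mul_mem _ (Subalgebra.algebraMap_mem _ _) g2
    have hs' : Un B (s : K) := hs
    have has' : b * (s : K) = (a : K) := has
    refine ⟨⟨_, e1⟩, ⟨_, e2⟩, ?_, ?_⟩
    · change Un B (algebraMap O K o1 * (algebraMap O K o2 * (s : K)))
      exact (hOu o1 h1).mul ((hOu o2 h2).mul hs')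
    · change b * (algebraMap O K o1 * (algebraMap O K o2 * (s : K))) =
        algebraMap O K o2 * (algebraMap O K o1 * (a : K))
      rw [← has']; ring



/-- ROW LR3. A local ring `B` of the model over `O` contains `k = Frac O` as soon as the uniformizer is invertible in `B`. -/
theorem algebraMap_mem_of_uniformizer {O k : Type} [CommRing O] [IsDomain O]
    [IsDiscreteValuationRing O] [Algebra O K] [Field k] [Algebra O k] [IsFractionRing O k]
    [Algebra k K] [IsScalarTower O k K] {t : O} (ht : Irreducible t) {B : Subring K}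
    (hO : ∀ o : O, algebraMap O K o ∈ B) (htB : (algebraMap O K t)⁻¹ ∈ B) (c : k) :
    algebraMap k K c ∈ B := by
  have hinj : Function.Injective (algebraMap O K) := by
    rw [IsScalarTower.algebraMap_eq O k K]
    exact (algebraMap k K).injective.comp (IsFractionRing.injective O k)
  obtain ⟨o1, o2, ho2, hc⟩ := IsFractionRing.div_surjective (A := O) c
  have h20 : o2 ≠ 0 := nonZeroDivisors.ne_zero ho2
  obtain ⟨n, u, hu⟩ := IsDiscreteValuationRing.associated_pow_irreducible h20 ht
  have h2K : algebraMap O K o2 ≠ 0 := by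
    intro h
    exact h20 (hinj (by rw [h, map_zero]))
  have htK : algebraMap O K t ≠ 0 := by
    intro h
    exact ht.ne_zero (hinj (by rw [h, map_zero]))
  have h3 : algebraMap O K o2 * algebraMap O K u = algebraMap O K t ^ n := by
    rw [← map_mul, hu, map_pow]
  have h4 : algebraMap k K c = algebraMap O K o1 * (algebraMap O K u *
      (algebraMap O K t)⁻¹ ^ n) := by
    rw [← hc, map_div₀, ← IsScalarTower.algebraMap_apply O k K,
      ← IsScalarTower.algebraMap_apply O k K, div_eq_iff h2K]
    have h5 : algebraMap O K u * (algebraMap O K t)⁻¹ ^ n * algebraMap O K o2 = 1 := by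
      calc algebraMap O K u * (algebraMap O K t)⁻¹ ^ n * algebraMap O K o2
          = (algebraMap O K o2 * algebraMap O K u) * (algebraMap O K t)⁻¹ ^ n := by ring
        _ = 1 := by rw [h3, ← mul_pow, mul_inv_cancel₀ htK, one_pow]
    rw [mul_assoc, h5, mul_one]
  rw [h4]
  exact B.mul_mem (hO _) (B.mul_mem (hO _) (B.pow_mem htB n))

/-- ROW LR4. `locAt S V` for a valuation ring (or any local ring) `V ⊇ S` of `K`. -/
theorem locAt_le {S : Type} [CommRing S] [Algebra S K] {V : Subring K}
    (hS : ∀ s : S, algebraMap S K s ∈ V) : locAt S V ≤ V := by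
  rintro u ⟨a, s, h1, h2, h3⟩
  have h4 : u = algebraMap S K a * (algebraMap S K s)⁻¹ := by
    rw [← h3, mul_assoc, mul_inv_cancel₀ h1, mul_one]
  rw [h4]
  exact V.mul_mem (hS a) h2

theorem isLoc_locAt {S : Type} [CommRing S] [Algebra S K] {V : Subring K}
    (hS : ∀ s : S, algebraMap S K s ∈ V) : IsLoc S (locAt S V) := by
  have hmem : ∀ s : S, algebraMap S K s ∈ locAt S V := by
    intro s
    exact ⟨s, 1, by simp, by simp [V.one_mem], by simp⟩
  refine ⟨hmem, ?_⟩
  rintro b ⟨a, s, h1, h2, h3⟩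
  refine ⟨a, s, ⟨h1, hmem s, ?_⟩, h3⟩
  exact ⟨1, s, h1, h2, by rw [inv_mul_cancel₀ h1, map_one]⟩

theorem locAt_inv_mem {S : Type} [CommRing S] [Algebra S K] {V : Subring K}
    (hS : ∀ s : S, algebraMap S K s ∈ V) {u : K} (hu : u ∈ locAt S V) (h0 : u ≠ 0)
    (hV : u⁻¹ ∈ V) : u⁻¹ ∈ locAt S V := by
  obtain ⟨a, s, h1, h2, h3⟩ := hu
  refine ⟨s, a, ?_, ?_, ?_⟩
  · rw [← h3]
    exact mul_ne_zero h0 h1
  · rw [← h3, mul_inv]
    exact V.mul_mem hV h2
  · rw [← h3, ← mul_assoc, inv_mul_cancel₀ h0, one_mul]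

theorem locAt_loc {S : Type} [CommRing S] [Algebra S K] {V : Subring K} (hV : Loc V)
    (hS : ∀ s : S, algebraMap S K s ∈ V) : Loc (locAt S V) := by
  have key : ∀ a : K, a ∈ locAt S V → (NU (locAt S V) a ↔ NU V a) := by
    intro a ha
    constructor
    · rintro ⟨_, h⟩
      refine ⟨locAt_le hS ha, fun h0 h1 => ?_⟩
      exact h h0 (locAt_inv_mem hS ha h0 h1)
    · rintro ⟨_, h⟩
      exact ⟨ha, fun h0 h1 => h h0 (locAt_le hS h1)⟩
  intro a b ha hb
  have hab : a + b ∈ locAt S V := (locAt S V).add_mem ha.1 hb.1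
  exact (key _ hab).mpr (hV a b ((key a ha.1).mp ha) ((key b hb.1).mp hb))






/-- the prime ideal of the non-units -/
private def LR5_q {S : Type} [CommRing S] [Algebra S K] {B : Subring K} (hloc : IsLoc S B)
    (hB : Loc B) : Ideal S where
  carrier := {s | NU B (algebraMap S K s)}
  add_mem' := by
    intro a b ha hb
    show NU B (algebraMap S K (a + b))
    rw [map_add]
    exact hB _ _ ha hb
  zero_mem' := by
    show NU B (algebraMap S K 0)
    rw [map_zero]
    exact ⟨B.zero_mem, fun h => absurd rfl h⟩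
  smul_mem' := by
    intro c a ha
    show NU B (algebraMap S K (c * a))
    rw [map_mul, mul_comm]
    exact NU.mul ha (hloc.1 c)

private theorem LR5_mem {S : Type} [CommRing S] [Algebra S K] {B : Subring K} (hloc : IsLoc S B)
    (hB : Loc B) (s : S) : s ∈ LR5_q hloc hB ↔ NU B (algebraMap S K s) := Iff.rfl

private theorem LR5_un {S : Type} [CommRing S] [Algebra S K] {B : Subring K} (hloc : IsLoc S B)
    (hB : Loc B) {s : S} (hs : s ∉ LR5_q hloc hB) : Un B (algebraMap S K s) := by
  rcases (mem_iff_un_or_nu B _).1 (hloc.1 s) with h | h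
  · exact h
  · exact absurd h hs

private theorem LR5_prime {S : Type} [CommRing S] [Algebra S K] {B : Subring K}
    (hloc : IsLoc S B) (hB : Loc B) : (LR5_q hloc hB).IsPrime := by
  refine ⟨?_, ?_⟩
  · intro h
    have h1 : (1 : S) ∈ LR5_q hloc hB := h ▸ Submodule.mem_top
    have h2 : NU B (algebraMap S K 1) := h1
    rw [map_one] at h2
    apply h2.2 one_ne_zero
    rw [inv_one]
    exact B.one_mem
  · intro a b hab
    by_contra hcon
    push Not at hcon
    have h1 := Un.mul (LR5_un hloc hB hcon.1) (LR5_un hloc hB hcon.2)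
    rw [← map_mul] at h1
    exact not_un_of_nu hab h1

/-- ROW LR5. The bridge: a local ring of the model is `Localization.AtPrime` of the chart ring. -/
theorem IsLoc.exists_prime {S : Type} [CommRing S] [Algebra S K] [FaithfulSMul S K]
    {B : Subring K} (hloc : IsLoc S B) (hB : Loc B) :
    ∃ (q : Ideal S) (_ : q.IsPrime), Nonempty (Localization.AtPrime q ≃+* B) ∧
      ∀ s : S, s ∈ q ↔ NU B (algebraMap S K s) := by
  have hq := LR5_prime hloc hB
  refine ⟨LR5_q hloc hB, hq, ?_, fun s => LR5_mem hloc hB s⟩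
  let φ : S →+* B := (algebraMap S K).codRestrict B hloc.1
  let _ : Algebra S B := φ.toAlgebra
  have hφ : ∀ s : S, ((algebraMap S B s : B) : K) = algebraMap S K s := fun s => rfl
  have hinj : Function.Injective (algebraMap S K) := FaithfulSMul.algebraMap_injective S K
  have hL : IsLocalization (LR5_q hloc hB).primeCompl B :=
    { map_units := fun y => by
        rw [isUnit_iff_un, hφ]
        exact LR5_un hloc hB y.2
      surj := fun z => by
        obtain ⟨a, s, hs, has⟩ := hloc.2 z z.2
        refine ⟨(a, ⟨s, fun h => not_un_of_nu h hs⟩), ?_⟩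
        apply Subtype.ext
        exact has
      exists_of_eq := fun {x y} hxy => by
        refine ⟨1, ?_⟩
        have h1 : algebraMap S K x = algebraMap S K y := by
          rw [← hφ x, ← hφ y, hxy]
        rw [hinj h1] }
  exact ⟨(IsLocalization.algEquiv (LR5_q hloc hB).primeCompl
    (Localization.AtPrime (LR5_q hloc hB)) B).toRingEquiv⟩


theorem LR6_adj {R : Type} [CommRing R] [Algebra R K] {ι κ : Type} {h : ι → K} {m : κ → K}
    {i : ι} {j : κ} (hi : h i ≠ 0) (hj : m j ≠ 0) :
    Algebra.adjoin R (Set.range fun p : ι × κ => h p.1 * m p.2 / (h i * m j)) =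
      Algebra.adjoin R (Set.range (fun i' => h i' / h i) ∪ Set.range (fun j' => m j' / m j)) := by
  apply le_antisymm
  · refine Algebra.adjoin_le ?_
    rintro _ ⟨⟨i', j'⟩, rfl⟩
    have h1 : h i' / h i ∈ Algebra.adjoin R (Set.range (fun i' => h i' / h i) ∪
        Set.range (fun j' => m j' / m j)) := Algebra.subset_adjoin (Or.inl ⟨i', rfl⟩)
    have h2 : m j' / m j ∈ Algebra.adjoin R (Set.range (fun i' => h i' / h i) ∪
        Set.range (fun j' => m j' / m j)) := Algebra.subset_adjoin (Or.inr ⟨j', rfl⟩)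
    have h3 : h i' * m j' / (h i * m j) = h i' / h i * (m j' / m j) := by
      rw [div_mul_div_comm]
    show h i' * m j' / (h i * m j) ∈ _
    rw [h3]
    exact mul_mem h1 h2
  · refine Algebra.adjoin_le ?_
    rintro _ (⟨i', rfl⟩ | ⟨j', rfl⟩)
    · refine Algebra.subset_adjoin ⟨(i', j), ?_⟩
      show h i' * m j / (h i * m j) = h i' / h i
      rw [mul_div_mul_right _ _ hj]
    · refine Algebra.subset_adjoin ⟨(i, j'), ?_⟩
      show h i * m j' / (h i * m j) = m j' / m j
      rw [mul_div_mul_left _ _ hi]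

theorem LR6_congr {R : Type} [CommRing R] [Algebra R K] {A A' : Subalgebra R K} (h : A = A')
    {B : Subring K} (hB : IsLoc A B) : IsLoc A' B := by
  subst h; exact hB

/-- ROW LR6. Products of lists (here for two lists; the general case by iteration): `B` is a local ring of the model of the
product list `(h_i m_j)` iff it is local and for some `(i, j)` contains all ratios `h_i'/h_i`, `m_j'/m_j` and is a localization of
the ring generated by them. Here: the direction used to analyse, and the direction used to construct. -/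
theorem IsLR.prod {R : Type} [CommRing R] [Algebra R K] {ι κ : Type} {h : ι → K} {m : κ → K}
    (hh : ∃ i, h i ≠ 0) (hm : ∃ j, m j ≠ 0) (B : Subring K) :
    IsLR R (fun p : ι × κ => h p.1 * m p.2) B ↔
      Loc B ∧ ∃ (i : ι) (j : κ), h i ≠ 0 ∧ m j ≠ 0 ∧ (∀ i', h i' / h i ∈ B) ∧
        (∀ j', m j' / m j ∈ B) ∧
        IsLoc (Algebra.adjoin R (Set.range (fun i' => h i' / h i) ∪
          Set.range (fun j' => m j' / m j))) B := by
  constructor
  · rintro ⟨hloc, ⟨i, j⟩, h0, hB, hL⟩
    have hi : h i ≠ 0 := left_ne_zero_of_mul h0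
    have hj : m j ≠ 0 := right_ne_zero_of_mul h0
    refine ⟨hloc, i, j, hi, hj, fun i' => ?_, fun j' => ?_, LR6_congr (LR6_adj hi hj) hL⟩
    · have h1 : h i' * m j / (h i * m j) ∈ B := hB (i', j)
      rwa [mul_div_mul_right _ _ hj] at h1
    · have h1 : h i * m j' / (h i * m j) ∈ B := hB (i, j')
      rwa [mul_div_mul_left _ _ hi] at h1
  · rintro ⟨hloc, i, j, hi, hj, h1, h2, hL⟩
    refine ⟨hloc, (i, j), mul_ne_zero hi hj, ?_, LR6_congr (LR6_adj hi hj).symm hL⟩
    rintro ⟨i', j'⟩
    show h i' * m j' / (h i * m j) ∈ B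
    rw [← div_mul_div_comm]
    exact B.mul_mem (h1 i') (h2 j')


end Pool.Agent.Lib.MP_55c1e7_ag.D
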